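import Mathlib

/-!
Discrete Wronskians and Baxter's TQ equation.
-/

namespace Pool.Agent.MP_c0c29f_mp.H97

open Polynomial Finset

set_option linter.unusedSectionVars false

section Ring

variable {R : Type} [CommRing R]

/-- discrete Wronskian -/
noncomputable def Wr (P Q : R[X]) : R[X] := taylor 1 P * Q - P * taylor 1 Q

/-- Baxter's equation -/
def TQ (N : ℕ) (T Q : R[X]) : Prop :=
  T * Q = X ^ N * taylor (-1) Q + (X - 1) ^ N * taylor 1 Q

/-- the expression whose order of vanishing at zero detects physical solutions -/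
noncomputable def Fus (N : ℕ) (Q : R[X]) : R[X] :=
  (X + 1) ^ N * Q * taylor (-1) Q + (X - 1) ^ N * taylor 1 Q * taylor 2 Q

/-- physical solutions -/
def Phys (N M : ℕ) (Q : R[X]) : Prop := Q.Monic ∧ Q.natDegree = M ∧ ∃ P, Wr P Q = X ^ N

theorem t1m (p : R[X]) : taylor 1 (taylor (-1) p) = p := by simp [taylor_taylor]
theorem tm1 (p : R[X]) : taylor (-1) (taylor 1 p) = p := by simp [taylor_taylor]
theorem t11 (p : R[X]) : taylor 1 (taylor 1 p) = taylor 2 p := by
  rw [taylor_taylor, one_add_one_eq_two]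

theorem taylor_dvd (r : R) {p q : R[X]} (h : p ∣ q) : taylor r p ∣ taylor r q := by
  obtain ⟨c, rfl⟩ := h
  exact ⟨taylor r c, taylor_mul _ _ _⟩

theorem delta_coeff (p : R[X]) (j : ℕ) :
    (taylor 1 p - p).coeff j = ∑ i ∈ p.support with j < i, (i.choose j : R) * p.coeff i := by
  classical
  have h1 : (taylor 1 p).coeff j = ∑ i ∈ p.support, (i.choose j : R) * p.coeff i := by
    rw [taylor_coeff, hasseDeriv_apply, Polynomial.sum, eval_finsetSum]
    simp
  have h2 : p.coeff j = ∑ i ∈ p.support, if i = j then p.coeff i else 0 := by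
    rw [sum_ite_eq']
    split_ifs with h
    · rfl
    · exact notMem_support_iff.mp h
  rw [coeff_sub, h1, h2, ← sum_sub_distrib, sum_filter]
  refine sum_congr rfl fun i _ => ?_
  rcases lt_trichotomy i j with h | h | h
  · simp [Nat.choose_eq_zero_of_lt h, h.ne, h.not_gt]
  · simp [h]
  · simp [h, h.ne']

theorem delta_top {p : R[X]} {m : ℕ} (h : p.natDegree ≤ m) :
    (X * (taylor 1 p - p)).natDegree ≤ m ∧ (X * (taylor 1 p - p)).coeff m = m * p.coeff m := by
  have h1 : ∀ j, m ≤ j → (taylor 1 p - p).coeff j = 0 := by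
    intro j hj
    rw [delta_coeff]
    refine sum_eq_zero fun i hi => ?_
    have := le_natDegree_of_mem_supp _ (mem_filter.mp hi).1
    have := (mem_filter.mp hi).2
    omega
  constructor
  · rw [natDegree_le_iff_coeff_eq_zero]
    intro j hj
    obtain ⟨j, rfl⟩ : ∃ i, j = i + 1 := ⟨j - 1, by omega⟩
    rw [coeff_X_mul, h1 j (by omega)]
  · rcases m with _ | m
    · simp
    · rw [coeff_X_mul, delta_coeff, sum_eq_single (m + 1)]
      · simp
      · intro i hi hne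
        have := le_natDegree_of_mem_supp _ (mem_filter.mp hi).1
        have := (mem_filter.mp hi).2
        omega
      · intro hi
        have : p.coeff (m + 1) = 0 := by simpa using hi
        simp [this]

theorem wr_eq (P Q : R[X]) :
    X * Wr P Q = X * (taylor 1 P - P) * Q - P * (X * (taylor 1 Q - Q)) := by
  rw [Wr]
  ring

theorem wr_top {P Q : R[X]} {m n : ℕ} (hP : P.natDegree ≤ m) (hQ : Q.natDegree ≤ n) :
    (X * Wr P Q).natDegree ≤ m + n ∧
      (X * Wr P Q).coeff (m + n) = ((m : R) - n) * (P.coeff m * Q.coeff n) := by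
  obtain ⟨h1, h2⟩ := delta_top hP
  obtain ⟨h3, h4⟩ := delta_top hQ
  rw [wr_eq]
  constructor
  · exact (natDegree_sub_le _ _).trans
      (max_le (natDegree_mul_le_of_le h1 hQ) (natDegree_mul_le_of_le hP h3))
  · rw [coeff_sub, coeff_mul_add_eq_of_natDegree_le h1 hQ, coeff_mul_add_eq_of_natDegree_le hP h3,
      h2, h4]
    ring

theorem TQ.shift {N : ℕ} {T Q : R[X]} (h : TQ N T Q) :
    taylor 1 T * taylor 1 Q = (X + 1) ^ N * Q + X ^ N * taylor 2 Q := by
  have := congrArg (taylor 1) h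
  simpa [taylor_mul, t1m, t11] using this

theorem TQ.eval {N : ℕ} {T Q : R[X]} (h : TQ N T Q) (z : R) :
    T.eval z * Q.eval z = z ^ N * Q.eval (z - 1) + (z - 1) ^ N * Q.eval (z + 1) := by
  have := congrArg (Polynomial.eval z) h
  simpa [taylor_eval, sub_eq_add_neg] using this

theorem wr_minus {N : ℕ} {P Q : R[X]} (h : Wr P Q = X ^ N) :
    P * taylor (-1) Q - taylor (-1) P * Q = (X - 1) ^ N := by
  have := congrArg (taylor (-1)) h
  simpa [Wr, taylor_mul, tm1, sub_eq_add_neg] using this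

theorem wr_plus {N : ℕ} {P Q : R[X]} (h : Wr P Q = X ^ N) :
    taylor 2 P * taylor 1 Q - taylor 1 P * taylor 2 Q = (X + 1) ^ N := by
  have := congrArg (taylor 1) h
  simpa [Wr, taylor_mul, t11] using this

theorem TQ_of_wr {N : ℕ} {P Q : R[X]} (h : Wr P Q = X ^ N) :
    TQ N (taylor 1 P * taylor (-1) Q - taylor (-1) P * taylor 1 Q) Q := by
  rw [TQ, ← wr_minus h, ← h, Wr]
  ring

theorem fus_of_wr {N : ℕ} {P Q : R[X]} (h : Wr P Q = X ^ N) :
    Fus N Q = Q * taylor 1 Q * (taylor 2 P * taylor (-1) Q - taylor (-1) P * taylor 2 Q) -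
      X ^ N * (taylor (-1) Q * taylor 2 Q) := by
  rw [Fus, ← wr_minus h, ← wr_plus h, ← h, Wr]
  ring

theorem fus_of_fusion [IsDomain R] {N : ℕ} {T Q G : R[X]} (h : TQ N T Q)
    (hG : T * taylor 1 T = (X ^ 2 - 1) ^ N + X ^ N * G) :
    Fus N Q = Q * taylor 1 Q * G - X ^ N * (taylor (-1) Q * taylor 2 Q) := by
  have h1 := h.shift
  rw [TQ] at h
  apply mul_left_cancel₀ (pow_ne_zero N (X_ne_zero (R := R)))
  have h2 : ((X : R[X]) ^ 2 - 1) ^ N = (X + 1) ^ N * (X - 1) ^ N := by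
    rw [← mul_pow]
    congr 1
    ring
  rw [h2] at hG
  rw [Fus]
  linear_combination (-(taylor 1 T * taylor 1 Q)) * h -
    (X ^ N * taylor (-1) Q + (X - 1) ^ N * taylor 1 Q) * h1 + Q * taylor 1 Q * hG

end Ring

section Field

variable {K : Type} [Field K] [CharZero K]

theorem wr_deg {P Q : K[X]} (hP : P ≠ 0) (hQ : Q ≠ 0) (h : Wr P Q = 0) :
    P.natDegree = Q.natDegree := by
  have h1 := (wr_top (le_refl P.natDegree) (le_refl Q.natDegree)).2
  rw [h, mul_zero, coeff_zero] at h1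
  have h2 := (mul_eq_zero.mp h1.symm).resolve_right
    (mul_ne_zero (leadingCoeff_ne_zero.mpr hP) (leadingCoeff_ne_zero.mpr hQ))
  exact_mod_cast sub_eq_zero.mp h2

theorem wr_sub_smul (P Q : K[X]) (c : K) : Wr (P - C c * Q) Q = Wr P Q := by
  simp only [Wr, map_sub, taylor_mul, taylor_C]
  ring

theorem prop_of_wr {P Q : K[X]} (hQ : Q ≠ 0) (h : Wr P Q = 0) : ∃ c, P = C c * Q := by
  by_cases hP : P = 0
  · exact ⟨0, by simp [hP]⟩
  have hd := wr_deg hP hQ h
  have hl := leadingCoeff_ne_zero.mpr hQ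
  refine ⟨P.leadingCoeff / Q.leadingCoeff, ?_⟩
  by_contra hne
  have h1 := wr_deg (sub_ne_zero.mpr hne) hQ (by rw [wr_sub_smul, h])
  apply leadingCoeff_ne_zero.mpr (sub_ne_zero.mpr hne)
  rw [leadingCoeff, h1, coeff_sub, coeff_C_mul, ← leadingCoeff, div_mul_cancel₀ _ hl, ← hd,
    ← leadingCoeff, sub_self]

theorem cop_X_sub (N a : ℕ) : IsCoprime ((X : K[X]) ^ a) ((X - 1) ^ N) :=
  IsCoprime.pow ⟨1, -1, by ring⟩

theorem cop_X_add (N a : ℕ) : IsCoprime ((X : K[X]) ^ a) ((X + 1) ^ N) :=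
  IsCoprime.pow ⟨-1, 1, by ring⟩

theorem TQ_unique {N M : ℕ} (hN : 2 * M ≤ N) {T P Q : K[X]} (hP : TQ N T P) (hQ : TQ N T Q)
    (dP : P.natDegree ≤ M) (dQ : Q.natDegree ≤ M) : Wr P Q = 0 := by
  have h1 : (X - 1) ^ N * Wr P Q = X ^ N * (P * taylor (-1) Q - taylor (-1) P * Q) := by
    rw [TQ] at hP hQ
    rw [Wr]
    linear_combination P * hQ - Q * hP
  have h2 : X ^ N ∣ Wr P Q := (cop_X_sub N N).dvd_of_dvd_mul_left ⟨_, h1⟩
  have h3 : X ^ (N + 1) ∣ X * Wr P Q := by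
    rw [pow_succ']
    exact mul_dvd_mul_left _ h2
  have h4 := eq_zero_of_dvd_of_natDegree_lt h3 (by
    have := (wr_top dP dQ).1
    rw [natDegree_X_pow]
    omega)
  exact (mul_eq_zero.mp h4).resolve_left X_ne_zero

theorem TQ_eq {N M : ℕ} (hN : 2 * M ≤ N) {T P Q : K[X]} (hP : TQ N T P) (hQ : TQ N T Q)
    (dP : P.natDegree ≤ M) (dQ : Q.natDegree ≤ M) (mP : P.Monic) (mQ : Q.Monic) : P = Q := by
  obtain ⟨c, hc⟩ := prop_of_wr mQ.ne_zero (TQ_unique hN hP hQ dP dQ)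
  have := congrArg leadingCoeff hc
  rw [leadingCoeff_mul, leadingCoeff_C, mP.leadingCoeff, mQ.leadingCoeff, mul_one] at this
  rw [hc, ← this, C_1, one_mul]

theorem TQ.adj {N : ℕ} {T Q : K[X]} (h : TQ N T Q) (hQ : Q ≠ 0) {z : K} (h0 : Q.eval z = 0)
    (h1 : Q.eval (z + 1) = 0) : z = 0 := by
  by_contra hz
  have up : ∀ y : K, y ≠ 0 → Q.eval y = 0 → Q.eval (y + 1) = 0 → Q.eval (y + 1 + 1) = 0 := by
    intro y hy a b
    have := h.eval (y + 1)
    rw [add_sub_cancel_right, a, b, mul_zero, mul_zero, zero_add] at this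
    exact (mul_eq_zero.mp this.symm).resolve_left (pow_ne_zero _ hy)
  have down : ∀ y : K, y ≠ 0 → Q.eval y = 0 → Q.eval (y + 1) = 0 → Q.eval (y - 1) = 0 := by
    intro y hy a b
    have := h.eval y
    rw [a, b, mul_zero, mul_zero, add_zero] at this
    exact (mul_eq_zero.mp this.symm).resolve_left (pow_ne_zero _ hy)
  apply hQ
  by_cases hk : ∀ k : ℕ, z + k ≠ 0
  · have : ∀ k : ℕ, Q.eval (z + k) = 0 ∧ Q.eval (z + k + 1) = 0 := by
      intro k
      induction k with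
      | zero => simpa using ⟨h0, h1⟩
      | succ k ih =>
        push_cast
        rw [← add_assoc]
        exact ⟨ih.2, up _ (hk k) ih.1 ih.2⟩
    refine eq_zero_of_infinite_isRoot Q (Set.infinite_of_injective_forall_mem
      (f := fun k : ℕ => z + k) (fun a b hab => ?_) fun k => (this k).1)
    exact_mod_cast add_left_cancel hab
  · push Not at hk
    obtain ⟨l, hl⟩ := hk
    have hk : ∀ k : ℕ, z - k ≠ 0 := by
      intro k hk
      have h2 : ((l + k : ℕ) : K) = 0 := by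
        push_cast
        linear_combination hl - hk
      have h3 : l = 0 := by
        have : l + k = 0 := by exact_mod_cast h2
        omega
      exact hz (by simpa [h3] using hl)
    have : ∀ k : ℕ, Q.eval (z - k) = 0 ∧ Q.eval (z - k + 1) = 0 := by
      intro k
      induction k with
      | zero => simpa using ⟨h0, h1⟩
      | succ k ih =>
        push_cast
        rw [← sub_sub, sub_add_cancel]
        exact ⟨down _ (hk k) ih.1 ih.2, ih.1⟩
    refine eq_zero_of_infinite_isRoot Q (Set.infinite_of_injective_forall_mem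
      (f := fun k : ℕ => z - k) (fun a b hab => ?_) fun k => (this k).1)
    exact_mod_cast sub_right_injective hab

theorem TQ.decomp {N : ℕ} {T Q : K[X]} (h : TQ N T Q) (hQ : Q ≠ 0) (hN : Q.natDegree ≤ N) :
    ∃ (a : ℕ) (Q1 Q2 : K[X]), Q = X ^ a * Q1 ∧ taylor 1 Q = X ^ a * Q2 ∧ Q1.eval 0 ≠ 0 ∧
      Q2.eval 0 ≠ 0 ∧ a ≤ Q.natDegree := by
  have hQ' : taylor 1 Q ≠ 0 := by simpa using hQ
  obtain ⟨Q1, h1, h2⟩ := exists_eq_pow_rootMultiplicity_mul_and_not_dvd Q hQ 0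
  obtain ⟨Q2, h3, h4⟩ := exists_eq_pow_rootMultiplicity_mul_and_not_dvd _ hQ' 0
  set a := rootMultiplicity 0 Q
  set b := rootMultiplicity 0 (taylor 1 Q)
  rw [dvd_iff_isRoot] at h2 h4
  simp only [map_zero, sub_zero] at h1 h3
  have ha : a ≤ Q.natDegree := by
    simpa using natDegree_le_of_dvd ⟨Q1, h1⟩ hQ
  have hb : b ≤ Q.natDegree := by
    simpa using natDegree_le_of_dvd ⟨Q2, h3⟩ hQ'
  have hab : a ≤ b := by
    rw [le_rootMultiplicity_iff hQ', map_zero, sub_zero]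
    refine (cop_X_sub N a).dvd_of_dvd_mul_left ?_
    rw [← sub_eq_iff_eq_add'.mpr h]
    exact dvd_sub (Dvd.dvd.mul_left ⟨Q1, h1⟩ _) ((pow_dvd_pow _ (by omega)).mul_right _)
  have hba : b ≤ a := by
    rw [le_rootMultiplicity_iff hQ, map_zero, sub_zero]
    refine (cop_X_add N b).dvd_of_dvd_mul_left ?_
    rw [← sub_eq_iff_eq_add.mpr h.shift]
    exact dvd_sub (Dvd.dvd.mul_left ⟨Q2, h3⟩ _) ((pow_dvd_pow _ (by omega)).mul_right _)
  exact ⟨a, Q1, Q2, h1, le_antisymm hab hba ▸ h3, h2, h4, ha⟩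

theorem exists_antidelta (G : K[X]) : ∃ g : K[X], taylor 1 g - g = G := by
  have key : ∀ n : ℕ, ∀ G : K[X], (X * G).natDegree ≤ n → ∃ g : K[X], taylor 1 g - g = G := by
    intro n
    induction n with
    | zero =>
      intro G hG
      have h1 := eq_zero_of_dvd_of_natDegree_lt (dvd_mul_right X G) (by simpa using hG)
      exact ⟨0, by simp [(mul_eq_zero.mp h1).resolve_left X_ne_zero]⟩
    | succ n ih =>
      intro G hG
      let p : K[X] := monomial (n + 1) ((X * G).coeff (n + 1) / (n + 1 : ℕ))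
      obtain ⟨h1, h2⟩ := delta_top (p := p) (m := n + 1) (natDegree_monomial_le _)
      obtain ⟨g, hg⟩ := ih (G - (taylor 1 p - p)) (by
        rw [mul_sub, natDegree_le_iff_coeff_eq_zero]
        intro j hj
        rcases Nat.eq_or_lt_of_le (Nat.succ_le_of_lt hj) with h | h
        · rw [← h, coeff_sub, h2, coeff_monomial_same, mul_div_cancel₀ _ (Nat.cast_ne_zero.mpr (by omega)),
            sub_self]
        · rw [coeff_sub, coeff_eq_zero_of_natDegree_lt (hG.trans_lt h),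
            coeff_eq_zero_of_natDegree_lt (h1.trans_lt h), sub_self])
      exact ⟨g + p, by rw [map_add]; linear_combination hg⟩
  exact key _ G le_rfl

theorem cop_of [IsAlgClosed K] {p q : K[X]} (h : ∀ z, p.eval z = 0 → q.eval z ≠ 0) :
    IsCoprime p q := by
  rw [isCoprime_iff_aeval_ne_zero_of_isAlgClosed K K]
  intro a
  simp only [coe_aeval_eq_eval]
  exact (em _).symm.imp id (h a)

theorem exists_wr [IsAlgClosed K] {N a : ℕ} {T Q Q1 Q2 : K[X]} (h : TQ N T Q) (hQ : Q ≠ 0)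
    (h1 : Q = X ^ a * Q1) (h2 : taylor 1 Q = X ^ a * Q2) (h3 : Q1.eval 0 ≠ 0)
    (h4 : Q2.eval 0 ≠ 0) (ha : 2 * a ≤ N) (hF : X ^ (2 * a) ∣ Fus N Q) :
    ∃ P, Wr P Q = X ^ N := by
  have cX : ∀ p : K[X], (a ≠ 0 → p.eval 0 ≠ 0) → IsCoprime (X ^ a) p := by
    intro p hp
    refine cop_of fun z hz => ?_
    rw [eval_pow, eval_X, pow_eq_zero_iff'] at hz
    rw [hz.1]
    exact hp hz.2
  have c1 : IsCoprime (X ^ a) Q1 := cX _ fun _ => h3
  have c2 : IsCoprime (X ^ a) Q2 := cX _ fun _ => h4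
  have c3 : IsCoprime Q1 (taylor 1 Q) := cop_of fun z hz hz' => by
    rw [taylor_eval] at hz'
    have := h.adj hQ (by rw [h1, eval_mul, hz, mul_zero]) hz'
    exact h3 (this ▸ hz)
  have c4 : IsCoprime (X ^ a) (taylor (-1) Q) := cX _ fun ha0 hz => by
    rw [taylor_eval, zero_add] at hz
    have := h.adj hQ hz (by rw [neg_add_cancel, h1]; simp [ha0])
    simp at this
  have c5 : IsCoprime (X ^ a) (taylor 2 Q) := cX _ fun ha0 hz => by
    rw [taylor_eval, zero_add] at hz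
    have h5 := congrArg (Polynomial.eval 0) h2
    rw [taylor_eval, zero_add] at h5
    have := h.adj hQ (z := 1) (by rw [h5]; simp [ha0]) (by rw [one_add_one_eq_two, hz])
    simp at this
  obtain ⟨e1, u1, hu1⟩ := c1
  obtain ⟨e3, u3, hu3⟩ := c3
  obtain ⟨e4, u4, hu4⟩ := c4
  let P0 : K[X] := -(X ^ N * u3) * (e1 * X ^ a) + ((X - 1) ^ N * u4) * (u1 * Q1)
  have d1 : Q1 ∣ P0 * taylor 1 Q + X ^ N :=
    ⟨X ^ N * u3 * u1 * taylor 1 Q + (X - 1) ^ N * u4 * u1 * taylor 1 Q + X ^ N * e3, by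
      simp only [P0]
      linear_combination (-(X ^ N * u3 * taylor 1 Q)) * hu1 - X ^ N * hu3⟩
  have d2 : X ^ a ∣ P0 * taylor (-1) Q - (X - 1) ^ N :=
    ⟨-(X ^ N * u3 * e1 * taylor (-1) Q) - (X - 1) ^ N * u4 * e1 * taylor (-1) Q -
      (X - 1) ^ N * e4, by
      simp only [P0]
      linear_combination ((X - 1) ^ N * u4 * taylor (-1) Q) * hu1 + (X - 1) ^ N * hu4⟩
  have d3 : Q1 ∣ P0 * taylor (-1) Q - (X - 1) ^ N := by
    refine IsCoprime.dvd_of_dvd_mul_right ⟨e3, u3, hu3⟩ ?_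
    have : (P0 * taylor (-1) Q - (X - 1) ^ N) * taylor 1 Q =
        (P0 * taylor 1 Q + X ^ N) * taylor (-1) Q - T * Q := by
      rw [TQ] at h
      linear_combination h
    rw [this]
    exact dvd_sub (d1.mul_right _) (Dvd.dvd.mul_left ⟨X ^ a, by rw [h1, mul_comm]⟩ _)
  have d4 : Q ∣ P0 * taylor (-1) Q - (X - 1) ^ N := by
    nth_rw 1 [h1]
    exact IsCoprime.mul_dvd ⟨e1, u1, hu1⟩ d2 d3
  have d5 : taylor 1 Q ∣ taylor 1 P0 * Q - X ^ N := by
    have := taylor_dvd 1 d4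
    simpa [taylor_mul, t1m] using this
  have d6 : X ^ a ∣ taylor 1 P0 * taylor 2 Q + (X + 1) ^ N := by
    have := taylor_dvd 1 d1
    simp only [map_add, taylor_mul, t11, taylor_X_pow, map_one] at this
    refine Dvd.dvd.trans ?_ this
    have h5 : (X + 1) ^ a * taylor 1 Q1 = X ^ a * Q2 := by
      rw [← h2, h1, taylor_mul, taylor_X_pow, map_one]
    exact (cop_X_add a a).dvd_of_dvd_mul_left ⟨_, h5⟩
  have d7 : X ^ a ∣ (X + 1) ^ N * Q1 * taylor (-1) Q + (X - 1) ^ N * Q2 * taylor 2 Q := by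
    have h5 : Fus N Q =
        X ^ a * ((X + 1) ^ N * Q1 * taylor (-1) Q + (X - 1) ^ N * Q2 * taylor 2 Q) := by
      rw [Fus, h2]
      linear_combination ((X + 1) ^ N * taylor (-1) Q) * h1
    rw [h5, two_mul, pow_add] at hF
    exact (mul_dvd_mul_iff_left (pow_ne_zero a X_ne_zero)).mp hF
  have d8 : X ^ a ∣ taylor 1 P0 * Q1 - P0 * Q2 := by
    refine (IsCoprime.mul_right ⟨e4, u4, hu4⟩ c5).dvd_of_dvd_mul_right ?_
    have : (taylor 1 P0 * Q1 - P0 * Q2) * (taylor (-1) Q * taylor 2 Q) =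
        (taylor 1 P0 * taylor 2 Q + (X + 1) ^ N) * (Q1 * taylor (-1) Q) -
          (P0 * taylor (-1) Q - (X - 1) ^ N) * (Q2 * taylor 2 Q) -
          ((X + 1) ^ N * Q1 * taylor (-1) Q + (X - 1) ^ N * Q2 * taylor 2 Q) := by ring
    rw [this]
    exact dvd_sub (dvd_sub (d6.mul_right _) (d2.mul_right _)) d7
  have e1' : X ^ a * X ^ a ∣ Wr P0 Q - X ^ N := by
    have : Wr P0 Q = X ^ a * (taylor 1 P0 * Q1 - P0 * Q2) := by
      rw [Wr, h2]
      linear_combination (taylor 1 P0) * h1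
    rw [this]
    refine dvd_sub (mul_dvd_mul_left _ d8) ?_
    rw [← pow_add]
    exact pow_dvd_pow _ (by omega)
  have e2 : Q1 ∣ Wr P0 Q - X ^ N := by
    have : Wr P0 Q - X ^ N = taylor 1 P0 * Q - (P0 * taylor 1 Q + X ^ N) := by
      rw [Wr]
      ring
    rw [this]
    exact dvd_sub (Dvd.dvd.mul_left ⟨X ^ a, by rw [h1, mul_comm]⟩ _) d1
  have hQ2 : Q2 ∣ taylor 1 Q := ⟨X ^ a, by rw [h2, mul_comm]⟩
  have e3' : Q2 ∣ Wr P0 Q - X ^ N := by
    have : Wr P0 Q - X ^ N = (taylor 1 P0 * Q - X ^ N) - P0 * taylor 1 Q := by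
      rw [Wr]
      ring
    rw [this]
    exact dvd_sub (hQ2.trans d5) (hQ2.mul_left _)
  have c1 : IsCoprime (X ^ a) Q1 := ⟨e1, u1, hu1⟩
  have c6 : IsCoprime Q1 Q2 := IsCoprime.of_isCoprime_of_dvd_right ⟨e3, u3, hu3⟩ hQ2
  obtain ⟨G, hG⟩ := ((c2.mul_left c2).mul_left c6).mul_dvd ((c1.mul_left c1).mul_dvd e1' e2) e3'
  obtain ⟨g, hg⟩ := exists_antidelta (-G)
  refine ⟨P0 + g * Q, ?_⟩
  have h5 : Wr (P0 + g * Q) Q = Wr P0 Q + (taylor 1 g - g) * (Q * taylor 1 Q) := by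
    simp only [Wr, map_add, taylor_mul]
    ring
  have h6 : Q * taylor 1 Q = X ^ a * X ^ a * Q1 * Q2 := by
    rw [h2]
    linear_combination (X ^ a * Q2) * h1
  rw [h5, hg, h6]
  linear_combination hG

end Field

end Pool.Agent.MP_c0c29f_mp.H97
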