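import Mathlib

/-!
A weighted Bezout inequality for finite polynomial maps between affine spaces.
-/

namespace Pool.Agent.MP_c0c29f_mp.H97

open Finset

set_option linter.unusedSectionVars false

/-- exponent vectors of weight at most `n` -/
def Bx {σ : Type} [Fintype σ] [DecidableEq σ] (w : σ → ℕ) (n : ℕ) : Finset (σ → ℕ) :=
  (Fintype.piFinset fun _ => range (n + 1)).filter fun α => ∑ i, w i * α i ≤ n

variable {σ τ : Type} [Fintype σ] [DecidableEq σ] [Fintype τ] [DecidableEq τ]

theorem mem_Bx {w : σ → ℕ} (hw : ∀ i, 0 < w i) {n : ℕ} {α : σ → ℕ} :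
    α ∈ Bx w n ↔ ∑ i, w i * α i ≤ n := by
  simp only [Bx, mem_filter, Fintype.mem_piFinset, mem_range, and_iff_right_iff_imp]
  intro h i
  have h1 : w i * α i ≤ ∑ i, w i * α i :=
    single_le_sum (f := fun i => w i * α i) (fun _ _ => Nat.zero_le _) (mem_univ i)
  have h2 : α i ≤ w i * α i := Nat.le_mul_of_pos_left _ (hw i)
  omega

theorem Bx_low {w : σ → ℕ} (hw : ∀ i, 0 < w i) (n : ℕ) :
    #(Bx (fun _ : σ => 1) n) ≤ #(Bx w n) * ∏ i, w i := by
  have h : ∏ i, w i = #(Fintype.piFinset fun i => range (w i)) := by simp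
  rw [h, ← card_product]
  refine card_le_card_of_injOn (fun β => (fun i => β i / w i, fun i => β i % w i)) ?_ ?_
  · intro β hβ
    have h1 := (mem_Bx (fun _ => Nat.one_pos)).mp hβ
    simp only [coe_product, Set.mem_prod, mem_coe, mem_Bx hw, Fintype.mem_piFinset, mem_range]
    refine ⟨le_trans (sum_le_sum fun i _ => ?_) h1, fun i => Nat.mod_lt _ (hw i)⟩
    rw [one_mul]
    exact Nat.mul_div_le _ _
  · intro β _ γ _ h
    funext i
    have h1 := congrFun (congrArg Prod.fst h) i
    have h2 := congrFun (congrArg Prod.snd h) i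
    simp only at h1 h2
    rw [← Nat.div_add_mod (β i) (w i), h1, h2, Nat.div_add_mod]

theorem Bx_up {w : σ → ℕ} (hw : ∀ i, 0 < w i) (n : ℕ) :
    #(Bx w n) * ∏ i, w i ≤ #(Bx (fun _ : σ => 1) (n + ∑ i, w i)) := by
  have h : ∏ i, w i = #(Fintype.piFinset fun i => range (w i)) := by simp
  rw [h, ← card_product]
  refine card_le_card_of_injOn (fun p i => w i * p.1 i + p.2 i) ?_ ?_
  · rintro ⟨α, r⟩ hp
    simp only [coe_product, Set.mem_prod, mem_coe, mem_Bx hw, Fintype.mem_piFinset,
      mem_range] at hp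
    rw [mem_coe, mem_Bx (fun _ => Nat.one_pos)]
    simp only [one_mul, sum_add_distrib]
    exact add_le_add hp.1 (sum_le_sum fun i _ => (hp.2 i).le)
  · rintro ⟨α, r⟩ hp ⟨β, s⟩ hq h
    simp only [coe_product, Set.mem_prod, mem_coe, mem_Bx hw, Fintype.mem_piFinset,
      mem_range] at hp hq
    have h1 : ∀ i, α i = β i ∧ r i = s i := by
      intro i
      have h2 : w i * α i + r i = w i * β i + s i := congrFun h i
      have h3 := congrArg (· / w i) h2
      have h4 := congrArg (· % w i) h2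
      simp only [Nat.mul_add_div (hw i), Nat.mul_add_mod, Nat.div_eq_of_lt (hp.2 i),
        Nat.div_eq_of_lt (hq.2 i), Nat.mod_eq_of_lt (hp.2 i), Nat.mod_eq_of_lt (hq.2 i)] at h3 h4
      exact ⟨by simpa using h3, h4⟩
    exact Prod.ext (funext fun i => (h1 i).1) (funext fun i => (h1 i).2)

theorem Bx_equiv (e : σ ≃ τ) (n : ℕ) :
    #(Bx (fun _ : σ => 1) n) ≤ #(Bx (fun _ : τ => 1) n) := by
  refine card_le_card_of_injOn (fun β j => β (e.symm j)) ?_ ?_
  · intro β hβ
    have h1 := (mem_Bx (fun _ => Nat.one_pos)).mp hβ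
    rw [mem_coe, mem_Bx (fun _ => Nat.one_pos)]
    rwa [Equiv.sum_comp e.symm fun i => 1 * β i]
  · intro β _ γ _ h
    funext i
    simpa using congrFun h (e i)

theorem growth (c : ℕ → ℕ) (E D s N : ℕ) (h0 : 1 ≤ c 0) (h1 : ∀ n, c n ≤ (n + 1) ^ N)
    (h : ∀ n, E * c n ≤ D * c (n + s)) : E ≤ D := by
  by_contra hlt
  push Not at hlt
  rcases Nat.eq_zero_or_pos D with rfl | hD
  · have := h 0
    have h2 : 1 ≤ E * c 0 := Nat.mul_pos hlt h0
    omega
  have hr : (1 : ℝ) < E / D := by
    rw [one_lt_div (by exact_mod_cast hD)]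
    exact_mod_cast hlt
  have h2 : ∀ k : ℕ, ((E : ℝ) / D) ^ k ≤ c (k * s) := by
    intro k
    induction k with
    | zero => simpa using h0
    | succ k ih =>
      have h3 : (E : ℝ) * c (k * s) ≤ D * c (k * s + s) := by exact_mod_cast h (k * s)
      rw [pow_succ, add_mul, one_mul]
      calc _ ≤ c (k * s) * ((E : ℝ) / D) := by gcongr
        _ ≤ _ := by
          rw [← mul_div_assoc, div_le_iff₀ (by exact_mod_cast hD)]
          linarith
  have h3 := (tendsto_pow_const_div_const_pow_of_one_lt N hr).const_mul (((s : ℝ) + 1) ^ N)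
  rw [mul_zero] at h3
  obtain ⟨k, hk, hk1⟩ := ((h3.eventually (gt_mem_nhds one_pos)).and
    (Filter.eventually_ge_atTop 1)).exists
  rw [← mul_div_assoc, div_lt_one (by positivity)] at hk
  have h4 : (c (k * s) : ℝ) ≤ ((k * s + 1 : ℕ) : ℝ) ^ N := by exact_mod_cast h1 (k * s)
  have h5 : ((k * s + 1 : ℕ) : ℝ) ^ N ≤ ((s : ℝ) + 1) ^ N * (k : ℝ) ^ N := by
    rw [← mul_pow]
    refine pow_le_pow_left₀ (by positivity) ?_ N
    have : (1 : ℝ) ≤ k := by exact_mod_cast hk1
    push_cast
    nlinarith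
  linarith [h2 k]

open MvPolynomial

/-- all monomials have weight at most `n` -/
def WD {k : Type} [Field k] (w : σ → ℕ) (n : ℕ) (p : MvPolynomial σ k) : Prop :=
  ∀ m ∈ p.support, ∑ i, w i * m i ≤ n

variable {k : Type} [Field k] {w : σ → ℕ}

theorem WD.mono {n m : ℕ} {p : MvPolynomial σ k} (h : WD w n p) (hnm : n ≤ m) : WD w m p :=
  fun a ha => (h a ha).trans hnm

theorem WD.mul {n m : ℕ} {p q : MvPolynomial σ k} (hp : WD w n p) (hq : WD w m q) :
    WD w (n + m) (p * q) := by
  intro a ha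
  obtain ⟨b, hb, c, hc, rfl⟩ := mem_add.mp (support_mul p q ha)
  simp only [Finsupp.add_apply, mul_add, sum_add_distrib]
  exact add_le_add (hp b hb) (hq c hc)

theorem WD.C (a : k) : WD w 0 (C a : MvPolynomial σ k) := by
  intro m hm
  have : m = 0 := by
    by_contra h
    rw [mem_support_iff, coeff_C, if_neg (Ne.symm h)] at hm
    exact hm rfl
  simp [this]

theorem WD.pow {n : ℕ} {p : MvPolynomial σ k} (hp : WD w n p) (e : ℕ) : WD w (n * e) (p ^ e) := by
  induction e with
  | zero => simpa using WD.C (w := w) (1 : k)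
  | succ e ih => simpa [pow_succ, mul_add] using ih.mul hp

theorem WD.prod {ι : Type} (s : Finset ι) {n : ι → ℕ} {p : ι → MvPolynomial σ k}
    (hp : ∀ i, WD w (n i) (p i)) : WD w (∑ i ∈ s, n i) (∏ i ∈ s, p i) := by
  classical
  induction s using Finset.induction_on with
  | empty => simpa using WD.C (w := w) (1 : k)
  | insert a s ha ih => simpa [sum_insert ha, prod_insert ha] using (hp a).mul ih

theorem WD.exists (p : MvPolynomial σ k) : ∃ n, WD w n p :=
  ⟨p.support.sup fun m => ∑ i, w i * m i, fun _ hm =>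
    le_sup (f := fun m : σ →₀ ℕ => ∑ i, w i * m i) hm⟩

theorem bezout (e : σ ≃ τ) (hw : ∀ i, 0 < w i) {d : τ → ℕ} (hd : ∀ j, 0 < d j)
    (f : τ → MvPolynomial σ k) (hf : ∀ j, WD w (d j) (f j))
    (hint : ∀ p : MvPolynomial σ k, IsIntegral (Algebra.adjoin k (Set.range f)) p)
    (a : τ → k) (t : MvPolynomial σ k) (S : Finset (σ → k))
    (hS : ∀ x ∈ S, ∀ j, eval x (f j) = a j) (hinj : Set.InjOn (fun x => eval x t) S) :
    #S * ∏ i, w i ≤ ∏ j, d j := by
  classical
  set B := Algebra.adjoin k (Set.range f) with hB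
  have : Algebra.IsIntegral B (MvPolynomial σ k) := ⟨hint⟩
  have hind : AlgebraicIndependent k f :=
    (Algebra.IsAlgebraic.isTranscendenceBasis_of_le_trdeg_of_finite k f (by
      rw [MvPolynomial.trdeg_of_isDomain, Cardinal.lift_id]
      exact (Cardinal.mk_congr e).ge)).1
  have : IsIntegrallyClosed B := IsIntegrallyClosed.of_equiv hind.aevalEquiv.toRingEquiv
  set μ := minpoly B t with hμ
  have hμm : μ.Monic := minpoly.monic (hint t)
  have hcard : #S ≤ μ.natDegree := by
    rcases S.eq_empty_or_nonempty with rfl | ⟨x0, hx0⟩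
    · simp
    let ε : (σ → k) → B →+* k := fun x => (eval x).comp (algebraMap B (MvPolynomial σ k))
    have hε : ∀ x ∈ S, ε x = ε x0 := by
      intro x hx
      have : B ≤ AlgHom.equalizer (aeval x) (aeval x0) := by
        rw [hB, Algebra.adjoin_le_iff]
        rintro _ ⟨j, rfl⟩
        exact (hS x hx j).trans (hS x0 hx0 j).symm
      ext b
      exact this b.2
    have hroot : ∀ x ∈ S, eval x t ∈ (μ.map (ε x0)).roots.toFinset := by
      intro x hx
      rw [Multiset.mem_toFinset, Polynomial.mem_roots (hμm.map _).ne_zero, ← hε x hx,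
        Polynomial.IsRoot, Polynomial.eval_map, ← Polynomial.hom_eval₂]
      have : Polynomial.eval₂ (algebraMap B (MvPolynomial σ k)) t μ = 0 := minpoly.aeval B t
      rw [this, map_zero]
    calc #S ≤ #((μ.map (ε x0)).roots.toFinset) := card_le_card_of_injOn _ hroot hinj
      _ ≤ _ := Multiset.toFinset_card_le _
      _ ≤ (μ.map (ε x0)).natDegree := Polynomial.card_roots' _
      _ ≤ _ := Polynomial.natDegree_map_le
  refine le_trans (Nat.mul_le_mul_right _ hcard) ?_
  have hli : LinearIndependent B fun i : Fin μ.natDegree => t ^ (i : ℕ) := by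
    rw [Fintype.linearIndependent_iff]
    intro g hg i
    let p : Polynomial B := ∑ j : Fin μ.natDegree, Polynomial.C (g j) * Polynomial.X ^ (j : ℕ)
    have hp : Polynomial.aeval t p = 0 := by
      simpa [p, Algebra.smul_def] using hg
    have hdeg : p.degree < μ.natDegree := Polynomial.degree_sum_fin_lt _
    have hp0 : p = 0 := by
      refine Polynomial.eq_zero_of_dvd_of_degree_lt (minpoly.isIntegrallyClosed_dvd (hint t) hp) ?_
      rwa [← hμ, Polynomial.degree_eq_natDegree hμm.ne_zero]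
    have := congrArg (fun q => q.coeff i) hp0
    simp only [p, Polynomial.finsetSum_coeff, Polynomial.coeff_C_mul_X_pow, Fin.val_inj,
      sum_ite_eq, mem_univ, if_true, Polynomial.coeff_zero] at this
    exact this
  have hmon : LinearIndependent k fun α : τ →₀ ℕ => hind.aevalEquiv (monomial α 1) :=
    (basisMonomials τ k).linearIndependent.map' hind.aevalEquiv.toLinearMap
      hind.aevalEquiv.toLinearEquiv.ker
  have hall := linearIndependent_smul hmon hli
  obtain ⟨c0, hc0⟩ := WD.exists (w := w) t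
  have hcount : ∀ n, #(Bx d n) * μ.natDegree ≤ #(Bx w (n + c0 * μ.natDegree)) := by
    intro n
    let ι : (Bx d n × Fin μ.natDegree) → (τ →₀ ℕ) × Fin μ.natDegree := fun p =>
      (Finsupp.equivFunOnFinite.symm p.1.1, p.2)
    have hι : Function.Injective ι := by
      intro p q h
      obtain ⟨h1, h2⟩ := Prod.ext_iff.mp h
      exact Prod.ext (Subtype.ext (Finsupp.equivFunOnFinite.symm.injective h1)) h2
    let G : Finset (MvPolynomial σ k) := (Bx w (n + c0 * μ.natDegree)).image fun α =>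
      monomial (Finsupp.equivFunOnFinite.symm α) 1
    have h1 := linearIndependent_le_span' _ (hall.comp ι hι) (G : Set _) (by
      rintro _ ⟨⟨⟨α, hα⟩, i⟩, rfl⟩
      have h2 : WD w (n + c0 * μ.natDegree) ((∏ j, f j ^ α j) * t ^ (i : ℕ)) := by
        refine ((WD.prod univ fun j => (hf j).pow (α j)).mul (hc0.pow i)).mono ?_
        exact add_le_add ((mem_Bx hd).mp hα) (Nat.mul_le_mul_left _ i.2.le)
      have h3 : (Function.comp (fun p : (τ →₀ ℕ) × Fin μ.natDegree =>
          hind.aevalEquiv (monomial p.1 1) • t ^ (p.2 : ℕ)) ι) (⟨α, hα⟩, i) =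
          (∏ j, f j ^ α j) * t ^ (i : ℕ) := by
        simp only [Function.comp, ι, Algebra.smul_def, hind.algebraMap_aevalEquiv,
          aeval_monomial, map_one, one_mul]
        rw [Finsupp.prod_fintype _ _ (by simp)]
        simp
      rw [h3, SetLike.mem_coe, as_sum ((∏ j, f j ^ α j) * t ^ (i : ℕ))]
      refine Submodule.sum_mem _ fun m hm => ?_
      rw [← mul_one (coeff m _), ← smul_eq_mul, ← smul_monomial]
      refine Submodule.smul_mem _ _ (Submodule.subset_span ?_)
      rw [mem_coe, mem_image]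
      exact ⟨m, (mem_Bx hw).mpr (h2 m hm), by simp⟩)
    rw [Cardinal.mk_fintype, Nat.cast_le] at h1
    simp only [Fintype.card_prod, Fintype.card_coe, Fintype.card_fin, coe_sort_coe] at h1
    exact h1.trans card_image_le
  refine growth (fun n => #(Bx (fun _ : σ => 1) n)) _ _ (c0 * μ.natDegree + ∑ i, w i)
    (Fintype.card σ) ?_ (fun n => ?_) fun n => ?_
  · exact card_pos.mpr ⟨0, (mem_Bx (fun _ => Nat.one_pos)).mpr (by simp)⟩
  · exact (card_filter_le _ _).trans (by simp)
  · have h1 := (Bx_equiv e n).trans (Bx_low hd n)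
    have h2 := Bx_up hw (n + c0 * μ.natDegree)
    rw [add_assoc] at h2
    calc μ.natDegree * (∏ i, w i) * #(Bx (fun _ : σ => 1) n)
        ≤ μ.natDegree * (∏ i, w i) * (#(Bx d n) * ∏ j, d j) := Nat.mul_le_mul_left _ h1
      _ = (∏ j, d j) * ((#(Bx d n) * μ.natDegree) * ∏ i, w i) := by ring
      _ ≤ (∏ j, d j) * (#(Bx w (n + c0 * μ.natDegree)) * ∏ i, w i) := by gcongr; exact hcount n
      _ ≤ _ := Nat.mul_le_mul_left _ h2

end Pool.Agent.MP_c0c29f_mp.H97
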