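import Mathlib
import Pool.Agent.MP_c0c29f_mp.H97.Basic

/-!
Valuation arguments: roots cannot escape to infinity.
-/

namespace Pool.Agent.MP_c0c29f_mp.H97

open Polynomial Finset

set_option linter.unusedSectionVars false

theorem taylor_two {R : Type} [CommRing R] (p : R[X]) (h : R) : ∃ S : R[X],
    2 * taylor h p = 2 * p + 2 * C h * derivative p + C h ^ 2 * derivative (derivative p) +
      C h ^ 3 * S := by
  induction p using Polynomial.induction_on with
  | C a => exact ⟨0, by simp⟩
  | add p q hp hq =>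
    obtain ⟨S, hS⟩ := hp
    obtain ⟨S', hS'⟩ := hq
    exact ⟨S + S', by simp only [map_add]; linear_combination hS + hS'⟩
  | monomial n a ih =>
    obtain ⟨S, hS⟩ := ih
    rw [pow_succ, ← mul_assoc]
    generalize C a * X ^ n = p at hS
    refine ⟨S * (X + C h) + derivative (derivative p), ?_⟩
    simp only [taylor_mul, taylor_X, derivative_mul, derivative_X, map_add, mul_one]
    linear_combination (X + C h) * hS

theorem taylor_one' {R : Type} [CommRing R] (p : R[X]) (h : R) : ∃ S : R[X],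
    taylor h p = p + C h * derivative p + C h ^ 2 * S := by
  induction p using Polynomial.induction_on with
  | C a => exact ⟨0, by simp⟩
  | add p q hp hq =>
    obtain ⟨S, hS⟩ := hp
    obtain ⟨S', hS'⟩ := hq
    exact ⟨S + S', by simp only [map_add]; linear_combination hS + hS'⟩
  | monomial n a ih =>
    obtain ⟨S, hS⟩ := ih
    rw [pow_succ, ← mul_assoc]
    generalize C a * X ^ n = p at hS
    refine ⟨S * (X + C h) + derivative p, ?_⟩
    simp only [taylor_mul, taylor_X, derivative_mul, derivative_X, mul_one]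
    linear_combination (X + C h) * hS

theorem theta_coeff {R : Type} [CommRing R] (p : R[X]) (k : ℕ) :
    (X * derivative p).coeff k = k * p.coeff k := by
  rcases k with _ | k
  · simp
  · rw [coeff_X_mul, coeff_derivative]
    push_cast
    ring

section Field

variable {K : Type} [Field K] [CharZero K]

theorem split_zero {p : K[X]} (hp : p ≠ 0) : ∃ q : K[X], p = X ^ rootMultiplicity 0 p * q ∧
    q.eval 0 ≠ 0 ∧ rootMultiplicity 0 p ≤ p.natDegree := by
  obtain ⟨q, h1, h2⟩ := exists_eq_pow_rootMultiplicity_mul_and_not_dvd p hp 0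
  rw [dvd_iff_isRoot] at h2
  simp only [map_zero, sub_zero] at h1
  exact ⟨q, h1, h2, by simpa using natDegree_le_of_dvd ⟨q, h1⟩ hp⟩

theorem eq_X_pow {p : K[X]} (hp : p.Monic) (h : X ^ p.natDegree ∣ p) : p = X ^ p.natDegree :=
  eq_of_monic_of_dvd_of_natDegree_le (monic_X_pow _) hp h (by simp)

theorem euler {N : ℕ} {Q : K[X]} (hQ : Q.Monic) (hN : 2 * Q.natDegree ≤ N)
    (h : Q ∣ X ^ N * derivative (derivative Q) - derivative (X ^ N) * derivative Q) :
    Q = X ^ Q.natDegree := by
  let E : K[X] := X * derivative (X * derivative Q) - C ((N : K) + 1) * (X * derivative Q)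
  have hE : ∀ k, E.coeff k = ((k : K) * k - (N + 1) * k) * Q.coeff k := by
    intro k
    simp only [E, coeff_sub, coeff_C_mul, theta_coeff]
    ring
  have h1 : X * derivative ((X : K[X]) ^ N) = C (N : K) * X ^ N := by
    ext k
    rw [theta_coeff, coeff_C_mul, coeff_X_pow]
    split_ifs with h <;> simp [*]
  have h2 : Q ∣ X ^ N * E := by
    have : X ^ N * E = X ^ 2 * (X ^ N * derivative (derivative Q) -
        derivative (X ^ N) * derivative Q) := by
      simp only [E, derivative_mul, derivative_X, map_add, map_one]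
      linear_combination (X * derivative Q) * h1
    rw [this]
    exact h.mul_left _
  obtain ⟨Q1, h3, h4, -⟩ := split_zero hQ.ne_zero
  set m := rootMultiplicity 0 Q
  have hc : ∀ a, IsCoprime (X ^ a) Q1 := fun a =>
    IsCoprime.pow_left ((irreducible_X.coprime_iff_not_dvd).mpr fun h => h4 (by
      rwa [X_dvd_iff, coeff_zero_eq_eval_zero] at h))
  have h5 : Q1 ∣ E := (hc N).symm.dvd_of_dvd_mul_left (Dvd.dvd.trans ⟨X ^ m, by
    rw [mul_comm]; exact h3⟩ h2)
  have h6 : X ^ m ∣ E := by
    rw [X_pow_dvd_iff]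
    intro d hd
    rw [hE, (X_pow_dvd_iff.mp ⟨Q1, h3⟩) d hd, mul_zero]
  have h7 : Q ∣ E := by
    rw [h3]
    exact (hc m).mul_dvd h6 h5
  have h8 : E.natDegree ≤ Q.natDegree := by
    rw [natDegree_le_iff_coeff_eq_zero]
    intro d hd
    rw [hE, coeff_eq_zero_of_natDegree_lt hd, mul_zero]
  obtain ⟨c, hc⟩ : ∃ c, E = C c * Q :=
    ⟨_, eq_leadingCoeff_mul_of_monic_of_dvd_of_natDegree_le hQ h7 h8⟩
  have h9 : ∀ k : ℕ, ((k : K) * k - (N + 1) * k) * Q.coeff k = c * Q.coeff k := by
    intro k
    rw [← hE, hc, coeff_C_mul]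
  have h10 := h9 Q.natDegree
  rw [coeff_natDegree, hQ.leadingCoeff, mul_one, mul_one] at h10
  refine eq_X_pow hQ (X_pow_dvd_iff.mpr fun d hd => ?_)
  have h11 : ((Q.natDegree : K) - d) * ((N + 1 : ℕ) - (d + Q.natDegree : ℕ)) * Q.coeff d = 0 := by
    push_cast
    linear_combination (h9 d) - Q.coeff d * h10
  rcases mul_eq_zero.mp h11 with h12 | h12
  · rcases mul_eq_zero.mp h12 with h13 | h13
    · have : Q.natDegree = d := by exact_mod_cast sub_eq_zero.mp h13
      omega
    · have : N + 1 = d + Q.natDegree := by exact_mod_cast sub_eq_zero.mp h13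
      omega
  · exact h12

theorem ord_aux {N : ℕ} {P Q : K[X]} {c : K} (hP : P ≠ 0) (hQ : Q ≠ 0)
    (hne : rootMultiplicity 0 P ≠ rootMultiplicity 0 Q)
    (h : derivative P * Q - P * derivative Q = C c * X ^ N) :
    N + 1 ≤ rootMultiplicity 0 P + rootMultiplicity 0 Q := by
  obtain ⟨P1, h1, h2, -⟩ := split_zero hP
  obtain ⟨Q1, h3, h4, -⟩ := split_zero hQ
  generalize rootMultiplicity 0 P = j at *
  generalize rootMultiplicity 0 Q = i at *
  have h5 : ∀ n : ℕ, X * derivative ((X : K[X]) ^ n) = C (n : K) * X ^ n := by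
    intro n
    ext k
    rw [theta_coeff, coeff_C_mul, coeff_X_pow]
    split_ifs with h <;> simp [*]
  by_contra hlt
  obtain ⟨k, hk⟩ : ∃ k, N = j + i + k := ⟨N - (j + i), by omega⟩
  have h6 : X ^ (j + i) * ((C (j : K) - C (i : K)) * P1 * Q1 +
      X * (derivative P1 * Q1 - P1 * derivative Q1)) = X ^ (j + i) * (C c * X ^ (k + 1)) := by
    rw [h1, h3, hk] at h
    simp only [derivative_mul] at h
    linear_combination X * h - (P1 * X ^ i * Q1) * h5 j + (X ^ j * P1 * Q1) * h5 i
  have h7 := congrArg (eval 0) (mul_left_cancel₀ (pow_ne_zero _ X_ne_zero) h6)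
  simp only [eval_add, eval_mul, eval_sub, eval_C, eval_X, zero_mul, add_zero, eval_pow,
    zero_pow (Nat.succ_ne_zero k), mul_zero, mul_eq_zero, h2, h4, or_false] at h7
  exact hne (by exact_mod_cast sub_eq_zero.mp h7)

theorem ord_wr {N : ℕ} {P Q : K[X]} {c : K} (hP : P.Monic) (hQ : Q.Monic)
    (hlt : Q.natDegree < P.natDegree) (hN : N + 1 = P.natDegree + Q.natDegree)
    (h0 : P.coeff Q.natDegree = 0)
    (h : derivative P * Q - P * derivative Q = C c * X ^ N) :
    P = X ^ P.natDegree ∧ Q = X ^ Q.natDegree := by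
  have hm : ∀ l : K, (P - C l * Q).Monic ∧ (P - C l * Q).natDegree = P.natDegree := by
    intro l
    have : (C l * Q).natDegree < P.natDegree := (natDegree_C_mul_le _ _).trans_lt hlt
    exact ⟨hP.sub_of_left (degree_lt_degree this), natDegree_sub_eq_left_of_natDegree_lt this⟩
  obtain ⟨Q1, h3, h4, h5⟩ := split_zero hQ.ne_zero
  obtain ⟨l, hl⟩ : ∃ l : K, rootMultiplicity 0 (P - C l * Q) ≠ rootMultiplicity 0 Q := by
    by_contra hcon
    push Not at hcon
    set i := rootMultiplicity 0 Q
    have h6 : Q.coeff i ≠ 0 := by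
      rw [h3, coeff_X_pow_mul', if_pos le_rfl, Nat.sub_self, coeff_zero_eq_eval_zero]
      exact h4
    obtain ⟨P1, h1, h2, -⟩ := split_zero (hm (P.coeff i / Q.coeff i)).1.ne_zero
    rw [hcon] at h1
    have h7 := congrArg (coeff · i) h1
    simp only [coeff_sub, coeff_C_mul, div_mul_cancel₀ _ h6, sub_self, coeff_X_pow_mul', le_refl,
      if_true, Nat.sub_self, coeff_zero_eq_eval_zero] at h7
    exact h2 h7.symm
  have h6 := ord_aux (N := N) (c := c) (hm l).1.ne_zero hQ.ne_zero hl (by
    simp only [derivative_sub, derivative_mul, derivative_C]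
    linear_combination h)
  obtain ⟨P1, h1, -, h2⟩ := split_zero (hm l).1.ne_zero
  rw [(hm l).2] at h2
  have hQ' : Q = X ^ Q.natDegree := eq_X_pow hQ ⟨Q1, by
    rwa [show rootMultiplicity 0 Q = Q.natDegree by omega] at h3⟩
  have hP' : P - C l * Q = X ^ P.natDegree := by
    have := eq_X_pow (hm l).1 ⟨P1, by
      rwa [show rootMultiplicity 0 (P - C l * Q) = P.natDegree by omega, ← (hm l).2] at h1⟩
    rwa [(hm l).2] at this
  have h7 := congrArg (coeff · Q.natDegree) hP'
  simp only [coeff_sub, coeff_C_mul, h0, coeff_natDegree, hQ.leadingCoeff, coeff_X_pow, hlt.ne,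
    if_false, mul_one, zero_sub, neg_eq_zero] at h7
  exact ⟨by simpa [h7] using hP', hQ'⟩

end Field

section Val

variable {L : Type} [Field L] [CharZero L] [IsAlgClosed L] (V : ValuationSubring L)

theorem charZero_res (hV : ∀ n : ℕ, (n : L)⁻¹ ∈ V) : CharZero (IsLocalRing.ResidueField V) := by
  refine charZero_of_inj_zero fun n hn => ?_
  by_contra h0
  rw [← map_natCast (IsLocalRing.residue V)] at hn
  refine (IsLocalRing.residue_ne_zero_iff_isUnit _).mpr ?_ hn
  refine IsUnit.of_mul_eq_one ⟨_, hV n⟩ (Subtype.ext ?_)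
  simp [h0]

theorem exists_scale {F : L[X]} (hF : F ≠ 0) {r0 : L} (h0 : F.eval r0 = 0) (h1 : r0 ∉ V) :
    ∃ (h : V) (t : L), IsLocalRing.residue V h = 0 ∧ (h : L) * t = 1 ∧ F.eval t = 0 ∧
      ∀ r, F.eval r = 0 → (h : L) * r ∈ V := by
  classical
  have hmem : ∀ r, r ∈ F.roots.toFinset ↔ F.eval r = 0 := by simp [hF]
  obtain ⟨t, ht, hmax⟩ := exists_max_image F.roots.toFinset V.valuation ⟨r0, (hmem _).mpr h0⟩
  have h2 : 1 < V.valuation t :=
    lt_of_lt_of_le (not_le.mp fun h => h1 ((V.valuation_le_one_iff _).mp h))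
      (hmax r0 ((hmem _).mpr h0))
  have h3 : t ≠ 0 := by
    rintro rfl
    simp at h2
  have h4 : V.valuation t⁻¹ < 1 := by
    rw [map_inv₀]
    exact inv_lt_one_of_one_lt₀ h2
  refine ⟨⟨t⁻¹, (V.valuation_le_one_iff _).mp h4.le⟩, t, ?_, inv_mul_cancel₀ h3,
    (hmem _).mp ht, fun r hr => ?_⟩
  · rw [IsLocalRing.residue_eq_zero_iff, V.valuation_lt_one_iff]
    exact h4
  · rw [← V.valuation_le_one_iff, map_mul, map_inv₀, inv_mul_le_one₀ (zero_lt_one.trans h2)]
    exact hmax r ((hmem _).mpr hr)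

theorem exists_lift {p : L[X]} (hp : p.Monic) {h t : L} (ht : h * t = 1)
    (hr : ∀ r, p.eval r = 0 → h * r ∈ V) :
    ∃ q : V[X], q.Monic ∧ q.natDegree = p.natDegree ∧ q.map V.subtype = p.scaleRoots h := by
  have hm := (monic_scaleRoots_iff h).mpr hp
  obtain ⟨q, h1, h2, h3⟩ := lifts_and_natDegree_eq_and_monic
    ((IsAlgClosed.splits _).mem_lift_of_roots_mem_range hm V.subtype fun a ha => by
      rw [roots_scaleRoots _ (IsUnit.of_mul_eq_one _ ht)] at ha
      obtain ⟨r, hr1, rfl⟩ := Multiset.mem_map.mp ha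
      exact ⟨⟨_, hr r (isRoot_of_mem_roots hr1)⟩, rfl⟩) hm
  exact ⟨q, h3, h2.trans (natDegree_scaleRoots _ _), h1⟩

theorem funext_scale {p q : L[X]} {h t : L} (ht : h * t = 1)
    (H : ∀ r, p.eval (h * r) = q.eval (h * r)) : p = q := by
  refine Polynomial.funext fun s => ?_
  have := H (t * s)
  rwa [← mul_assoc, ht, one_mul] at this

theorem TQ_val (hV : ∀ n : ℕ, (n : L)⁻¹ ∈ V) {N : ℕ} {T Q : L[X]} (hQ : Q.Monic)
    (hN : 2 * Q.natDegree ≤ N) (hT : TQ N T Q) {r0 : L} (h0 : Q.eval r0 = 0) : r0 ∈ V := by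
  by_contra h1
  have := charZero_res V hV
  obtain ⟨h, t, hres, ht, htr, hr⟩ := exists_scale V hQ.ne_zero h0 h1
  obtain ⟨q, qm, qd, qe⟩ := exists_lift V hQ ht hr
  have hinj : Function.Injective V.subtype := Subtype.val_injective
  have hev : ∀ r : L, (q.map V.subtype).eval (h * r) = h ^ Q.natDegree * Q.eval r := fun r => by
    rw [qe, scaleRoots_eval_mul]
  have d1 : q ∣ X ^ N * taylor (-h) q + taylor (-h) (X ^ N) * taylor h q := by
    rw [← map_dvd_map V.subtype hinj qm]
    refine ⟨C ((h : L) ^ N) * T.comp (C t * X), funext_scale ht fun r => ?_⟩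
    have e1 : (h : L) * r + -h = h * (r - 1) := by ring
    have e2 : (h : L) * r + h = h * (r + 1) := by ring
    have e3 : t * (h * r) = r := by rw [← mul_assoc, mul_comm t, ht, one_mul]
    simp only [Polynomial.map_add, Polynomial.map_mul, Polynomial.map_pow, map_X, map_taylor,
      eval_add, eval_mul, eval_pow, eval_X, taylor_eval, map_neg, ValuationSubring.subtype_apply,
      e1, e2, hev, eval_C, eval_comp, e3, mul_pow]
    linear_combination (-(h : L) ^ N * h ^ Q.natDegree) * hT.eval r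
  obtain ⟨S0, e0⟩ := taylor_two (X ^ N : V[X]) (-h)
  obtain ⟨S1, e1⟩ := taylor_two q (-h)
  obtain ⟨S2, e2⟩ := taylor_two q h
  set D1 := derivative (X ^ N : V[X])
  set D2 := derivative D1
  set q1 := derivative q
  set q2 := derivative q1
  rw [map_neg] at e0 e1
  let Z : V[X] := 4 * (X ^ N * q2 - D1 * q1) + C h * (-(2 * X ^ N * S1) + 2 * X ^ N * S2 -
    2 * D1 * (q2 + C h * S2) + D2 * (2 * q1 + C h * q2 + C h ^ 2 * S2) -
      S0 * (2 * taylor h q))
  have d2 : q ∣ C h ^ 2 * Z := by
    have : C h ^ 2 * Z = 4 * (X ^ N * taylor (-h) q + taylor (-h) (X ^ N) * taylor h q) -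
        q * (8 * X ^ N - 4 * C h * D1 + 2 * C h ^ 2 * D2) := by
      simp only [Z]
      linear_combination (-2 * X ^ N) * e1 - (2 * taylor h q) * e0 -
        (2 * X ^ N - 2 * C h * D1 + C h ^ 2 * D2) * e2
    rw [this]
    exact dvd_sub (d1.mul_left _) (dvd_mul_right _ _)
  have d3 : q ∣ Z := by
    rw [← map_dvd_map V.subtype hinj qm] at d2 ⊢
    rw [Polynomial.map_mul, Polynomial.map_pow, map_C] at d2
    exact (IsUnit.dvd_mul_left ((isUnit_C.mpr (IsUnit.of_mul_eq_one t ht)).pow 2)).mp d2
  have d4 := map_dvd (IsLocalRing.residue V) d3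
  simp only [Z, Polynomial.map_add, Polynomial.map_mul, map_C, hres, map_zero, zero_mul,
    add_zero, Polynomial.map_sub, Polynomial.map_pow, map_X, Polynomial.map_ofNat, q2, q1, D1,
    ← derivative_map] at d4
  have qm' := qm.map (IsLocalRing.residue V)
  have h4 : IsUnit (4 : (IsLocalRing.ResidueField V)[X]) := by
    have := isUnit_C.mpr (IsUnit.mk0 (4 : IsLocalRing.ResidueField V) (by norm_num))
    rwa [map_ofNat] at this
  have h5 := euler qm' (by rw [qm.natDegree_map, qd]; exact hN) (h4.dvd_mul_left.mp d4)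
  have h6 : q.eval 1 = 0 := by
    apply hinj
    have := hev t
    rw [ht, htr, mul_zero, eval_one_map] at this
    rw [this, map_zero]
  have h7 := congrArg (eval 1) h5
  rw [eval_one_map, h6] at h7
  simp at h7

theorem wr_val (hV : ∀ n : ℕ, (n : L)⁻¹ ∈ V) {N : ℕ} {P Q : L[X]} (hP : P.Monic) (hQ : Q.Monic)
    (hlt : Q.natDegree < P.natDegree) (hN : N + 1 = P.natDegree + Q.natDegree)
    (hc : P.coeff Q.natDegree ∈ V) (hW : ∀ j, (Wr P Q).coeff j ∈ V)
    {r0 : L} (h0 : (P * Q).eval r0 = 0) : r0 ∈ V := by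
  by_contra h1
  have := charZero_res V hV
  obtain ⟨h, t, hres, ht, htr, hr⟩ := exists_scale V (hP.mul hQ).ne_zero h0 h1
  obtain ⟨p, pm, pd, pe⟩ := exists_lift V hP ht fun r hr' => hr r (by simp [hr'])
  obtain ⟨q, qm, qd, qe⟩ := exists_lift V hQ ht fun r hr' => hr r (by simp [hr'])
  have hinj : Function.Injective V.subtype := Subtype.val_injective
  have hevq : ∀ r : L, (q.map V.subtype).eval (h * r) = h ^ Q.natDegree * Q.eval r := fun r => by
    rw [qe, scaleRoots_eval_mul]
  have hevp : ∀ r : L, (p.map V.subtype).eval (h * r) = h ^ P.natDegree * P.eval r := fun r => by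
    rw [pe, scaleRoots_eval_mul]
  have hWd : (Wr P Q).natDegree ≤ N := by
    have h2 := (wr_top (le_refl P.natDegree) (le_refl Q.natDegree)).1
    rw [natDegree_le_iff_coeff_eq_zero] at h2 ⊢
    intro j hj
    rw [← coeff_X_mul]
    exact h2 _ (by omega)
  let W : V[X] := ∑ j ∈ range (N + 1), C (⟨_, hW j⟩ * h ^ (N - j)) * X ^ j
  have e0 : taylor h p * q - p * taylor h q = C h * W := by
    apply map_injective V.subtype hinj
    refine funext_scale ht fun r => ?_
    have e2 : (h : L) * r + h = h * (r + 1) := by ring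
    have e3 : (Wr P Q).eval r = P.eval (r + 1) * Q.eval r - P.eval r * Q.eval (r + 1) := by
      simp [Wr, taylor_eval]
    have e4 : (W.map V.subtype).eval (h * r) = h ^ N * (Wr P Q).eval r := by
      rw [eval_eq_sum_range' (Nat.lt_succ_of_le hWd), mul_sum]
      simp only [W, Polynomial.map_sum, eval_finsetSum]
      refine sum_congr rfl fun j hj => ?_
      obtain ⟨k, rfl⟩ := Nat.exists_eq_add_of_le (Nat.lt_succ_iff.mp (mem_range.mp hj))
      simp
      ring
    simp only [Polynomial.map_sub, Polynomial.map_mul, map_taylor, eval_sub, eval_mul,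
      taylor_eval, ValuationSubring.subtype_apply, e2, hevp, hevq, map_C, eval_C, e4, e3]
    have e5 : (h : L) * h ^ N = h ^ P.natDegree * h ^ Q.natDegree := by
      rw [← pow_add, ← hN, pow_succ']
    linear_combination (Q.eval (r + 1) * P.eval r - P.eval (r + 1) * Q.eval r) * e5
  obtain ⟨S1, e1⟩ := taylor_one' p h
  obtain ⟨S2, e2⟩ := taylor_one' q h
  have h0' : h ≠ 0 := by
    rintro rfl
    simp at ht
  have e3 : derivative p * q - p * derivative q + C h * (S1 * q - p * S2) = W := by
    apply mul_left_cancel₀ (C_ne_zero.mpr h0')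
    linear_combination e0 - q * e1 + p * e2
  have e4 := congrArg (Polynomial.map (IsLocalRing.residue V)) e3
  have e5 : W.map (IsLocalRing.residue V) = C (IsLocalRing.residue V ⟨_, hW N⟩) * X ^ N := by
    simp only [W, Polynomial.map_sum]
    rw [sum_eq_single N]
    · simp
    · intro j hj hne
      have : N - j ≠ 0 := by
        have := mem_range.mp hj
        omega
      simp [hres, this]
    · simp
  simp only [Polynomial.map_add, Polynomial.map_mul, map_C, hres, map_zero, zero_mul, add_zero,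
    Polynomial.map_sub, ← derivative_map, e5] at e4
  have h5 := ord_wr (N := N) (pm.map (IsLocalRing.residue V)) (qm.map (IsLocalRing.residue V))
    (by rwa [qm.natDegree_map, pm.natDegree_map, qd, pd])
    (by rwa [qm.natDegree_map, pm.natDegree_map, qd, pd]) (by
      rw [qm.natDegree_map, qd, coeff_map]
      have : p.coeff Q.natDegree = ⟨_, hc⟩ * h ^ (P.natDegree - Q.natDegree) := by
        apply hinj
        rw [← coeff_map, pe, coeff_scaleRoots]
        simp
      rw [this, map_mul, map_pow, hres, zero_pow (by omega), mul_zero]) e4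
  have h6 : p.eval 1 * q.eval 1 = 0 := by
    apply hinj
    have h7 := hevp t
    have h8 := hevq t
    rw [ht, eval_one_map] at h7 h8
    rw [eval_mul] at htr
    rw [map_mul, h7, h8, map_zero]
    linear_combination ((h : L) ^ P.natDegree * h ^ Q.natDegree) * htr
  have h7 := congrArg (eval 1) h5.1
  have h8 := congrArg (eval 1) h5.2
  rw [eval_one_map] at h7 h8
  have h9 := congrArg (IsLocalRing.residue V) h6
  rw [map_mul, h7, h8] at h9
  simp at h9

theorem integral_of_val (S : Subring L) {r : L}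
    (h : ∀ V : ValuationSubring L, S ≤ V.toSubring → r ∈ V) : IsIntegral S r := by
  have h1 := iInf_valuationSubring_superset (s := (S : Set L))
  rw [Subring.closure_eq] at h1
  have : r ∈ (integralClosure S L).toSubring := by
    rw [← h1, Subring.mem_iInf]
    exact fun V => h V.1 V.2
  exact this

end Val

end Pool.Agent.MP_c0c29f_mp.H97
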