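import Mathlib
import Pool.Agent.MP_c0c29f_mp.H97.Val
import Pool.Agent.MP_c0c29f_mp.H97.Bezout

/-!
The upper bound for the number of physical solutions.
-/

namespace Pool.Agent.MP_c0c29f_mp.H97

open Polynomial Finset

set_option linter.unusedSectionVars false

theorem Phys.norm {K : Type} [Field K] [CharZero K] {N M : ℕ} {Q : K[X]} (h : Phys N M Q) :
    ∃ P : K[X], P.Monic ∧ P.natDegree + M = N + 1 ∧ P.coeff M = 0 ∧
      Wr P Q = C ((P.natDegree : K) - M) * X ^ N := by
  obtain ⟨hm, hd, P0, hP0⟩ := h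
  have hM : Q.coeff M = 1 := by rw [← hd, coeff_natDegree, hm.leadingCoeff]
  set P1 := P0 - C (P0.coeff M) * Q
  have h1 : Wr P1 Q = X ^ N := by rw [wr_sub_smul, hP0]
  have h2 : P1.coeff M = 0 := by simp [P1, hM]
  have h3 : P1 ≠ 0 := by
    intro h
    rw [h, Wr] at h1
    simp only [map_zero, zero_mul, sub_self] at h1
    exact pow_ne_zero N X_ne_zero h1.symm
  have h4 : P1.natDegree ≠ M := fun h => leadingCoeff_ne_zero.mpr h3 (by rw [leadingCoeff, h, h2])
  obtain ⟨-, h5⟩ := wr_top (le_refl P1.natDegree) hd.le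
  rw [h1, ← pow_succ', coeff_X_pow, hM, mul_one, coeff_natDegree] at h5
  have h6 : (P1.natDegree : K) - M ≠ 0 := sub_ne_zero.mpr (by exact_mod_cast h4)
  have h7 : P1.natDegree + M = N + 1 := by
    by_contra h
    rw [if_neg h] at h5
    exact mul_ne_zero h6 (leadingCoeff_ne_zero.mpr h3) h5.symm
  rw [if_pos h7] at h5
  have h8 : (C ((P1.natDegree : K) - M) * P1).natDegree = P1.natDegree := natDegree_C_mul h6
  refine ⟨C ((P1.natDegree : K) - M) * P1, ?_, by rw [h8, h7], by rw [coeff_C_mul, h2, mul_zero], ?_⟩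
  · rw [Monic, leadingCoeff_mul, leadingCoeff_C, h5]
  · rw [h8, ← h1]
    simp only [Wr, taylor_mul, taylor_C]
    ring

theorem wr_map {R S : Type} [CommRing R] [CommRing S] (f : R →+* S) (P Q : R[X]) :
    (Wr P Q).map f = Wr (P.map f) (Q.map f) := by
  simp [Wr, map_taylor]

section PD

variable {σ k : Type} [Fintype σ] [DecidableEq σ] [Field k] {w : σ → ℕ}

/-- weighted degree bound for polynomials with polynomial coefficients -/
def PD (w : σ → ℕ) (n : ℕ) (p : (MvPolynomial σ k)[X]) : Prop :=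
  ∀ j, ∀ m ∈ (p.coeff j).support, ∑ i, w i * m i + j ≤ n

theorem PD.sub {n : ℕ} {p q : (MvPolynomial σ k)[X]} (hp : PD w n p) (hq : PD w n q) :
    PD w n (p - q) := by
  intro j m hm
  rw [coeff_sub] at hm
  rcases mem_union.mp (MvPolynomial.support_sub _ _ _ hm) with h | h
  exacts [hp j m h, hq j m h]

theorem PD.mul {n l : ℕ} {p q : (MvPolynomial σ k)[X]} (hp : PD w n p) (hq : PD w l q) :
    PD w (n + l) (p * q) := by
  intro j m hm
  rw [coeff_mul] at hm
  obtain ⟨x, hx, h⟩ := mem_biUnion.mp (MvPolynomial.support_sum hm)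
  obtain ⟨b, hb, c, hc, rfl⟩ := mem_add.mp (MvPolynomial.support_mul _ _ h)
  have h1 := hp _ b hb
  have h2 := hq _ c hc
  have h3 := mem_antidiagonal.mp hx
  simp only [Finsupp.add_apply, mul_add, sum_add_distrib]
  omega

theorem PD.delta {n : ℕ} {p : (MvPolynomial σ k)[X]} (hp : PD w n p) :
    PD w n (X * (taylor 1 p - p)) := by
  intro j m hm
  rcases j with _ | j
  · simp at hm
  rw [coeff_X_mul, delta_coeff] at hm
  obtain ⟨i, hi, h⟩ := mem_biUnion.mp (MvPolynomial.support_sum hm)
  rw [← nsmul_eq_mul] at h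
  have h1 := hp i m (MvPolynomial.support_smul h)
  have h2 := (mem_filter.mp hi).2
  omega

/-- generic monic polynomial -/
noncomputable def gen (k : Type) [Field k] {n : ℕ} (ι : Fin n → σ) : (MvPolynomial σ k)[X] :=
  X ^ n + ∑ i : Fin n, C (MvPolynomial.X (ι i)) * X ^ (i : ℕ)

theorem gen_monic {n : ℕ} (ι : Fin n → σ) : (gen k ι).Monic :=
  monic_X_pow_add (degree_sum_fin_lt _)

theorem gen_deg {n : ℕ} (ι : Fin n → σ) : (gen k ι).natDegree = n := by
  rw [gen, natDegree_add_eq_left_of_degree_lt, natDegree_X_pow]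
  rw [degree_X_pow]
  exact degree_sum_fin_lt _

theorem gen_coeff {n : ℕ} (ι : Fin n → σ) (i : Fin n) :
    (gen k ι).coeff i = MvPolynomial.X (ι i) := by
  simp [gen, coeff_X_pow, i.2.ne, Fin.val_inj]

theorem gen_PD {n : ℕ} (ι : Fin n → σ) (hw : ∀ i, w (ι i) + i ≤ n) : PD w n (gen k ι) := by
  intro j m hm
  rcases lt_trichotomy j n with h | h | h
  · rw [show j = (⟨j, h⟩ : Fin n) from rfl, gen_coeff, MvPolynomial.support_X, mem_singleton] at hm
    have := hw ⟨j, h⟩
    rw [hm, sum_eq_single (ι ⟨j, h⟩)]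
    · simpa using this
    · intro b _ hb
      simp [Finsupp.single_apply, hb.symm]
    · simp
  · have h1 : (gen k ι).coeff j = 1 := by
      rw [h, ← (gen_monic ι).leadingCoeff, leadingCoeff, gen_deg]
    rw [h1] at hm
    have := WD.C (w := w) (1 : k) m hm
    omega
  · rw [coeff_eq_zero_of_natDegree_lt (by rwa [gen_deg])] at hm
    simp at hm

theorem gen_map {n : ℕ} (ι : Fin n → σ) (x : σ → k) {p : k[X]} (hp : p.Monic)
    (hd : p.natDegree = n) (hx : ∀ i, x (ι i) = p.coeff i) :
    (gen k ι).map (MvPolynomial.eval x) = p := by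
  ext j
  rcases lt_trichotomy j n with h | h | h
  · rw [show j = (⟨j, h⟩ : Fin n) from rfl, coeff_map, gen_coeff, MvPolynomial.eval_X, hx]
  · have h1 : (gen k ι).coeff j = 1 := by
      rw [h, ← (gen_monic ι).leadingCoeff, leadingCoeff, gen_deg]
    rw [coeff_map, h1, h, ← hd, coeff_natDegree, hp.leadingCoeff, map_one]
  · rw [coeff_map, coeff_eq_zero_of_natDegree_lt (by rwa [gen_deg]),
      coeff_eq_zero_of_natDegree_lt (by rwa [hd]), map_zero]

end PD

theorem integral_of_val' {B L : Type} [CommRing B] [Field L] [CharZero L] [IsAlgClosed L]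
    [Algebra B L] {r : L}
    (h : ∀ V : ValuationSubring L, (∀ b, algebraMap B L b ∈ V) → r ∈ V) : IsIntegral B r := by
  let S := (algebraMap B L).range
  letI : Algebra B S := (algebraMap B L).rangeRestrict.toAlgebra
  haveI : IsScalarTower B S L := IsScalarTower.of_algebraMap_eq fun _ => rfl
  haveI : Algebra.IsIntegral B S :=
    Algebra.isIntegral_of_surjective (algebraMap B L).rangeRestrict_surjective
  exact isIntegral_trans r (integral_of_val S fun V hV => h V fun b => hV ⟨b, rfl⟩)

theorem coeff_mem_val {L : Type} [Field L] [CharZero L] [IsAlgClosed L] (V : ValuationSubring L)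
    {p : L[X]} (hp : p.Monic) (hr : ∀ r, p.eval r = 0 → r ∈ V) (j : ℕ) : p.coeff j ∈ V := by
  obtain ⟨q, -, -, hq⟩ := exists_lift V hp (h := 1) (t := 1) (one_mul _) (by simpa using hr)
  rw [scaleRoots_one] at hq
  rw [← hq, coeff_map]
  exact (q.coeff j).2

theorem upper {N M : ℕ} (hN : 2 * M ≤ N) (S : Finset ℂ[X]) (hS : ∀ Q ∈ S, Phys N M Q) :
    #S * (M.factorial * (N + 1 - M).factorial) ≤ (N + 1 - M - M) * N.factorial := by
  classical
  set n := N + 1 - M with hn
  have hMn : M < n := by omega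
  let σ := Fin M ⊕ Fin n
  let w : σ → ℕ := Sum.elim (fun i => M - i) (fun i => n - i)
  let d : Option (Fin N) → ℕ := fun j => j.elim (n - M) fun i => N - i
  let Qg : (MvPolynomial σ ℂ)[X] := gen ℂ Sum.inl
  let Pg : (MvPolynomial σ ℂ)[X] := gen ℂ Sum.inr
  let f : Option (Fin N) → MvPolynomial σ ℂ :=
    fun j => j.elim (Pg.coeff M) fun i => (Wr Pg Qg).coeff i
  have hPQ : PD w M Qg := gen_PD _ fun i => by simp [w]
  have hPP : PD w n Pg := gen_PD _ fun i => by simp [w]
  have hPW : PD w (n + M) (X * Wr Pg Qg) := by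
    rw [wr_eq]
    exact (hPP.delta.mul hPQ).sub (hPP.mul hPQ.delta)
  have hf : ∀ j, WD w (d j) (f j) := by
    rintro (_ | j) m hm
    · have := hPP M m hm
      simp only [d, Option.elim]
      omega
    · have := hPW (j + 1) m (by rwa [coeff_X_mul])
      simp only [d, Option.elim]
      omega
  have hint : ∀ p : MvPolynomial σ ℂ, IsIntegral (Algebra.adjoin ℂ (Set.range f)) p := by
    set B := Algebra.adjoin ℂ (Set.range f)
    let L := AlgebraicClosure (FractionRing (MvPolynomial σ ℂ))
    have hinj : Function.Injective (algebraMap (MvPolynomial σ ℂ) L) := by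
      rw [IsScalarTower.algebraMap_eq (MvPolynomial σ ℂ) (FractionRing (MvPolynomial σ ℂ)) L,
        RingHom.coe_comp]
      exact (RingHom.injective _).comp (IsFractionRing.injective _ _)
    have hX : ∀ i, IsIntegral B (MvPolynomial.X i : MvPolynomial σ ℂ) := by
      intro i
      rw [← isIntegral_algebraMap_iff hinj]
      refine integral_of_val' fun V hV => ?_
      have hB : ∀ p ∈ B, algebraMap (MvPolynomial σ ℂ) L p ∈ V := fun p hp => hV ⟨p, hp⟩
      have hV' : ∀ n : ℕ, (n : L)⁻¹ ∈ V := by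
        intro n
        have := hB _ (B.algebraMap_mem ((n : ℂ)⁻¹))
        rwa [← IsScalarTower.algebraMap_apply, map_inv₀, map_natCast] at this
      have mP := (gen_monic (k := ℂ) (Sum.inr : Fin n → σ)).map (algebraMap _ L)
      have mQ := (gen_monic (k := ℂ) (Sum.inl : Fin M → σ)).map (algebraMap _ L)
      have dP : (Pg.map (algebraMap _ L)).natDegree = n := by
        rw [(gen_monic _).natDegree_map, gen_deg]
      have dQ : (Qg.map (algebraMap _ L)).natDegree = M := by
        rw [(gen_monic _).natDegree_map, gen_deg]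
      have hr : ∀ r, (Pg.map (algebraMap _ L) * Qg.map (algebraMap _ L)).eval r = 0 → r ∈ V := by
        intro r hr
        refine wr_val V hV' (N := N) mP mQ (by rwa [dP, dQ]) (by rw [dP, dQ]; omega) ?_ ?_ hr
        · rw [dQ, coeff_map]
          exact hB _ (Algebra.subset_adjoin ⟨none, rfl⟩)
        · intro j
          rw [← wr_map, coeff_map]
          refine hB _ ?_
          obtain ⟨h1, h2⟩ := wr_top (gen_deg (k := ℂ) (Sum.inr : Fin n → σ)).le
            (gen_deg (k := ℂ) (Sum.inl : Fin M → σ)).le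
          rcases lt_trichotomy j N with h | h | h
          · exact Algebra.subset_adjoin ⟨some ⟨j, h⟩, rfl⟩
          · have h3 : Pg.coeff n = 1 := by
              rw [← (gen_monic (Sum.inr : Fin n → σ)).leadingCoeff, leadingCoeff, gen_deg]
            have h4 : Qg.coeff M = 1 := by
              rw [← (gen_monic (Sum.inl : Fin M → σ)).leadingCoeff, leadingCoeff, gen_deg]
            rw [show n + M = j + 1 by omega, coeff_X_mul, h3, h4, mul_one, mul_one] at h2
            rw [h2]
            exact B.sub_mem (natCast_mem B _) (natCast_mem B _)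
          · rw [← coeff_X_mul, coeff_eq_zero_of_natDegree_lt (h1.trans_lt (by omega))]
            exact B.zero_mem
      rcases i with i | i
      · have := coeff_mem_val V mQ (fun r h => hr r (by rw [eval_mul, h, mul_zero])) i
        rwa [coeff_map, gen_coeff] at this
      · have := coeff_mem_val V mP (fun r h => hr r (by rw [eval_mul, h, zero_mul])) i
        rwa [coeff_map, gen_coeff] at this
    intro p
    induction p using MvPolynomial.induction_on with
    | C a => exact isIntegral_algebraMap (x := (⟨_, B.algebraMap_mem a⟩ : B))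
    | add p q hp hq => exact hp.add hq
    | mul_X p i hp => exact hp.mul (hX i)
  obtain ⟨τ, hτ⟩ : ∃ τ : ℂ, (∏ x ∈ S.offDiag, (x.1 - x.2)).eval τ ≠ 0 := by
    by_contra h
    push Not at h
    refine (prod_ne_zero_iff.mpr fun x hx => ?_) (Polynomial.funext (q := 0) (by simpa using h))
    exact sub_ne_zero.mpr (mem_offDiag.mp hx).2.2
  choose! P hP using fun Q hQ => (hS Q hQ).norm
  let x : ℂ[X] → σ → ℂ := fun Q => Sum.elim (fun i => Q.coeff i) (fun i => (P Q).coeff i)
  have hxQ : ∀ Q ∈ S, Qg.map (MvPolynomial.eval (x Q)) = Q := fun Q hQ =>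
    gen_map _ _ (hS Q hQ).1 (hS Q hQ).2.1 fun _ => rfl
  have hxP : ∀ Q ∈ S, Pg.map (MvPolynomial.eval (x Q)) = P Q := fun Q hQ =>
    gen_map _ _ (hP Q hQ).1 (by have := (hP Q hQ).2.1; omega) fun _ => rfl
  have hxt : ∀ Q ∈ S, MvPolynomial.eval (x Q) (Qg.eval (MvPolynomial.C τ)) = Q.eval τ := by
    intro Q hQ
    rw [← hxQ Q hQ, eval_map, ← eval₂_hom, MvPolynomial.eval_C, hxQ Q hQ]
  have hinj : ∀ Q ∈ S, ∀ Q' ∈ S, Q.eval τ = Q'.eval τ → Q = Q' := by
    intro Q hQ Q' hQ' h
    by_contra hne
    rw [eval_prod] at hτ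
    exact prod_ne_zero_iff.mp hτ (Q, Q') (mem_offDiag.mpr ⟨hQ, hQ', hne⟩) (by simp [h])
  have key := bezout (w := w) (d := d) (Fintype.equivOfCardEq (by simp [σ]; omega))
    (by rintro (i | i) <;> simp [w]) (by rintro (_ | i) <;> simp [d, hMn]) f hf hint 0
    (Qg.eval (MvPolynomial.C τ)) (S.image x) (by
      intro y hy j
      obtain ⟨Q, hQ, rfl⟩ := mem_image.mp hy
      rcases j with _ | j
      · simp only [f, Option.elim]
        rw [← coeff_map, hxP Q hQ, (hP Q hQ).2.2.1, Pi.zero_apply]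
      · simp only [f, Option.elim]
        rw [← coeff_map, wr_map, hxP Q hQ, hxQ Q hQ, (hP Q hQ).2.2.2, coeff_C_mul, coeff_X_pow,
          if_neg j.2.ne, mul_zero, Pi.zero_apply]) (by
      intro y hy y' hy' h
      obtain ⟨Q, hQ, rfl⟩ := mem_image.mp hy
      obtain ⟨Q', hQ', rfl⟩ := mem_image.mp hy'
      simp only [hxt Q hQ, hxt Q' hQ'] at h
      rw [hinj Q hQ Q' hQ' h])
  rw [card_image_of_injOn fun Q hQ Q' hQ' h => hinj Q hQ Q' hQ' (by
    rw [← hxt Q hQ, ← hxt Q' hQ', h])] at key
  have hfac : ∀ m : ℕ, ∏ i : Fin m, (m - i) = m.factorial := by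
    intro m
    rw [← Nat.descFactorial_self, Nat.descFactorial_eq_prod_range, prod_range]
  simpa [w, d, σ, Fintype.prod_sum_type, Fintype.prod_option, hfac] using key

theorem upper' {N M : ℕ} (hN : 2 * M ≤ N) (S : Finset ℂ[X]) (hS : ∀ Q ∈ S, Phys N M Q) :
    #S + (if M = 0 then 0 else N.choose (M - 1)) ≤ N.choose M := by
  have h := upper hN S hS
  refine Nat.le_of_mul_le_mul_right ?_
    (Nat.mul_pos (Nat.factorial_pos M) (Nat.factorial_pos (N + 1 - M)))
  have h1 : N.choose M * (M.factorial * (N + 1 - M).factorial) = (N + 1 - M) * N.factorial := by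
    rw [← Nat.choose_mul_factorial_mul_factorial (show M ≤ N by omega),
      show N + 1 - M = (N - M) + 1 by omega, Nat.factorial_succ]
    ring
  have h2 : (if M = 0 then 0 else N.choose (M - 1)) * (M.factorial * (N + 1 - M).factorial) =
      M * N.factorial := by
    rcases M with _ | M
    · simp
    · rw [← Nat.choose_mul_factorial_mul_factorial (show M ≤ N by omega),
        show N + 1 - (M + 1) = N - M by omega, Nat.factorial_succ]
      simp
      ring
  rw [add_mul, h1, h2]
  calc _ ≤ (N + 1 - M - M) * N.factorial + M * N.factorial := Nat.add_le_add_right h _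
    _ = _ := by rw [← add_mul, Nat.sub_add_cancel (by omega)]

end Pool.Agent.MP_c0c29f_mp.H97
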