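import Mathlib
import Pool.Agent.MP_c0c29f_mp.H97.Upper

/-!
Finiteness and algebraicity of all solutions of Baxter's equation.
-/

namespace Pool.Agent.MP_c0c29f_mp.H97

open Finset Polynomial

theorem TQ.map {R S : Type} [CommRing R] [CommRing S] (f : R →+* S) {N : ℕ} {T Q : R[X]}
    (h : TQ N T Q) : TQ N (T.map f) (Q.map f) := by
  have := congrArg (Polynomial.map f) h
  simpa [TQ, map_taylor] using this

theorem TQ.deg {K : Type} [Field K] {N : ℕ} {T Q : K[X]} (h : TQ N T Q) (hQ : Q.Monic) :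
    T.natDegree ≤ N := by
  by_cases hT : T = 0
  · simp [hT]
  have h1 := congrArg natDegree h
  rw [natDegree_mul hT hQ.ne_zero] at h1
  have h2 : (X ^ N * taylor (-1) Q + (X - 1) ^ N * taylor 1 Q).natDegree ≤ N + Q.natDegree := by
    refine (natDegree_add_le _ _).trans (max_le ?_ ?_)
    · exact natDegree_mul_le_of_le (by simp) (by simp)
    · refine natDegree_mul_le_of_le (natDegree_pow_le.trans ?_) (by simp)
      rw [← C_1, natDegree_X_sub_C, mul_one]
  omega

theorem TQ.integral {B L : Type} [Field B] [CharZero B] [Field L] [CharZero L] [IsAlgClosed L]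
    [Algebra B L] {N : ℕ} {T Q : L[X]} (h : TQ N T Q) (hQ : Q.Monic) (hN : 2 * Q.natDegree ≤ N) :
    (∀ r, Q.eval r = 0 → IsIntegral B r) ∧ ∀ j, IsIntegral B (Q.coeff j) := by
  have h1 : ∀ V : ValuationSubring L, (∀ b, algebraMap B L b ∈ V) → ∀ r, Q.eval r = 0 → r ∈ V :=
    fun V hV r hr => TQ_val V (fun n => by simpa using hV (n : B)⁻¹) hQ hN h hr
  exact ⟨fun r hr => integral_of_val' fun V hV => h1 V hV r hr,
    fun j => integral_of_val' fun V hV => coeff_mem_val V hQ (h1 V hV) j⟩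

theorem exists_seq {n : ℕ} (p : ℕ → ℂ[X]) (hp : ∀ k, (p k).natDegree ≤ n) :
    ∃ q : (ℕ → ℂ)[X], ∀ k, q.map (Pi.evalRingHom (fun _ => ℂ) k) = p k := by
  refine ⟨∑ i ∈ range (n + 1), monomial i fun k => (p k).coeff i, fun k => ?_⟩
  conv_rhs => rw [as_sum_range' (p k) (n + 1) (Nat.lt_succ_of_le (hp k))]
  simp [Polynomial.map_sum]

theorem TQ_finite {N M : ℕ} (hN : 2 * M ≤ N) :
    {Q : ℂ[X] | Q.Monic ∧ Q.natDegree = M ∧ ∃ T, TQ N T Q}.Finite := by
  by_contra hinf
  let e := Set.Infinite.natEmbedding _ hinf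
  choose T hT using fun k => (e k).2.2.2
  obtain ⟨Q0, hQ0⟩ := exists_seq (fun k => (e k).1) fun k => (e k).2.2.1.le
  obtain ⟨T0, hT0⟩ := exists_seq T fun k => (hT k).deg (e k).2.1
  have ext : ∀ p q : (ℕ → ℂ)[X], (∀ k, p.map (Pi.evalRingHom (fun _ => ℂ) k) =
      q.map (Pi.evalRingHom (fun _ => ℂ) k)) → p = q := by
    intro p q h
    ext j k
    simpa using congrArg (coeff · j) (h k)
  have hc : ∀ j k, Q0.coeff j k = (e k).1.coeff j := fun j k => by
    simpa using congrArg (coeff · j) (hQ0 k)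
  have h1 : TQ N T0 Q0 := ext _ _ fun k => by
    have := hT k
    rw [← hQ0, ← hT0] at this
    simpa [TQ, map_taylor] using this
  have h2 : Q0.natDegree ≤ M := by
    rw [natDegree_le_iff_coeff_eq_zero]
    intro j hj
    funext k
    rw [hc, coeff_eq_zero_of_natDegree_lt ((e k).2.2.1.trans_lt hj), Pi.zero_apply]
  have h3 : Q0.Monic := monic_of_natDegree_le_of_coeff_eq_one M h2 (by
    funext k
    have := (e k).2.1.coeff_natDegree
    rw [(e k).2.2.1] at this
    rw [hc, this, Pi.one_apply])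
  let K := Filter.Germ (Filter.hyperfilter ℕ : Filter ℕ) ℂ
  let L := AlgebraicClosure K
  let ψ : (ℕ → ℂ) →+* L := (algebraMap K L).comp (Filter.Germ.coeRingHom _)
  letI : Algebra ℂ L := (ψ.comp (Pi.constRingHom ℕ ℂ)).toAlgebra
  haveI : CharZero L := charZero_of_injective_algebraMap (algebraMap ℂ L).injective
  have h4 := ((h1.map ψ).integral (B := ℂ) (h3.map ψ)
    (le_trans (Nat.mul_le_mul_left _ (natDegree_map_le.trans h2)) hN)).2
  have h5 : ∀ j, ∃ c : ℂ, ∀ᶠ k in Filter.hyperfilter ℕ, (e k).1.coeff j = c := by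
    intro j
    obtain ⟨c, hc'⟩ := minpoly.mem_range_of_degree_eq_one ℂ _
      (IsAlgClosed.degree_eq_one_of_irreducible ℂ (minpoly.irreducible (h4 j)))
    rw [coeff_map] at hc'
    have h6 := Filter.Germ.coe_eq.mp ((algebraMap K L).injective hc')
    exact ⟨c, h6.mono fun k hk => by rw [← hc, ← hk]; rfl⟩
  choose c hc' using h5
  have h6 : ∀ᶠ k in Filter.hyperfilter ℕ, ∀ j ∈ range (M + 1), (e k).1.coeff j = c j :=
    (Filter.eventually_all_finset _).mpr fun j _ => hc' j
  obtain ⟨k, hk⟩ := h6.exists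
  obtain ⟨l, hl, hkl⟩ := (h6.and ((Set.finite_singleton k).compl_mem_hyperfilter)).exists
  refine hkl (e.injective (Subtype.ext ?_))
  ext j
  by_cases hj : j < M + 1
  · rw [hk j (mem_range.mpr hj), hl j (mem_range.mpr hj)]
  · rw [coeff_eq_zero_of_natDegree_lt ((e k).2.2.1.trans_lt (by omega)),
      coeff_eq_zero_of_natDegree_lt ((e l).2.2.1.trans_lt (by omega))]

end Pool.Agent.MP_c0c29f_mp.H97
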