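import Mathlib

/-!
The monodromy matrix of the spin chain.
-/

namespace Pool.Agent.MP_c0c29f_mp.H97

open Finset Matrix
open scoped Kronecker

set_option linter.unusedSectionVars false

/-- spin configurations -/
def Cfg : ℕ → Type
  | 0 => Unit
  | n + 1 => Fin 2 × Cfg n

instance Cfg.fin : ∀ n, Fintype (Cfg n)
  | 0 => inferInstanceAs (Fintype Unit)
  | n + 1 => @instFintypeProd (Fin 2) (Cfg n) _ (Cfg.fin n)

instance Cfg.dec : ∀ n, DecidableEq (Cfg n)
  | 0 => inferInstanceAs (DecidableEq Unit)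
  | n + 1 => @instDecidableEqProd (Fin 2) (Cfg n) _ (Cfg.dec n)

variable {R : Type} [CommRing R] {σ : Type} [Fintype σ] [DecidableEq σ]

/-- the local operator -/
def Lop (y : R) (a c : Fin 2) : Matrix (Fin 2) (Fin 2) R :=
  Matrix.of fun s s' => (if a = c ∧ s = s' then y - 1 else 0) + (if a = s' ∧ c = s then 1 else 0)

/-- adding one site -/
def step (y : R) (T : Fin 2 → Fin 2 → Matrix σ σ R) (a b : Fin 2) :
    Matrix (Fin 2 × σ) (Fin 2 × σ) R :=
  Lop y a 0 ⊗ₖ T 0 b + Lop y a 1 ⊗ₖ T 1 b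

/-- the monodromy matrix -/
def mon (y : R) : (n : ℕ) → Fin 2 → Fin 2 → Matrix (Cfg n) (Cfg n) R
  | 0, a, b => if a = b then 1 else 0
  | n + 1, a, b => step y (mon y n) a b

/-- the exchange relation -/
def RTT (c : R) (T T' : Fin 2 → Fin 2 → Matrix σ σ R) : Prop :=
  ∀ i j k l, c • (T i j * T' k l) + T k j * T' i l = c • (T' k l * T i j) + T' k j * T i l

theorem RTT_L (u v : R) : RTT (u - v) (Lop u) (Lop v) := by
  intro i j k l
  ext s s'
  fin_cases i <;> fin_cases j <;> fin_cases k <;> fin_cases l <;> fin_cases s <;> fin_cases s' <;>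
    simp [Lop, Matrix.mul_apply] <;> ring

theorem step_mul (u v : R) (T T' : Fin 2 → Fin 2 → Matrix σ σ R) (i j k l : Fin 2) :
    step u T i j * step v T' k l = (Lop u i 0 * Lop v k 0) ⊗ₖ (T 0 j * T' 0 l) +
      (Lop u i 0 * Lop v k 1) ⊗ₖ (T 0 j * T' 1 l) + (Lop u i 1 * Lop v k 0) ⊗ₖ (T 1 j * T' 0 l) +
      (Lop u i 1 * Lop v k 1) ⊗ₖ (T 1 j * T' 1 l) := by
  simp only [step, add_mul, mul_add, mul_kronecker_mul]
  abel

theorem RTT_step (u v : R) {T T' : Fin 2 → Fin 2 → Matrix σ σ R} (h : RTT (u - v) T T') :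
    RTT (u - v) (step u T) (step v T') := by
  intro i j k l
  have h1 := fun a c => congrArg (· ⊗ₖ (T a j * T' c l)) (RTT_L u v i a k c)
  have h2 := fun a c => congrArg ((Lop v k c * Lop u i a) ⊗ₖ ·) (h a j c l)
  simp only [add_kronecker, smul_kronecker, kronecker_add, kronecker_smul] at h1 h2
  simp only [step_mul]
  linear_combination (norm := module) h1 0 0 + h1 0 1 + h1 1 0 + h1 1 1 + h2 0 0 + h2 0 1 +
    h2 1 0 + h2 1 1

theorem RTT_mon (u v : R) (n : ℕ) : RTT (u - v) (mon u n) (mon v n) := by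
  induction n with
  | zero =>
    intro i j k l
    fin_cases i <;> fin_cases j <;> fin_cases k <;> fin_cases l <;> simp [mon]
  | succ n ih => exact RTT_step u v ih

theorem mon_map {S : Type} [CommRing S] (f : R →+* S) (y : R) (n : ℕ) (a b : Fin 2) :
    (mon y n a b).map f = mon (f y) n a b := by
  induction n generalizing a b with
  | zero =>
    simp only [mon]
    split_ifs <;> simp
  | succ n ih =>
    ext ⟨s, t⟩ ⟨s', t'⟩
    simp [mon, step, ← ih, Lop, apply_ite f]

/-- sign -/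
def eps (j l : Fin 2) : R := if j = l then 0 else if j = 0 then 1 else -1

theorem qdet_step (y q : R) {T T' : Fin 2 → Fin 2 → Matrix σ σ R}
    (h : ∀ j l, T 0 j * T' 1 l - T 1 j * T' 0 l = (q * eps j l) • 1) (j l : Fin 2) :
    step y T 0 j * step (y + 1) T' 1 l - step y T 1 j * step (y + 1) T' 0 l =
      ((y ^ 2 - 1) * q * eps j l) • 1 := by
  have h1 : ∀ a c, Lop y 0 a * Lop (y + 1) 1 c - Lop y 1 a * Lop (y + 1) 0 c =
      ((y ^ 2 - 1) * eps a c) • 1 := by
    intro a c
    ext s s'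
    fin_cases a <;> fin_cases c <;> fin_cases s <;> fin_cases s' <;>
      simp [Lop, Matrix.mul_apply, eps] <;> ring
  have h2 := fun a c => congrArg (· ⊗ₖ (T a j * T' c l)) (sub_eq_iff_eq_add.mp (h1 a c))
  have h3 := congrArg ((1 : Matrix (Fin 2) (Fin 2) R) ⊗ₖ ·) (sub_eq_iff_eq_add.mp (h j l))
  simp only [add_kronecker, smul_kronecker, kronecker_add, kronecker_smul,
    one_kronecker_one] at h2 h3
  have e00 : (eps 0 0 : R) = 0 := by simp [eps]
  have e01 : (eps 0 1 : R) = 1 := by simp [eps]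
  have e10 : (eps 1 0 : R) = -1 := by simp [eps]
  have e11 : (eps 1 1 : R) = 0 := by simp [eps]
  have h4 := h2 0 0
  have h5 := h2 0 1
  have h6 := h2 1 0
  have h7 := h2 1 1
  rw [e00] at h4
  rw [e01] at h5
  rw [e10] at h6
  rw [e11] at h7
  simp only [step_mul]
  linear_combination (norm := module) h4 + h5 + h6 + h7 + (y ^ 2 - 1) • h3

theorem qdet (y : R) (n : ℕ) (j l : Fin 2) :
    mon y n 0 j * mon (y + 1) n 1 l - mon y n 1 j * mon (y + 1) n 0 l =
      ((y ^ 2 - 1) ^ n * eps j l) • 1 := by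
  induction n generalizing j l with
  | zero => fin_cases j <;> fin_cases l <;> simp [mon, eps]
  | succ n ih =>
    rw [pow_succ']
    exact qdet_step y _ ih j l

theorem sym_step (y q : R) {T T' : Fin 2 → Fin 2 → Matrix σ σ R} (j l : Fin 2)
    (h0 : T 0 j * T' 1 l + T 0 l * T' 1 j = T 1 j * T' 0 l + T 1 l * T' 0 j)
    (h : ∀ i k, ∃ S, T i j * T' k l + T i l * T' k j = q • S) (i k : Fin 2) :
    ∃ S, step y T i j * step (y + 1) T' k l + step y T i l * step (y + 1) T' k j =
      (y * q) • S := by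
  have h1 : ∀ a, ∃ K, Lop y i a * Lop (y + 1) k a = y • K := by
    intro a
    refine ⟨Matrix.of fun s s' => (if i = a ∧ k = a ∧ s = s' then y - 1 else 0) +
      (if k = a ∧ i = s' ∧ a = s then 1 else 0) + (if i = a ∧ k = s' ∧ a = s then 1 else 0), ?_⟩
    ext s s'
    fin_cases i <;> fin_cases k <;> fin_cases a <;> fin_cases s <;> fin_cases s' <;>
      simp [Lop, Matrix.mul_apply] <;> ring
  have h2 : ∃ K, Lop y i 0 * Lop (y + 1) k 1 + Lop y i 1 * Lop (y + 1) k 0 = y • K := by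
    refine ⟨Matrix.of fun s s' => (if i ≠ k ∧ s = s' then y - 1 else 0) +
      (if k ≠ s ∧ i = s' then 1 else 0) + (if i ≠ s ∧ k = s' then 1 else 0), ?_⟩
    ext s s'
    fin_cases i <;> fin_cases k <;> fin_cases s <;> fin_cases s' <;>
      simp [Lop, Matrix.mul_apply] <;> ring
  obtain ⟨K0, hK0⟩ := h1 0
  obtain ⟨K1, hK1⟩ := h1 1
  obtain ⟨K2, hK2⟩ := h2
  obtain ⟨S0, hS0⟩ := h 0 0
  obtain ⟨S1, hS1⟩ := h 1 1
  obtain ⟨S2, hS2⟩ := h 0 1
  refine ⟨K0 ⊗ₖ S0 + K1 ⊗ₖ S1 + K2 ⊗ₖ S2, ?_⟩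
  have e0 := congrArg₂ (· ⊗ₖ ·) hK0 hS0
  have e1 := congrArg₂ (· ⊗ₖ ·) hK1 hS1
  have e2 := congrArg₂ (· ⊗ₖ ·) hK2 hS2
  have e3 := congrArg ((Lop y i 1 * Lop (y + 1) k 0) ⊗ₖ ·) h0
  simp only [add_kronecker, smul_kronecker, kronecker_add, kronecker_smul] at e0 e1 e2 e3
  simp only [step_mul]
  linear_combination (norm := module) e0 + e1 + e2 - e3

theorem sym_mon (y : R) (n : ℕ) (j l i k : Fin 2) :
    ∃ S, mon y n i j * mon (y + 1) n k l + mon y n i l * mon (y + 1) n k j = y ^ n • S := by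
  induction n generalizing i k with
  | zero => exact ⟨_, by rw [pow_zero, one_smul]⟩
  | succ n ih =>
    rw [pow_succ']
    refine sym_step y _ j l ?_ ih i k
    have h1 := qdet y n j l
    have h2 := qdet y n l j
    have h3 : (eps l j : R) = -eps j l := by fin_cases j <;> fin_cases l <;> simp [eps]
    rw [h3] at h2
    linear_combination (norm := module) h1 + h2

/-- the transfer matrix -/
def tr (y : R) (n : ℕ) : Matrix (Cfg n) (Cfg n) R := mon y n 0 0 + mon y n 1 1

theorem fusion (y : R) (n : ℕ) :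
    ∃ S, (2 : R) • (tr y n * tr (y + 1) n) = (2 * (y ^ 2 - 1) ^ n) • 1 + y ^ n • S := by
  obtain ⟨S0, h0⟩ := sym_mon y n 0 0 0 0
  obtain ⟨S1, h1⟩ := sym_mon y n 1 1 1 1
  obtain ⟨S2, h2⟩ := sym_mon y n 0 1 1 0
  have h3 := qdet y n 0 1
  have e01 : (eps 0 1 : R) = 1 := by simp [eps]
  rw [e01] at h3
  refine ⟨S0 + S1 + (2 : R) • S2, ?_⟩
  simp only [tr, add_mul, mul_add]
  linear_combination (norm := module) h0 + h1 + (2 : R) • h2 + (2 : R) • h3

theorem tr_comm' (u v : R) (n : ℕ) :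
    ((u - v) ^ 2 - 1) • (tr u n * tr v n) = ((u - v) ^ 2 - 1) • (tr v n * tr u n) := by
  have h := RTT_mon u v n
  simp only [tr, add_mul, mul_add]
  linear_combination (norm := module)
    (u - v) • (h 0 0 0 0 + h 0 0 1 1 + h 1 1 0 0 + h 1 1 1 1) -
      (h 0 0 0 0 + h 0 1 1 0 + h 1 0 0 1 + h 1 1 1 1)

theorem tr_map {S : Type} [CommRing S] (f : R →+* S) (y : R) (n : ℕ) :
    (tr y n).map f = tr (f y) n := by
  rw [tr, Matrix.map_add _ (map_add f), mon_map, mon_map, tr]

theorem tr_comm (u v : ℂ) (n : ℕ) : tr u n * tr v n = tr v n * tr u n := by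
  have h := tr_comm' (Polynomial.X : Polynomial ℂ) (Polynomial.C v) n
  have h1 : ((Polynomial.X : Polynomial ℂ) - Polynomial.C v) ^ 2 - 1 ≠ 0 := by
    intro h
    have := congrArg (Polynomial.eval v) h
    simp at this
  have h2 := congrArg (Polynomial.evalRingHom u).mapMatrix (smul_right_injective _ h1 h)
  simp only [map_mul, RingHom.mapMatrix_apply, tr_map] at h2
  simpa using h2

theorem exA (x y : R) (n : ℕ) : (y - x) • (mon x n 1 0 * mon y n 0 0) =
    (y - x + -1) • (mon y n 0 0 * mon x n 1 0) - (-1 : R) • (mon x n 0 0 * mon y n 1 0) := by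
  linear_combination (norm := module) -RTT_mon x y n 1 0 0 0

theorem exD (x y : R) (n : ℕ) : (y - x) • (mon x n 1 0 * mon y n 1 1) =
    (y - x + 1) • (mon y n 1 1 * mon x n 1 0) - (1 : R) • (mon x n 1 1 * mon y n 1 0) := by
  linear_combination (norm := module) -RTT_mon y x n 1 1 1 0

theorem exC (x y : ℂ) (n : ℕ) : Commute (mon x n 1 0) (mon y n 1 0) := by
  have h1 := RTT_mon x y n 1 0 1 0
  have h2 := RTT_mon y x n 1 0 1 0
  have h3 : (2 : ℂ) • (mon x n 1 0 * mon y n 1 0) = (2 : ℂ) • (mon y n 1 0 * mon x n 1 0) := by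
    linear_combination (norm := module) h1 - h2
  exact smul_right_injective _ two_ne_zero h3

/-- sign -/
def sg (a : Fin 2) : ℂ := if a = 0 then 1 else -1

theorem adj_step (y q : ℂ) {T T' : Fin 2 → Fin 2 → Matrix σ σ ℂ}
    (h : ∀ a b, (T a b)ᴴ = (q * sg a * sg b) • T' a.rev b.rev) (a b : Fin 2) :
    (step y T a b)ᴴ = (-1 * q * sg a * sg b) • step (1 - star y) T' a.rev b.rev := by
  ext ⟨s, t⟩ ⟨s', t'⟩
  have h0 := congrFun (congrFun (h 0 b) t) t'
  have h1 := congrFun (congrFun (h 1 b) t) t'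
  simp only [conjTranspose_apply, Matrix.smul_apply, smul_eq_mul] at h0 h1
  simp only [conjTranspose_apply, step, Matrix.add_apply, kroneckerMap_apply, star_add, star_mul',
    h0, h1, Matrix.smul_apply, smul_eq_mul]
  generalize sg b = c
  generalize b.rev = b'
  fin_cases a <;> fin_cases s <;> fin_cases s' <;> simp [Lop, sg, Fin.rev] <;> ring

theorem adj_mon (y : ℂ) (n : ℕ) (a b : Fin 2) :
    (mon y n a b)ᴴ = ((-1) ^ n * sg a * sg b) • mon (1 - star y) n a.rev b.rev := by
  induction n generalizing a b with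
  | zero => fin_cases a <;> fin_cases b <;> simp [mon, sg]
  | succ n ih =>
    rw [pow_succ']
    exact adj_step y _ ih a b

theorem adj_tr (y : ℂ) (n : ℕ) : (tr y n)ᴴ = (-1 : ℂ) ^ n • tr (1 - star y) n := by
  rw [tr, conjTranspose_add, adj_mon, adj_mon, tr, smul_add, add_comm]
  simp [sg, Fin.rev]

/-- number of down spins -/
def wt : (n : ℕ) → Cfg n → ℕ
  | 0, _ => 0
  | n + 1, s => s.1 + wt n s.2

theorem ice (y : R) (n : ℕ) (a b : Fin 2) (s s' : Cfg n) (h : wt n s + a ≠ wt n s' + b) :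
    mon y n a b s s' = 0 := by
  induction n generalizing a b with
  | zero =>
    have : a ≠ b := fun hab => h (by rw [hab]; rfl)
    simp [mon, this]
  | succ n ih =>
    obtain ⟨s, t⟩ := s
    obtain ⟨s', t'⟩ := s'
    simp only [wt] at h
    have key : ∀ c, Lop y a c s s' * mon y n c b t t' = 0 := by
      intro c
      by_cases hc : (s : ℕ) + a = s' + c
      · rw [ih c b t t' (by omega), mul_zero]
      · have h1 : ¬(a = c ∧ s = s') := fun h => hc (by rw [h.1, h.2])
        have h2 : ¬(a = s' ∧ c = s) := fun h => hc (by rw [h.1, h.2, add_comm])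
        simp only [Lop, of_apply, if_neg h1, if_neg h2, add_zero, zero_mul]
    exact (congrArg₂ (· + ·) (key 0) (key 1)).trans (add_zero 0)

theorem card_wt (n m : ℕ) : #{s : Cfg n | wt n s = m} = n.choose m := by
  induction n generalizing m with
  | zero => rcases m with _ | m <;> simp [wt] <;> rfl
  | succ n ih =>
    rw [card_filter]
    erw [Fintype.sum_prod_type, Fin.sum_univ_two]
    simp only [wt, ← card_filter]
    rcases m with _ | m
    · simp [ih]
    · rw [Nat.choose_succ_succ', ← ih, ← ih, add_comm]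
      simp [add_comm 1]

/-- a configuration from a list of spins -/
def emb : (n : ℕ) → List (Fin 2) → Cfg n
  | 0, _ => ()
  | n + 1, l => (l.headD 0, emb n l.tail)

theorem vac_row (y : R) (n : ℕ) (s : Cfg n) :
    mon y n 0 0 (emb n []) s = (if emb n [] = s then y ^ n else 0) ∧
      mon y n 0 1 (emb n []) s = 0 ∧
      mon y n 1 1 (emb n []) s = (if emb n [] = s then (y - 1) ^ n else 0) := by
  induction n with
  | zero => simp [mon, emb, one_apply]
  | succ n ih =>
    obtain ⟨s, t⟩ := s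
    obtain ⟨h0, h1, h2⟩ := ih t
    have e : (emb (n + 1) [] = (s, t)) ↔ (0 = s ∧ emb n [] = t) := Prod.ext_iff
    simp only [e]
    simp only [mon, emb, step, Matrix.add_apply, kroneckerMap_apply, List.tail_nil, h0, h1, h2]
    fin_cases s <;> simp [Lop, pow_succ']

theorem shift_row (n : ℕ) (a b : Fin 2) (l : List (Fin 2)) (hl : l.length < n) (s : Cfg n) :
    mon (1 : R) n a b (emb n l) s = if b = 0 ∧ emb n (a :: l) = s then 1 else 0 := by
  induction n generalizing a l with
  | zero => omega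
  | succ n ih =>
    obtain ⟨s, t⟩ := s
    have e : (emb (n + 1) (a :: l) = (s, t)) ↔ (a = s ∧ emb n l = t) := Prod.ext_iff
    have e1 : mon (1 : R) (n + 1) a b (emb (n + 1) l) (s, t) =
        (if a = s then 1 else 0) * mon 1 n (l.headD 0) b (emb n l.tail) t := by
      simp only [mon, emb, step, Matrix.add_apply, kroneckerMap_apply]
      generalize l.headD 0 = c
      fin_cases c <;> simp [Lop]
    simp only [e, e1]
    rcases l with _ | ⟨c, l⟩
    · obtain ⟨h0, h1, -⟩ := vac_row (1 : R) n t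
      fin_cases b <;> by_cases h2 : a = s <;> simp [h0, h1, h2]
    · rw [List.headD_cons, List.tail_cons, ih c l (by simpa using hl)]
      by_cases h1 : a = s <;> simp [h1]

theorem exists_emb (n : ℕ) (s : Cfg n) :
    ∃ l : List (Fin 2), l.length = n ∧ emb n l = s ∧ (l.map Fin.val).sum = wt n s := by
  induction n with
  | zero => exact ⟨[], rfl, rfl, rfl⟩
  | succ n ih =>
    obtain ⟨l, h1, h2, h3⟩ := ih s.2
    exact ⟨s.1 :: l, by simp [h1], Prod.ext rfl h2, by simp [wt, h3]⟩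

end Pool.Agent.MP_c0c29f_mp.H97
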