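import Mathlib
import Pool.Agent.MP_c0c29f_mp.H97.Basic

/-!
Off-shell action and the wedge argument.
-/

namespace Pool.Agent.MP_c0c29f_mp.H97

open Finset Polynomial

set_option linter.unusedSectionVars false

section Off

variable {A : Type} [Ring A] [Algebra ℂ A] {B E : ℂ → A} {e : ℂ → ℂ} {η : ℂ} {Φ : Finset ℂ → A}

theorem offshell (hΦ : ∀ Z x, x ∉ Z → Φ (insert x Z) = Φ Z * B x)
    (h0 : ∀ y, Φ ∅ * E y = e y • Φ ∅)
    (hex : ∀ x y, (y - x) • (B x * E y) = (y - x + η) • (E y * B x) - η • (E x * B y))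
    (Z : Finset ℂ) (y : ℂ) (hy : y ∉ Z) :
    Φ Z * E y = (e y * ∏ z ∈ Z, (y - z)⁻¹ * (y + η - z)) • Φ Z +
      ∑ x ∈ Z, (e x * ((x - y)⁻¹ * η) * ∏ z ∈ Z.erase x, (x - z)⁻¹ * (x + η - z)) •
        Φ (insert y (Z.erase x)) := by
  induction Z using Finset.induction_on generalizing y with
  | empty => simp [h0]
  | insert p Z hp ih =>
    rw [mem_insert, not_or] at hy
    have hyp : y - p ≠ 0 := sub_ne_zero.mpr hy.1
    have hpy : p - y ≠ 0 := sub_ne_zero.mpr (Ne.symm hy.1)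
    apply smul_right_injective _ hyp
    have h1 := congrArg (· * B p) (ih y hy.2)
    have h2 := congrArg (· * B y) (ih p hp)
    have h3 := congrArg (Φ Z * ·) (hex p y)
    simp only [add_mul, smul_mul_assoc, sum_mul, mul_sub, mul_smul_comm, ← mul_assoc] at h1 h2 h3
    simp only
    rw [hΦ Z p hp, h3, h1, h2, sum_insert hp, erase_insert hp, prod_insert hp, ← hΦ Z y hy.2,
      smul_add, smul_add, smul_add, smul_add, smul_sum, smul_sum, smul_sum]
    have h4 : ∀ x ∈ Z, (y - p) • (e x * ((x - y)⁻¹ * η) *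
        ∏ z ∈ (insert p Z).erase x, (x - z)⁻¹ * (x + η - z)) • Φ (insert y ((insert p Z).erase x)) =
        (y - p + η) • ((e x * (x - y)⁻¹ * η * ∏ z ∈ Z.erase x, ((x - z)⁻¹ * (x + η) - (x - z)⁻¹ * z)) •
          (Φ (insert y (Z.erase x)) * B p)) -
        η • ((e x * (x - p)⁻¹ * η * ∏ z ∈ Z.erase x, ((x - z)⁻¹ * (x + η) - (x - z)⁻¹ * z)) •
          (Φ (insert p (Z.erase x)) * B y)) := by
      intro x hx
      have hxp : p ≠ x := fun h => hp (h ▸ hx)
      have hxy : x - y ≠ 0 := sub_ne_zero.mpr fun h => hy.2 (h ▸ hx)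
      have hxp' : x - p ≠ 0 := sub_ne_zero.mpr hxp.symm
      rw [erase_insert_of_ne hxp, ← hΦ _ p (by simp [hp, Ne.symm hy.1]),
        ← hΦ _ y (by simp [hy.1, hy.2]), insert_comm p y, prod_insert (by simp [hp]), smul_smul,
        smul_smul, smul_smul, ← sub_smul]
      congr 1
      simp only [← mul_sub]
      field_simp
      ring
    rw [sum_congr rfl h4, sum_sub_distrib]
    simp only [← mul_sub]
    match_scalars
    all_goals field_simp
    all_goals ring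

theorem lagr {Y : Finset ℂ} {g : ℂ[X]} (hg : g.degree < #Y) (t : ℂ) :
    g.eval t = ∑ y ∈ Y, g.eval y * ∏ z ∈ Y.erase y, (y - z)⁻¹ * (t - z) := by
  conv_lhs => rw [Lagrange.eq_interpolate (v := id) (Set.injOn_id _) hg]
  simp [Lagrange.interpolate_apply, eval_finsetSum, Lagrange.basis, Lagrange.basisDivisor,
    eval_prod]

theorem offshell' (hΦ : ∀ Z x, x ∉ Z → Φ (insert x Z) = Φ Z * B x)
    (h0 : ∀ y, Φ ∅ * E y = e y • Φ ∅)
    (hex : ∀ x y, (y - x) • (B x * E y) = (y - x + η) • (E y * B x) - η • (E x * B y))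
    {Y : Finset ℂ} {g : ℂ[X]} (hg : g.degree < #Y) :
    ∑ x ∈ Y, ((∏ z ∈ Y.erase x, (x - z)⁻¹) * g.eval x) • (Φ (Y.erase x) * E x) =
      ∑ x ∈ Y, ((∏ z ∈ Y.erase x, (x - z)⁻¹) * (e x * g.eval (x + η))) • Φ (Y.erase x) := by
  have h1 : ∀ y ∈ Y, Φ (Y.erase y) * E y = ∑ x ∈ Y, ((∏ z ∈ Y.erase x, (x - z)⁻¹) *
      (e x * ∏ z ∈ Y.erase y, (x + η - z))) • Φ (Y.erase x) := by
    intro y hy
    rw [offshell hΦ h0 hex _ y (notMem_erase y Y), ← add_sum_erase Y _ hy, prod_mul_distrib]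
    congr 1
    · congr 1
      ring
    · refine sum_congr rfl fun x hx => ?_
      have h2 : y ∈ Y.erase x := mem_erase.mpr ⟨(mem_erase.mp hx).1.symm, hy⟩
      rw [erase_right_comm, insert_erase h2, ← mul_prod_erase _ _ h2, ← mul_prod_erase _ _ hx,
        erase_right_comm (a := y), prod_mul_distrib]
      congr 1
      ring
  rw [sum_congr rfl fun y hy => by rw [h1 y hy, smul_sum], sum_comm]
  refine sum_congr rfl fun x _ => ?_
  simp only [smul_smul, ← sum_smul]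
  rw [lagr hg (x + η), mul_sum, mul_sum]
  congr 1
  refine sum_congr rfl fun y _ => ?_
  rw [prod_mul_distrib]
  ring

end Off

theorem exists_ker {ι : Type} (s : Finset ι) (φ : ι → ℂ[X] →ₗ[ℂ] ℂ) :
    ∃ g : ℂ[X], g ≠ 0 ∧ g.natDegree ≤ #s ∧ ∀ i ∈ s, φ i g = 0 := by
  let F : degreeLT ℂ (#s + 1) →ₗ[ℂ] (s → ℂ) :=
    LinearMap.pi fun i => φ i ∘ₗ (degreeLT ℂ (#s + 1)).subtype
  have h := F.ker_ne_bot_of_finrank_lt (by
    rw [(degreeLTEquiv ℂ (#s + 1)).finrank_eq]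
    simp)
  obtain ⟨⟨g, hg⟩, h1, h2⟩ := (Submodule.ne_bot_iff _).mp h
  refine ⟨g, fun h => h2 (Subtype.ext h), ?_, fun i hi => congrFun h1 ⟨i, hi⟩⟩
  rw [mem_degreeLT] at hg
  exact natDegree_le_iff_degree_le.mpr (Order.lt_succ_iff.mp hg)

/-- the operator whose kernel solves Baxter's equation -/
noncomputable def bax (N : ℕ) (T : ℂ[X]) : ℂ[X] →ₗ[ℂ] ℂ[X] :=
  LinearMap.mulLeft ℂ T - LinearMap.mulLeft ℂ (X ^ N) ∘ₗ taylor (-1) -
    LinearMap.mulLeft ℂ ((X - 1) ^ N) ∘ₗ taylor 1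

theorem bax_eq_zero {N : ℕ} {T g : ℂ[X]} : bax N T g = 0 ↔ TQ N T g := by
  simp [bax, TQ, sub_sub, sub_eq_zero]

theorem bax_eval (N : ℕ) (T g : ℂ[X]) (x : ℂ) : (bax N T g).eval x =
    T.eval x * g.eval x - x ^ N * g.eval (x + -1) - (x - 1) ^ N * g.eval (x + 1) := by
  simp [bax, taylor_eval]

/-- the relations satisfied by the wave function of an eigenvector -/
def Rel (N M : ℕ) (T : ℂ[X]) (F : Finset ℂ → ℂ) : Prop :=
  ∀ Y : Finset ℂ, #Y = M + 1 → ∀ g : ℂ[X], g.natDegree ≤ M →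
    ∑ x ∈ Y, (∏ z ∈ Y.erase x, (x - z)⁻¹) * (bax N T g).eval x * F (Y.erase x) = 0

theorem wt_ne (Y : Finset ℂ) (x : ℂ) : ∏ z ∈ Y.erase x, (x - z)⁻¹ ≠ 0 :=
  prod_ne_zero_iff.mpr fun _ hz => inv_ne_zero (sub_ne_zero.mpr (mem_erase.mp hz).1.symm)

theorem Rel.ker {N M : ℕ} {T : ℂ[X]} {F : Finset ℂ → ℂ} (h : Rel N M T F) {Z : Finset ℂ}
    (hZ : #Z = M) (hF : F Z ≠ 0) {g : ℂ[X]} (hg : g.natDegree ≤ M)
    (h0 : ∀ x ∈ Z, (bax N T g).eval x = 0) : TQ N T g := by
  rw [← bax_eq_zero]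
  refine Polynomial.funext fun y => ?_
  by_cases hy : y ∈ Z
  · simpa using h0 y hy
  have h1 := h (insert y Z) (by rw [card_insert_of_notMem hy, hZ]) g hg
  rw [sum_insert hy, sum_eq_zero fun x hx => by rw [h0 x hx, mul_zero, zero_mul], add_zero] at h1
  have h2 := (mul_eq_zero.mp h1).resolve_right (by rwa [erase_insert hy])
  simpa using (mul_eq_zero.mp h2).resolve_left (wt_ne _ _)

theorem Rel.exists {N M : ℕ} {T : ℂ[X]} {F : Finset ℂ → ℂ} (h : Rel N M T F) {Z : Finset ℂ}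
    (hZ : #Z = M) (hF : F Z ≠ 0) : ∃ Q : ℂ[X], Q.Monic ∧ Q.natDegree ≤ M ∧ TQ N T Q := by
  obtain ⟨g, h1, h2, h3⟩ := exists_ker Z fun x => leval x ∘ₗ bax N T
  have h4 := h.ker hZ hF (hZ ▸ h2) h3
  refine ⟨g * C g.leadingCoeff⁻¹, monic_mul_leadingCoeff_inv h1, ?_, ?_⟩
  · rw [natDegree_mul_leadingCoeff_self_inv]
    exact hZ ▸ h2
  · rw [← bax_eq_zero] at h4 ⊢
    rw [mul_comm, ← smul_eq_C_mul, map_smul, h4, smul_zero]

theorem Rel.unique {N M : ℕ} (hN : 2 * M ≤ N) {T : ℂ[X]} {F G : Finset ℂ → ℂ} (h : Rel N M T F)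
    (h' : Rel N M T G) {Z : Finset ℂ} (hZ : #Z = M) (hF : F Z ≠ 0) (hG : G Z = 0)
    (W : Finset ℂ) (hW : #W = M) : G W = 0 := by
  obtain ⟨Q, hQ, dQ, tQ⟩ := h.exists hZ hF
  induction hk : #(Z \ W) generalizing W with
  | zero =>
    rw [card_eq_zero, sdiff_eq_empty_iff_subset] at hk
    rwa [← eq_of_subset_of_card_le hk (by omega)]
  | succ k ih =>
    obtain ⟨y, hy⟩ : (Z \ W).Nonempty := card_pos.mp (by omega)
    obtain ⟨hyZ, hyW⟩ := mem_sdiff.mp hy
    obtain ⟨g, h1, h2, h3⟩ := exists_ker Z fun x =>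
      if x = y then lcoeff ℂ Q.natDegree else leval x ∘ₗ bax N T
    rw [hZ] at h2
    have h4 : ∀ x ∈ Z, x ≠ y → (bax N T g).eval x = 0 := fun x hx hxy => by
      simpa [hxy] using h3 x hx
    have h5 : (bax N T g).eval y ≠ 0 := by
      intro h5
      have h6 := h.ker hZ hF h2 fun x hx => by
        by_cases hxy : x = y
        exacts [hxy ▸ h5, h4 x hx hxy]
      obtain ⟨c, hc⟩ := prop_of_wr hQ.ne_zero (TQ_unique hN h6 tQ h2 dQ)
      have h7 : g.coeff Q.natDegree = 0 := by simpa using h3 y hyZ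
      rw [hc, coeff_C_mul, coeff_natDegree, hQ.leadingCoeff, mul_one] at h7
      exact h1 (by rw [hc, h7, map_zero, zero_mul])
    have h6 := h' (insert y W) (by rw [card_insert_of_notMem hyW, hW]) g h2
    rw [sum_insert hyW, sum_eq_zero, add_zero, erase_insert hyW] at h6
    · exact (mul_eq_zero.mp h6).resolve_left (mul_ne_zero (by
        simpa [erase_insert hyW] using wt_ne (insert y W) y) h5)
    · intro x hx
      have hxy : x ≠ y := fun h => hyW (h ▸ hx)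
      by_cases hxZ : x ∈ Z
      · rw [h4 x hxZ hxy, mul_zero, zero_mul]
      · rw [ih ((insert y W).erase x), mul_zero]
        · rw [card_erase_of_mem (mem_insert_of_mem hx), card_insert_of_notMem hyW, hW]
          rfl
        · have : Z \ (insert y W).erase x = (Z \ W).erase y := by
            ext z
            simp only [mem_sdiff, mem_erase, mem_insert]
            constructor
            · rintro ⟨h7, h8⟩
              have h9 : z ≠ x := fun h => hxZ (h ▸ h7)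
              tauto
            · tauto
          rw [this, card_erase_of_mem hy, hk]
          rfl

end Pool.Agent.MP_c0c29f_mp.H97
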