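import Mathlib
import Pool.Agent.MP_c0c29f_mp.H97.Off
import Pool.Agent.MP_c0c29f_mp.H97.Chain
import Pool.Agent.MP_c0c29f_mp.H97.Upper

/-!
The lower bound for the number of physical solutions, and the exact count.
-/

namespace Pool.Agent.MP_c0c29f_mp.H97

open Finset Polynomial Matrix

set_option linter.unusedSectionVars false

/-- off-shell Bethe covector -/
noncomputable def bet (n : ℕ) (Z : Finset ℂ) : Matrix (Cfg n) (Cfg n) ℂ :=
  single (emb n []) (emb n []) 1 * Z.noncommProd (fun x => mon x n 1 0) fun x _ y _ _ => exC x y n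

theorem bet_insert (n : ℕ) (Z : Finset ℂ) (x : ℂ) (hx : x ∉ Z) :
    bet n (insert x Z) = bet n Z * mon x n 1 0 := by
  rw [bet, noncommProd_insert_of_notMem' _ _ _ _ hx, bet, mul_assoc]

theorem bet_empty (n : ℕ) : bet n ∅ = single (emb n []) (emb n []) 1 := by
  simp [bet]

theorem single_mul_vac {n : ℕ} {E : Matrix (Cfg n) (Cfg n) ℂ} {c : ℂ}
    (h : ∀ s, E (emb n []) s = if emb n [] = s then c else 0) : bet n ∅ * E = c • bet n ∅ := by
  rw [bet_empty]
  ext s s'
  by_cases hs : emb n [] = s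
  · subst hs
    simp [h, single_apply]
  · simp [hs, Ne.symm hs]

theorem bet_A (n : ℕ) (y : ℂ) : bet n ∅ * mon y n 0 0 = y ^ n • bet n ∅ :=
  single_mul_vac fun s => (vac_row y n s).1

theorem bet_D (n : ℕ) (y : ℂ) : bet n ∅ * mon y n 1 1 = (y - 1) ^ n • bet n ∅ :=
  single_mul_vac fun s => (vac_row y n s).2.2

/-- wave function -/
noncomputable def wav (n : ℕ) (v : Cfg n → ℂ) (Z : Finset ℂ) : ℂ := (bet n Z *ᵥ v) (emb n [])

theorem poly_ext {n : ℕ} (Z W : Finset ℂ) (v : Cfg n → ℂ) (a b : Fin 2)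
    (h : ∀ y, y ∉ W → wav n (mon y n a b *ᵥ v) Z = 0) (y : ℂ) :
    wav n (mon y n a b *ᵥ v) Z = 0 := by
  let p : ℂ[X] := ∑ s, C (bet n Z (emb n []) s) * ∑ s', mon X n a b s s' * C (v s')
  have hp : ∀ y, p.eval y = wav n (mon y n a b *ᵥ v) Z := by
    intro y
    have := mon_map (evalRingHom y) X n a b
    rw [coe_evalRingHom, eval_X] at this
    simp [p, wav, mulVec, dotProduct, eval_finsetSum, ← this]
  have h0 : p = 0 := eq_zero_of_infinite_isRoot p
    (W.finite_toSet.infinite_compl.mono fun y hy => (hp y).trans (h y hy))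
  rw [← hp, h0, eval_zero]

theorem cyclic {n : ℕ} (l : List (Fin 2)) (hl : l.length ≤ n) (v : Cfg n → ℂ)
    (hv : ∀ Z, #Z = (l.map Fin.val).sum → wav n v Z = 0) : v (emb n l) = 0 := by
  induction l generalizing v with
  | nil => simpa [wav, bet_empty, single_mulVec] using hv ∅ rfl
  | cons a l ih =>
    have h1 : (mon 1 n a 0 *ᵥ v) (emb n l) = v (emb n (a :: l)) := by
      simp [mulVec, dotProduct, shift_row n a 0 l hl]
    rw [← h1]
    refine ih (Nat.le_of_succ_le hl) _ fun Z hZ => poly_ext Z Z v a 0 (fun y hy => ?_) 1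
    rw [wav, mulVec_mulVec]
    fin_cases a
    · have h2 := offshell (E := fun y => mon y n 0 0) (bet_insert n) (bet_A n)
        (fun x y => exA x y n) Z y hy
      have h3 : ∀ x ∈ Z, wav n v (insert y (Z.erase x)) = 0 := fun x hx => hv _ (by
        rw [card_insert_of_notMem (by simp [hy]), card_erase_add_one hx, hZ]
        simp)
      have h4 := hv Z (by simpa using hZ)
      simp only [wav] at h3 h4
      simp only [Fin.zero_eta, h2, add_mulVec, smul_mulVec, sum_mulVec, Pi.add_apply,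
        Pi.smul_apply, Finset.sum_apply, h4, smul_zero, zero_add]
      exact sum_eq_zero fun x hx => by rw [h3 x hx, smul_zero]
    · have := hv (insert y Z) (by rw [card_insert_of_notMem hy, hZ]; simp [add_comm])
      rwa [wav, bet_insert n Z y hy] at this

/-- common eigenvectors of the transfer matrices -/
def Eig (N : ℕ) (T : ℂ[X]) (v : Cfg N → ℂ) : Prop := ∀ y, tr y N *ᵥ v = T.eval y • v

/-- vectors with `M` down spins -/
def Sec (N M : ℕ) (v : Cfg N → ℂ) : Prop := ∀ s, wt N s ≠ M → v s = 0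

theorem Sec.zero {N M : ℕ} {v : Cfg N → ℂ} (h : Sec N M v) (hv : ∀ Z, #Z = M → wav N v Z = 0) :
    v = 0 := by
  funext s
  by_cases hs : wt N s = M
  · obtain ⟨l, h1, h2, h3⟩ := exists_emb N s
    rw [← h2]
    exact cyclic l h1.le v (by rwa [h3, hs])
  · exact h s hs

theorem Eig.rel {N : ℕ} {T : ℂ[X]} {v : Cfg N → ℂ} (h : Eig N T v) (M : ℕ) :
    Rel N M T (wav N v) := by
  intro Y hY g hg
  have hg' : g.degree < #Y := by
    rw [hY]
    exact degree_le_natDegree.trans_lt (by exact_mod_cast Nat.lt_succ_of_le hg)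
  have h1 := offshell' (E := fun y => mon y N 0 0) (bet_insert N) (bet_A N)
    (fun x y => exA x y N) hg'
  have h2 := offshell' (E := fun y => mon y N 1 1) (bet_insert N) (bet_D N)
    (fun x y => exD x y N) hg'
  have h3 := congrArg (fun A => (A *ᵥ v) (emb N [])) (congrArg₂ (· + ·) h1 h2)
  simp only [← sum_add_distrib, ← smul_add, ← mul_add, ← add_smul] at h3
  have h4 : ∀ x : ℂ, mon x N 0 0 + mon x N 1 1 = tr x N := fun _ => rfl
  simp only [h4, sum_mulVec, smul_mulVec, ← mulVec_mulVec, h _, mulVec_smul, Finset.sum_apply,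
    Pi.smul_apply, smul_eq_mul] at h3
  rw [← sub_eq_zero, ← sum_sub_distrib] at h3
  rw [← h3]
  refine sum_congr rfl fun x _ => ?_
  rw [bax_eval, wav]
  ring

theorem Eig.unique {N M : ℕ} (hN : 2 * M ≤ N) {T : ℂ[X]} {v u : Cfg N → ℂ} (h : Eig N T v)
    (h' : Eig N T u) (hv : Sec N M v) (hu : Sec N M u) (h0 : v ≠ 0) : ∃ c : ℂ, u = c • v := by
  obtain ⟨Z, hZ, hF⟩ : ∃ Z, #Z = M ∧ wav N v Z ≠ 0 := by
    by_contra hc
    push Not at hc
    exact h0 (hv.zero hc)
  refine ⟨wav N u Z / wav N v Z, sub_eq_zero.mp ?_⟩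
  have h1 : Eig N T (u - (wav N u Z / wav N v Z) • v) := fun y => by
    rw [mulVec_sub, mulVec_smul, h y, h' y, smul_sub, smul_comm]
  have h2 : Sec N M (u - (wav N u Z / wav N v Z) • v) := fun s hs => by simp [hv s hs, hu s hs]
  refine h2.zero ((h.rel M).unique hN (h1.rel M) hZ hF ?_)
  rw [wav, mulVec_sub, mulVec_smul, Pi.sub_apply, Pi.smul_apply, smul_eq_mul]
  exact sub_eq_zero.mpr (div_mul_cancel₀ _ hF).symm

theorem Eig.fus {N : ℕ} {T : ℂ[X]} {v : Cfg N → ℂ} (h : Eig N T v) (h0 : v ≠ 0) :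
    ∃ G, T * taylor 1 T = (X ^ 2 - 1) ^ N + X ^ N * G := by
  obtain ⟨S, hS⟩ := fusion (X : ℂ[X]) N
  obtain ⟨s, hs⟩ := Function.ne_iff.mp h0
  refine ⟨C (2 * v s)⁻¹ * ∑ s', S s s' * C (v s'), Polynomial.funext fun y => ?_⟩
  have h1 : (2 : ℂ) • (tr y N * tr (y + 1) N) =
      (2 * (y ^ 2 - 1) ^ N) • 1 + y ^ N • S.map (eval y) := by
    have h2 := tr_map (evalRingHom y) X N
    have h3 := tr_map (evalRingHom y) (X + 1) N
    simp only [coe_evalRingHom, eval_add, eval_X, eval_one] at h2 h3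
    ext a b
    have h4 := congrArg (eval y) (congrFun (congrFun hS a) b)
    rw [← h2, ← h3]
    simpa [Matrix.mul_apply, eval_finsetSum, Matrix.one_apply, apply_ite (eval y)] using h4
  have h2 := congrFun (congrArg (· *ᵥ v) h1) s
  simp only [smul_mulVec, ← mulVec_mulVec, h _, mulVec_smul, add_mulVec, one_mulVec,
    Pi.smul_apply, Pi.add_apply, smul_eq_mul] at h2
  have h3 : v s ≠ 0 := hs
  simp only [mulVec, dotProduct, map_apply] at h2
  simp only [eval_mul, taylor_eval, eval_add, eval_pow, eval_sub, eval_X, eval_one, eval_C,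
    eval_finsetSum]
  field_simp
  linear_combination h2

/-- reality of the eigenvalue of the transfer matrix -/
def Herm (N : ℕ) (T : ℂ[X]) : Prop :=
  ∀ r : ℝ, star (T.eval (1 / 2 + r * Complex.I)) = (-1) ^ N * T.eval (1 / 2 + r * Complex.I)

theorem Eig.phys {N M : ℕ} (hN : 2 * M ≤ N) {T : ℂ[X]} {v : Cfg N → ℂ} (h : Eig N T v)
    (hv : Sec N M v) (h0 : v ≠ 0) :
    ∃ Q : ℂ[X], Q.natDegree ≤ M ∧ Phys N Q.natDegree Q ∧ TQ N T Q := by
  obtain ⟨Z, hZ, hF⟩ : ∃ Z, #Z = M ∧ wav N v Z ≠ 0 := by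
    by_contra hc
    push Not at hc
    exact h0 (hv.zero hc)
  obtain ⟨Q, hQ, dQ, tQ⟩ := (h.rel M).exists hZ hF
  obtain ⟨G, hG⟩ := h.fus h0
  obtain ⟨a, Q1, Q2, h1, h2, h3, h4, h5⟩ := tQ.decomp hQ.ne_zero (by omega)
  refine ⟨Q, dQ, ⟨hQ, rfl, exists_wr tQ hQ.ne_zero h1 h2 h3 h4 (by omega) ?_⟩, tQ⟩
  rw [fus_of_fusion tQ hG]
  refine dvd_sub (Dvd.dvd.mul_right ?_ _) ((pow_dvd_pow _ (by omega)).mul_right _)
  rw [two_mul, pow_add]
  exact mul_dvd_mul ⟨Q1, h1⟩ ⟨Q2, h2⟩

theorem star_line (r : ℝ) : 1 - star (1 / 2 + r * Complex.I : ℂ) = 1 / 2 + r * Complex.I := by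
  simp only [star_add, star_mul', Complex.star_def, Complex.conj_ofReal, Complex.conj_I, map_div₀,
    map_one, map_ofNat]
  ring

open scoped ComplexOrder in
theorem Eig.herm {N : ℕ} {T : ℂ[X]} {v : Cfg N → ℂ} (h : Eig N T v) (h0 : v ≠ 0) : Herm N T := by
  intro r
  set y : ℂ := 1 / 2 + r * Complex.I
  have h1 : star (tr y N *ᵥ v) ⬝ᵥ v = (-1) ^ N * (star v ⬝ᵥ (tr y N *ᵥ v)) := by
    rw [star_mulVec, adj_tr, star_line, ← dotProduct_mulVec, smul_mulVec, dotProduct_smul,
      smul_eq_mul]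
  rw [h y, star_smul, smul_dotProduct, dotProduct_smul, smul_eq_mul, smul_eq_mul,
    ← mul_assoc] at h1
  exact mul_right_cancel₀ (fun h => h0 (dotProduct_star_self_eq_zero.mp h)) h1

theorem exists_eig {N : ℕ} {v : Cfg N → ℂ} (h0 : v ≠ 0)
    (h : ∀ r : ℝ, ∃ c : ℂ, tr (1 / 2 + r * Complex.I) N *ᵥ v = c • v) : ∃ T, Eig N T v := by
  obtain ⟨s, hs⟩ := Function.ne_iff.mp h0
  have h3 : v s ≠ 0 := hs
  let p : Cfg N → ℂ[X] := fun a => ∑ s', tr X N a s' * C (v s')
  have hp : ∀ y a, (p a).eval y = (tr y N *ᵥ v) a := by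
    intro y a
    have h2 := tr_map (evalRingHom y) X N
    rw [coe_evalRingHom, eval_X] at h2
    simp [p, mulVec, dotProduct, eval_finsetSum, ← h2]
  refine ⟨p s * C (v s)⁻¹, fun y => funext fun a => ?_⟩
  have h1 : p a = p s * C (v s)⁻¹ * C (v a) := by
    refine eq_of_infinite_eval_eq _ _ (Set.infinite_of_injective_forall_mem
      (f := fun r : ℝ => (1 / 2 + r * Complex.I : ℂ)) (fun a b hab => ?_) fun r => ?_)
    · simpa using hab
    · obtain ⟨c, hc⟩ := h r
      simp only [Set.mem_setOf_eq, eval_mul, hp, hc, eval_C, Pi.smul_apply, smul_eq_mul]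
      field_simp
  rw [← hp, h1, eval_mul, eval_C, Pi.smul_apply, smul_eq_mul]

theorem lower {N M : ℕ} (hN : 2 * M ≤ N) (S : Finset ℂ[X])
    (hS : ∀ Q T, Q.natDegree ≤ M → Phys N Q.natDegree Q → TQ N T Q → Herm N T → Q ∈ S) :
    N.choose M ≤ #S := by
  classical
  have h1 : ∀ Q : ℂ[X], ∃ v : Cfg N → ℂ, Q ≠ 0 → ∀ T u, TQ N T Q → Eig N T u → Sec N M u →
      ∃ c : ℂ, u = c • v := by
    intro Q
    by_cases h : ∃ T v, TQ N T Q ∧ Eig N T v ∧ Sec N M v ∧ v ≠ 0
    · obtain ⟨T, v, h1, h2, h3, h4⟩ := h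
      refine ⟨v, fun hQ T' u h5 h6 h7 => ?_⟩
      obtain rfl : T = T' := mul_right_cancel₀ hQ (h1.trans h5.symm)
      exact h2.unique hN h6 h3 h7 h4
    · push Not at h
      exact ⟨0, fun _ T u h5 h6 h7 => ⟨0, by rw [h T u h5 h6 h7, zero_smul]⟩⟩
  choose v hv using h1
  let π : (Cfg N → ℂ) →ₗ[ℂ] (Cfg N → ℂ) :=
    (diagonal fun s => if wt N s = M then (1 : ℂ) else 0).mulVecLin
  have hπ : ∀ u s, π u s = if wt N s = M then u s else 0 := by
    intro u s
    simp [π, mulVec_diagonal]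
  have hc : ∀ (y : ℂ) u, tr y N *ᵥ π u = π (tr y N *ᵥ u) := by
    intro y u
    funext s
    have h2 : ∀ s', wt N s ≠ wt N s' → tr y N s s' = 0 := fun s' h => by
      rw [tr, Matrix.add_apply, ice y N 0 0 s s' (by omega), ice y N 1 1 s s' (by omega), add_zero]
    simp only [hπ, mulVec, dotProduct]
    split_ifs with h
    · refine sum_congr rfl fun s' _ => ?_
      split_ifs with h'
      · rfl
      · rw [h2 s' (by omega), zero_mul, zero_mul]
    · refine sum_eq_zero fun s' _ => ?_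
      split_ifs with h'
      · rw [h2 s' (by omega), zero_mul]
      · rw [mul_zero]
  let H : ℝ → EuclideanSpace ℂ (Cfg N) →ₗ[ℂ] EuclideanSpace ℂ (Cfg N) := fun r =>
    toEuclideanLin (Complex.I ^ N • tr (1 / 2 + r * Complex.I) N)
  have hH : ∀ r, (H r).IsSymmetric := fun r => isSymmetric_toEuclideanLin_iff.mpr (by
    rw [IsHermitian, conjTranspose_smul, adj_tr, star_line, smul_smul, star_pow, ← mul_pow]
    simp)
  have hH' : Pairwise (Function.onFun Commute H) := fun r t _ => by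
    have := congrArg (toLpLin 2 2) (show (Complex.I ^ N • tr (1 / 2 + r * Complex.I) N) *
      (Complex.I ^ N • tr (1 / 2 + t * Complex.I) N) = (Complex.I ^ N • tr (1 / 2 + t * Complex.I) N)
        * (Complex.I ^ N • tr (1 / 2 + r * Complex.I) N) by
          simp only [smul_mul_smul_comm]
          rw [tr_comm])
    rw [toLpLin_mul_same, toLpLin_mul_same] at this
    exact this
  have h2 : ∀ u : EuclideanSpace ℂ (Cfg N),
      π u.ofLp ∈ Submodule.span ℂ ((S.image v : Finset _) : Set (Cfg N → ℂ)) := by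
    intro u
    have hu : u ∈ ⨆ χ : ℝ → ℂ, ⨅ r, Module.End.eigenspace (H r) (χ r) := by
      rw [LinearMap.IsSymmetric.iSup_iInf_eq_top_of_commute hH hH']
      trivial
    induction hu using Submodule.iSup_induction' with
    | zero => simp
    | add x y _ _ hx hy => simpa using Submodule.add_mem _ hx hy
    | mem χ u hu =>
      by_cases h0 : π u.ofLp = 0
      · simp [h0]
      obtain ⟨T, hT⟩ := exists_eig h0 fun r => ⟨(Complex.I ^ N)⁻¹ * χ r, by
        have h3 := congrArg WithLp.ofLp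
          (Module.End.mem_eigenspace_iff.mp ((Submodule.mem_iInf _).mp hu r))
        have h4 : Complex.I ^ N • (tr (1 / 2 + r * Complex.I) N *ᵥ u.ofLp) = χ r • u.ofLp := by
          rw [← smul_mulVec]
          exact h3
        rw [hc, ← map_smul, mul_smul, ← h4, inv_smul_smul₀ (pow_ne_zero _ Complex.I_ne_zero)]⟩
      have hs : Sec N M (π u.ofLp) := fun s hs => by rw [hπ, if_neg hs]
      obtain ⟨Q, h3, h4, h5⟩ := hT.phys hN hs h0
      obtain ⟨c, hc⟩ := hv Q h4.1.ne_zero T _ h5 hT hs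
      rw [hc]
      exact Submodule.smul_mem _ _ (Submodule.subset_span
        (mem_coe.mpr (mem_image_of_mem v (hS Q T h3 h4 h5 (hT.herm h0)))))
  have h3 := linearIndependent_le_span_aux' _
    ((Pi.linearIndependent_single_one (Cfg N) ℂ).comp
      (Subtype.val : {s // wt N s = M} → Cfg N) Subtype.val_injective) _ (by
        rintro _ ⟨s, rfl⟩
        have h4 := h2 (WithLp.toLp 2 (Pi.single s.1 1))
        have h5 : π (Pi.single s.1 1) = Pi.single s.1 1 := by
          funext t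
          rw [hπ]
          split_ifs with h
          · rfl
          · rw [Pi.single_eq_of_ne fun h' => h (by rw [h', s.2])]
        rw [h5] at h4
        exact h4)
  rw [Fintype.card_subtype, card_wt] at h3
  simp only [coe_sort_coe, Fintype.card_coe] at h3
  exact h3.trans card_image_le

theorem phys_finite {N M : ℕ} (hN : 2 * M ≤ N) : {Q : ℂ[X] | Phys N M Q}.Finite := by
  by_contra h
  obtain ⟨S, h1, h2⟩ := Set.Infinite.exists_subset_card_eq h (N.choose M + 1)
  have := upper' hN S fun Q hQ => h1 hQ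
  omega

theorem count_aux {N M : ℕ} (hN : 2 * M ≤ N) (p : ℂ[X] → Prop)
    (hp : ∀ Q T, TQ N T Q → Herm N T → p Q) :
    N.choose M ≤ {Q : ℂ[X] | Phys N M Q ∧ p Q}.ncard + (if M = 0 then 0 else N.choose (M - 1)) := by
  classical
  have h1 : ∀ m, 2 * m ≤ N → ∃ S : Finset ℂ[X], #S ≤ N.choose m ∧
      ∀ Q, Q.natDegree ≤ m → Phys N Q.natDegree Q → Q ∈ S := by
    intro m
    induction m with
    | zero =>
      intro hm
      refine ⟨(phys_finite hm).toFinset, by simpa using upper' hm _ (by simp), fun Q h h' => ?_⟩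
      rw [Nat.le_zero.mp h] at h'
      simpa using h'
    | succ m ih =>
      intro hm
      obtain ⟨S, h2, h3⟩ := ih (by omega)
      have h4 := upper' hm (phys_finite hm).toFinset (by simp)
      refine ⟨(phys_finite hm).toFinset ∪ S, (card_union_le _ _).trans ?_, fun Q h h' => ?_⟩
      · simp only [Nat.add_eq_zero_iff, one_ne_zero, and_false, if_false,
          Nat.add_sub_cancel] at h4
        omega
      · rcases h.eq_or_lt with h | h
        · rw [h] at h'
          exact mem_union_left _ (by simpa using h')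
        · exact mem_union_right _ (h3 Q (by omega) h')
  have hf : {Q : ℂ[X] | Phys N M Q ∧ p Q}.Finite := (phys_finite hN).subset fun _ h => h.1
  rw [Set.ncard_eq_toFinset_card _ hf]
  rcases M with _ | M
  · refine (lower hN hf.toFinset fun Q T h h' h2 h3 => ?_).trans (Nat.le_add_right _ _)
    rw [Nat.le_zero.mp h] at h'
    simpa using ⟨h', hp Q T h2 h3⟩
  · obtain ⟨S, h2, h3⟩ := h1 M (by omega)
    refine (lower hN (hf.toFinset ∪ S) fun Q T h h' h4 h5 => ?_).trans
      ((card_union_le _ _).trans (by simpa using h2))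
    rcases h.eq_or_lt with h | h
    · rw [h] at h'
      exact mem_union_left _ (by simpa using ⟨h', hp Q T h4 h5⟩)
    · exact mem_union_right _ (h3 Q (by omega) h')

theorem count {N M : ℕ} (hN : 2 * M ≤ N) :
    {Q : ℂ[X] | Phys N M Q}.ncard + (if M = 0 then 0 else N.choose (M - 1)) = N.choose M := by
  refine le_antisymm ?_ (by simpa using count_aux hN (fun _ => True) fun _ _ _ _ => trivial)
  rw [Set.ncard_eq_toFinset_card _ (phys_finite hN)]
  exact upper' hN _ (by simp)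

theorem Phys.herm {N M : ℕ} (hN : 2 * M ≤ N) {Q : ℂ[X]} (h : Phys N M Q) :
    ∃ T, TQ N T Q ∧ Herm N T := by
  have h1 := count_aux hN (fun Q => ∃ T, TQ N T Q ∧ Herm N T) fun _ T h h' => ⟨T, h, h'⟩
  have h2 := Set.eq_of_subset_of_ncard_le (s := {Q | Phys N M Q ∧ ∃ T, TQ N T Q ∧ Herm N T})
    (t := {Q | Phys N M Q}) (fun _ h => h.1) (by have := count hN; omega) (phys_finite hN)
  have h3 : Q ∈ {Q | Phys N M Q ∧ ∃ T, TQ N T Q ∧ Herm N T} := h2 ▸ h
  exact h3.2

end Pool.Agent.MP_c0c29f_mp.H97
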