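import Mathlib
import Pool.Agent.MP_c0c29f_mp.H97.Fin
import Pool.Agent.MP_c0c29f_mp.H97.Lower

/-!
From polynomials to sets of Bethe roots.
-/

namespace Pool.Agent.MP_c0c29f_mp.H97

open Finset Polynomial

/-- the polynomial with a given set of roots -/
noncomputable def pol (Y : Finset ℂ) : ℂ[X] := ∏ y ∈ Y, (X - C y)

theorem pol_monic (Y : Finset ℂ) : (pol Y).Monic := monic_prod_of_monic _ _ fun _ _ => monic_X_sub_C _

theorem pol_deg (Y : Finset ℂ) : (pol Y).natDegree = #Y := by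
  simp [pol]

theorem pol_eval (Y : Finset ℂ) (t : ℂ) : (pol Y).eval t = ∏ y ∈ Y, (t - y) := by
  simp [pol, eval_prod]

theorem pol_roots (Y : Finset ℂ) : (pol Y).roots = Y.val := roots_prod_X_sub_C Y

theorem pol_zero {Y : Finset ℂ} {t : ℂ} : (pol Y).eval t = 0 ↔ t ∈ Y := by
  simp [pol_eval, prod_eq_zero_iff, sub_eq_zero]

theorem pol_inj : Function.Injective pol := fun Y Z h =>
  val_injective (by rw [← pol_roots, h, pol_roots])

/-- Bethe equations in the shifted coordinate -/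
def BA (N : ℕ) (Y : Finset ℂ) : Prop :=
  ∀ y ∈ Y, y ^ N * ∏ z ∈ Y.erase y, (y - 1 - z) = (y - 1) ^ N * ∏ z ∈ Y.erase y, (y + 1 - z)

theorem BA_iff {N : ℕ} {Y : Finset ℂ} : BA N Y ↔ ∃ T, TQ N T (pol Y) := by
  have h1 : ∀ y ∈ Y, y ^ N * (pol Y).eval (y - 1) + (y - 1) ^ N * (pol Y).eval (y + 1) =
      (y - 1) ^ N * ∏ z ∈ Y.erase y, (y + 1 - z) - y ^ N * ∏ z ∈ Y.erase y, (y - 1 - z) := by
    intro y hy
    rw [pol_eval, pol_eval, ← mul_prod_erase Y _ hy, ← mul_prod_erase Y _ hy]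
    ring
  constructor
  · intro h
    have : pol Y ∣ X ^ N * taylor (-1) (pol Y) + (X - 1) ^ N * taylor 1 (pol Y) := by
      refine Finset.prod_dvd_of_coprime (fun a _ b _ hab => isCoprime_X_sub_C_of_isUnit_sub
        (sub_ne_zero.mpr hab).isUnit) fun y hy => dvd_iff_isRoot.mpr ?_
      have := h1 y hy
      rw [h y hy, sub_self] at this
      simpa [taylor_eval, sub_eq_add_neg] using this
    obtain ⟨T, hT⟩ := this
    exact ⟨T, by rw [TQ, hT, mul_comm]⟩
  · rintro ⟨T, hT⟩ y hy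
    have := hT.eval y
    rw [pol_zero.mpr hy, mul_zero, h1 y hy] at this
    exact (sub_eq_zero.mp this.symm).symm

theorem BA.prod {N : ℕ} {W : Finset ℂ} (hN : 1 ≤ N) (h0 : 0 ∉ W) (h1 : 1 ∉ W)
    (h : BA N (insert 1 (insert 0 W))) :
    (∏ z ∈ W, z) ^ (N - 1) * ∏ z ∈ W, (z - 2) = (∏ z ∈ W, (z - 1)) ^ (N - 1) * ∏ z ∈ W, (z + 1) := by
  obtain ⟨T, hT⟩ := BA_iff.mp h
  obtain ⟨n, rfl⟩ : ∃ n, N = n + 1 := ⟨N - 1, by omega⟩
  have h2 : ∀ z ∈ W, z ^ n * (z - 2) * ∏ x ∈ W.erase z, (z - 1 - x) =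
      (z - 1) ^ n * (z + 1) * ∏ x ∈ W.erase z, (z + 1 - x) := by
    intro z hz
    have hz0 : z ≠ 0 := fun h => h0 (h ▸ hz)
    have hz1 : z ≠ 1 := fun h => h1 (h ▸ hz)
    have h3 := h z (by simp [hz])
    rw [erase_insert_of_ne hz1.symm, erase_insert_of_ne hz0.symm,
      prod_insert (by simp [h1]), prod_insert (by simp [h0]), prod_insert (by simp [h1]),
      prod_insert (by simp [h0])] at h3
    apply mul_left_cancel₀ (mul_ne_zero hz0 (sub_ne_zero.mpr hz1))
    linear_combination h3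
  have h3 := prod_congr rfl h2
  simp only [prod_mul_distrib, prod_pow] at h3
  have h4 : ∏ z ∈ W, ∏ x ∈ W.erase z, (z + 1 - x) = ∏ z ∈ W, ∏ x ∈ W.erase z, (z - 1 - x) := by
    rw [prod_comm' (t' := W) (s' := fun x => W.erase x) (by
      intro x y
      simp only [mem_erase]
      tauto)]
    have : ∀ z ∈ W, ∏ x ∈ W.erase z, (x + 1 - z) = (-1) ^ (#W - 1) * ∏ x ∈ W.erase z, (z - 1 - x) := by
      intro z hz
      rw [← card_erase_of_mem hz, ← prod_const, ← prod_mul_distrib]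
      exact prod_congr rfl fun x _ => by ring
    rw [prod_congr rfl this, prod_mul_distrib, prod_const, ← pow_mul, mul_comm (#W - 1),
      (Nat.even_mul_pred_self _).neg_one_pow, one_mul]
  rw [h4] at h3
  refine mul_right_cancel₀ (prod_ne_zero_iff.mpr fun z hz => prod_ne_zero_iff.mpr fun x hx h5 => ?_) h3
  have h6 : x = 0 := hT.adj (pol_monic _).ne_zero (pol_zero.mpr (by simp [(mem_erase.mp hx).2]))
    (pol_zero.mpr (by
      rw [show x + 1 = z by linear_combination -h5]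
      simp [hz]))
  exact h0 (h6 ▸ (mem_erase.mp hx).2)

theorem fus_sing (N : ℕ) (R : ℂ[X]) : X ^ 2 ∣ Fus N ((X - 1) * (X * R)) ↔
    R.eval 0 * R.eval (-1) = (-1) ^ N * (R.eval 1 * R.eval 2) := by
  have h1 : Fus N ((X - 1) * (X * R)) = X * ((X + 1) ^ N * ((X - 1) * R) *
      taylor (-1) ((X - 1) * (X * R)) + (X - 1) ^ N * ((X + 1) * taylor 1 R) *
        taylor 2 ((X - 1) * (X * R))) := by
    have : taylor 1 ((X - 1) * (X * R)) = X * ((X + 1) * taylor 1 R) := by simp [taylor_mul]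
    rw [Fus, this]
    ring
  rw [h1, pow_two, mul_dvd_mul_iff_left X_ne_zero, X_dvd_iff, coeff_zero_eq_eval_zero]
  simp only [eval_add, eval_mul, eval_pow, eval_sub, eval_X, eval_one, taylor_eval, zero_add,
    zero_sub, one_pow]
  constructor
  · intro h
    linear_combination (-1 / 2) * h
  · intro h
    linear_combination (-2) * h

theorem phys_sing {N : ℕ} {W : Finset ℂ} (hN : 2 * (#W + 2) ≤ N) (h0 : 0 ∉ W) (h1 : 1 ∉ W)
    (h : BA N (insert 1 (insert 0 W))) :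
    Phys N (#W + 2) (pol (insert 1 (insert 0 W))) ↔ (-∏ z ∈ W, z / (z - 1)) ^ N = 1 := by
  obtain ⟨T, hT⟩ := BA_iff.mp h
  have h2 := h.prod (by omega) h0 h1
  have e : pol (insert 1 (insert 0 W)) = (X - 1) * (X * pol W) := by
    rw [pol, prod_insert (by simp [h1]), prod_insert h0, map_zero, sub_zero, map_one, pol]
  have hc : #(insert 1 (insert 0 W)) = #W + 2 := by
    rw [card_insert_of_notMem (by simp [h1]), card_insert_of_notMem h0]
  have h3 : Phys N (#W + 2) (pol (insert 1 (insert 0 W))) ↔ X ^ 2 ∣ Fus N ((X - 1) * (X * pol W)) := by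
    constructor
    · rintro ⟨-, -, P, hP⟩
      rw [← e, fus_of_wr hP]
      refine dvd_sub (Dvd.dvd.mul_right ?_ _) ((pow_dvd_pow _ (by omega)).mul_right _)
      rw [pow_two]
      refine mul_dvd_mul ?_ ?_ <;> rw [X_dvd_iff, coeff_zero_eq_eval_zero]
      · exact pol_zero.mpr (by simp)
      · rw [taylor_eval]
        exact pol_zero.mpr (by simp)
    · intro h3
      refine ⟨pol_monic _, by rw [pol_deg, hc], exists_wr (a := 1) (Q1 := (X - 1) * pol W)
        (Q2 := (X + 1) * taylor 1 (pol W)) hT (pol_monic _).ne_zero (by rw [e]; ring)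
        (by rw [e]; simp [taylor_mul]) ?_ ?_ (by omega) (by rwa [e])⟩
      · simpa [pol_zero] using h0
      · simpa [taylor_eval, pol_zero] using h1
  have h4 : ∀ c : ℂ, (pol W).eval c = (-1) ^ #W * ∏ z ∈ W, (z - c) := by
    intro c
    rw [pol_eval, ← prod_const, ← prod_mul_distrib]
    exact prod_congr rfl fun x _ => by ring
  have h5 : ∏ z ∈ W, (z - 1) ≠ 0 :=
    prod_ne_zero_iff.mpr fun z hz h => h1 (sub_eq_zero.mp h ▸ hz)
  have h6 : ∏ z ∈ W, (z - 2) ≠ 0 := prod_ne_zero_iff.mpr fun z hz h => by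
    have := hT.adj (pol_monic _).ne_zero (z := 1) (pol_zero.mpr (by simp)) (pol_zero.mpr (by
      rw [show (1 : ℂ) + 1 = z by linear_combination -h]
      simp [hz]))
    simp at this
  rw [h3, fus_sing, h4, h4, h4, h4, prod_div_distrib, neg_pow (_ / _), div_pow, ← mul_div_assoc,
    div_eq_one_iff_eq (pow_ne_zero _ h5)]
  simp only [sub_zero, sub_neg_eq_add]
  obtain ⟨n, rfl⟩ : ∃ n, N = n + 1 := ⟨N - 1, by omega⟩
  rw [Nat.add_sub_cancel] at h2
  have h7 : ((-1 : ℂ) ^ #W) * (-1) ^ #W = 1 := by rw [← mul_pow]; simp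
  have h8 : ((-1 : ℂ) ^ (n + 1)) * (-1) ^ (n + 1) = 1 := by rw [← mul_pow]; simp
  generalize (-1 : ℂ) ^ #W = s at *
  generalize (-1 : ℂ) ^ (n + 1) = t at *
  generalize ∏ z ∈ W, (z - 1) = a at *
  generalize ∏ z ∈ W, (z - 2) = b at *
  generalize ∏ z ∈ W, (z + 1) = c at *
  generalize ∏ z ∈ W, z = d at *
  constructor
  · intro h
    apply mul_right_cancel₀ h6
    linear_combination (t * d) * h2 + (t * a ^ n) * h + (a ^ (n + 1) * b * s * s) * h8 +
      (a ^ (n + 1) * b - t * a ^ n * c * d) * h7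
  · intro h
    apply mul_left_cancel₀ (pow_ne_zero n h5)
    linear_combination (-(s * s * d)) * h2 + (s * s * t * b) * h - (s * s * b * d ^ (n + 1)) * h8

theorem count_y {N M : ℕ} (hN : 2 * M ≤ N) :
    {Y : Finset ℂ | #Y = M ∧ BA N Y}.Finite ∧
      ({Y : Finset ℂ | #Y = M ∧ BA N Y}.ncard : ℤ) -
        {Y : Finset ℂ | #Y = M ∧ BA N Y ∧ 1 ∈ Y ∧ 0 ∈ Y}.ncard +
        {Y : Finset ℂ | #Y = M ∧ BA N Y ∧ 1 ∈ Y ∧ 0 ∈ Y ∧
          (-∏ z ∈ (Y.erase 1).erase 0, z / (z - 1)) ^ N = 1}.ncard =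
        {Q : ℂ[X] | Phys N M Q ∧ Q.roots.Nodup}.ncard := by
  set A := {Y : Finset ℂ | #Y = M ∧ BA N Y}
  set S := {Y : Finset ℂ | #Y = M ∧ BA N Y ∧ 1 ∈ Y ∧ 0 ∈ Y}
  set P := {Y : Finset ℂ | #Y = M ∧ BA N Y ∧ 1 ∈ Y ∧ 0 ∈ Y ∧
    (-∏ z ∈ (Y.erase 1).erase 0, z / (z - 1)) ^ N = 1}
  have hA : A.Finite := Set.Finite.of_finite_image ((TQ_finite hN).subset (by
    rintro _ ⟨Y, hY, rfl⟩
    exact ⟨pol_monic Y, (pol_deg Y).trans hY.1, BA_iff.mp hY.2⟩)) pol_inj.injOn
  have hSA : S ⊆ A := fun Y h => ⟨h.1, h.2.1⟩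
  have hPS : P ⊆ S := fun Y h => ⟨h.1, h.2.1, h.2.2.1, h.2.2.2.1⟩
  have hs : ∀ Y ∈ S, Phys N M (pol Y) ↔ Y ∈ P := by
    rintro Y ⟨h1, h2, h3, h4⟩
    have e : insert 1 (insert 0 ((Y.erase 1).erase 0)) = Y := by
      rw [insert_erase (by simp [h4]), insert_erase h3]
    have hc : #((Y.erase 1).erase 0) + 2 = M := by
      rw [← h1, ← card_erase_add_one h3, ← card_erase_add_one (s := Y.erase 1) (a := 0) (by simp [h4])]
    have := phys_sing (N := N) (W := (Y.erase 1).erase 0) (by omega) (by simp) (by simp)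
      (by rwa [e])
    rw [e, hc] at this
    exact this.trans ⟨fun h => ⟨h1, h2, h3, h4, h⟩, fun h => h.2.2.2.2⟩
  have him : pol '' (A \ S ∪ P) = {Q | Phys N M Q ∧ Q.roots.Nodup} := by
    ext Q
    constructor
    · rintro ⟨Y, hY, rfl⟩
      refine ⟨?_, by rw [pol_roots]; exact Y.nodup⟩
      rcases hY with ⟨hY, hY'⟩ | hY
      · obtain ⟨T, hT⟩ := BA_iff.mp hY.2
        have hd := (pol_deg Y).trans hY.1
        obtain ⟨a, Q1, Q2, h1, h2, h3, h4, -⟩ := hT.decomp (pol_monic Y).ne_zero (by omega)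
        have ha : a = 0 := by
          by_contra ha
          refine hY' ⟨hY.1, hY.2, pol_zero.mp ?_, pol_zero.mp ?_⟩
          · simpa [taylor_eval, ha] using congrArg (eval 0) h2
          · simpa [ha] using congrArg (eval 0) h1
        exact ⟨pol_monic Y, hd, exists_wr hT (pol_monic Y).ne_zero h1 h2 h3 h4 (by omega)
          (by simp [ha])⟩
      · exact (hs Y (hPS hY)).mpr hY
    · rintro ⟨hQ, hsq⟩
      have h1 : pol Q.roots.toFinset = Q := by
        rw [pol, prod_eq_multiset_prod, Multiset.toFinset_val, hsq.dedup]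
        exact ((IsAlgClosed.splits Q).eq_prod_roots_of_monic hQ.1).symm
      have h2 : Q.roots.toFinset ∈ A := by
        obtain ⟨h2, h3, P, hP⟩ := hQ
        exact ⟨by rw [← pol_deg, h1, h3], BA_iff.mpr ⟨_, by rw [h1]; exact TQ_of_wr hP⟩⟩
      refine ⟨_, ?_, h1⟩
      by_cases h3 : Q.roots.toFinset ∈ S
      · exact Or.inr ((hs _ h3).mp (by rwa [h1]))
      · exact Or.inl ⟨h2, h3⟩
  rw [← him, Set.ncard_image_of_injective _ pol_inj, Set.ncard_union_eq
    (Set.disjoint_of_subset_right hPS Set.disjoint_sdiff_left) (hA.subset Set.diff_subset)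
    (hA.subset (hPS.trans hSA))]
  have h2 := Set.ncard_diff_add_ncard_of_subset hSA hA
  exact ⟨hA, by omega⟩

/-- change of coordinate -/
noncomputable def chg : ℂ ≃ ℂ where
  toFun x := 1 / 2 - Complex.I * x
  invFun y := Complex.I * (y - 1 / 2)
  left_inv x := by linear_combination (-x) * Complex.I_mul_I
  right_inv y := by linear_combination (1 / 2 - y) * Complex.I_mul_I

theorem count_l {N M : ℕ} (hN : 2 * M ≤ N) :
    {S : Finset ℂ | S.card = M ∧ ∀ x ∈ S,
          (x + Complex.I / 2) ^ N * ∏ y ∈ S.erase x, (x - y - Complex.I) =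
          (x - Complex.I / 2) ^ N * ∏ y ∈ S.erase x, (x - y + Complex.I)}.Finite ∧
      ((Set.ncard {S : Finset ℂ | S.card = M ∧ ∀ x ∈ S,
          (x + Complex.I / 2) ^ N * ∏ y ∈ S.erase x, (x - y - Complex.I) =
          (x - Complex.I / 2) ^ N * ∏ y ∈ S.erase x, (x - y + Complex.I)} : ℤ)
        - (Set.ncard {S : Finset ℂ | S.card = M ∧ (∀ x ∈ S,
          (x + Complex.I / 2) ^ N * ∏ y ∈ S.erase x, (x - y - Complex.I) =
          (x - Complex.I / 2) ^ N * ∏ y ∈ S.erase x, (x - y + Complex.I)) ∧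
          Complex.I / 2 ∈ S ∧ -(Complex.I / 2) ∈ S} : ℤ)
        + (Set.ncard {S : Finset ℂ | S.card = M ∧ (∀ x ∈ S,
          (x + Complex.I / 2) ^ N * ∏ y ∈ S.erase x, (x - y - Complex.I) =
          (x - Complex.I / 2) ^ N * ∏ y ∈ S.erase x, (x - y + Complex.I)) ∧
          Complex.I / 2 ∈ S ∧ -(Complex.I / 2) ∈ S ∧
          (-∏ y ∈ (S.erase (Complex.I / 2)).erase (-(Complex.I / 2)),
              ((y + Complex.I / 2) / (y - Complex.I / 2))) ^ N = 1} : ℤ)
        = {Q : ℂ[X] | Phys N M Q ∧ Q.roots.Nodup}.ncard) := by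
  let f : Finset ℂ → Finset ℂ := fun S => S.map chg.toEmbedding
  have hf : Function.Bijective f := chg.finsetCongr.bijective
  have c : ∀ x, chg x = 1 / 2 - Complex.I * x := fun _ => rfl
  have e1 : ∀ x, x + Complex.I / 2 = Complex.I * chg x := fun x => by
    rw [c]
    linear_combination x * Complex.I_mul_I
  have e2 : ∀ x, x - Complex.I / 2 = Complex.I * (chg x - 1) := fun x => by
    rw [c]
    linear_combination x * Complex.I_mul_I
  have e3 : ∀ x y, x - y - Complex.I = Complex.I * (chg x - 1 - chg y) := fun x y => by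
    rw [c, c]
    linear_combination (x - y) * Complex.I_mul_I
  have e4 : ∀ x y, x - y + Complex.I = Complex.I * (chg x + 1 - chg y) := fun x y => by
    rw [c, c]
    linear_combination (x - y) * Complex.I_mul_I
  have e5 : chg (Complex.I / 2) = 1 := by
    rw [c]
    linear_combination (-1 / 2) * Complex.I_mul_I
  have e6 : chg (-(Complex.I / 2)) = 0 := by
    rw [c]
    linear_combination (1 / 2) * Complex.I_mul_I
  have h1 : ∀ S : Finset ℂ, (∀ x ∈ S,
      (x + Complex.I / 2) ^ N * ∏ y ∈ S.erase x, (x - y - Complex.I) =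
      (x - Complex.I / 2) ^ N * ∏ y ∈ S.erase x, (x - y + Complex.I)) ↔ BA N (f S) := by
    intro S
    simp only [BA, f, forall_mem_map]
    refine forall₂_congr fun x _ => ?_
    rw [← map_erase, prod_map, prod_map]
    simp only [e1, e2, e3, e4, prod_mul_distrib, mul_pow, Equiv.coe_toEmbedding]
    have h0 : Complex.I ^ N * ∏ _ ∈ S.erase x, Complex.I ≠ 0 := by simp
    refine Iff.trans ?_ (mul_right_inj' h0)
    constructor <;> intro h <;> linear_combination h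
  have h2 : ∀ S : Finset ℂ, Complex.I / 2 ∈ S ↔ 1 ∈ f S := fun S => by
    rw [← e5]
    exact (mem_map' chg.toEmbedding).symm
  have h3 : ∀ S : Finset ℂ, -(Complex.I / 2) ∈ S ↔ 0 ∈ f S := fun S => by
    rw [← e6]
    exact (mem_map' chg.toEmbedding).symm
  have h4 : ∀ S : Finset ℂ, ∏ y ∈ (S.erase (Complex.I / 2)).erase (-(Complex.I / 2)),
      ((y + Complex.I / 2) / (y - Complex.I / 2)) =
        ∏ z ∈ ((f S).erase 1).erase 0, z / (z - 1) := fun S => by
    have : ((f S).erase 1).erase 0 = f ((S.erase (Complex.I / 2)).erase (-(Complex.I / 2))) := by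
      simp only [f, map_erase, Equiv.coe_toEmbedding, e5, e6]
    rw [this, prod_map]
    exact prod_congr rfl fun y _ => by
      rw [e1, e2, mul_div_mul_left _ _ Complex.I_ne_zero, Equiv.coe_toEmbedding]
  have h5 : ∀ S : Finset ℂ, #S = #(f S) := fun S => (card_map _).symm
  have h6 : ∀ s : Set (Finset ℂ), (f ⁻¹' s).ncard = s.ncard := fun s =>
    Set.ncard_preimage_of_injective_subset_range hf.1 (by simp [hf.2.range_eq])
  obtain ⟨h7, h8⟩ := count_y hN
  rw [← h6, ← h6 {Y : Finset ℂ | #Y = M ∧ BA N Y ∧ 1 ∈ Y ∧ 0 ∈ Y},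
    ← h6 {Y : Finset ℂ | #Y = M ∧ BA N Y ∧ 1 ∈ Y ∧ 0 ∈ Y ∧ _}] at h8
  have h9 := h7.preimage hf.1.injOn
  simp only [Set.preimage_setOf_eq, ← h1, ← h2, ← h3, ← h4, ← h5] at h8 h9
  exact ⟨h9, h8⟩

theorem count_le {N M : ℕ} (hN : 2 * M ≤ N) :
    ({Q : ℂ[X] | Phys N M Q ∧ Q.roots.Nodup}.ncard : ℤ) ≤
      (N.choose M : ℤ) - (if M = 0 then (0 : ℤ) else (N.choose (M - 1) : ℤ)) := by
  have h1 := count hN
  have h2 := Set.ncard_le_ncard (s := {Q : ℂ[X] | Phys N M Q ∧ Q.roots.Nodup})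
    (t := {Q : ℂ[X] | Phys N M Q}) (fun _ h => h.1) (phys_finite hN)
  split_ifs at h1 ⊢ <;> omega

theorem count_eq {N M : ℕ} (hN : 2 * M ≤ N) (hsq : ∀ Q : ℂ[X], Phys N M Q → Q.roots.Nodup) :
    ({Q : ℂ[X] | Phys N M Q ∧ Q.roots.Nodup}.ncard : ℤ) =
      (N.choose M : ℤ) - (if M = 0 then (0 : ℤ) else (N.choose (M - 1) : ℤ)) := by
  have h1 := count hN
  rw [show {Q : ℂ[X] | Phys N M Q ∧ Q.roots.Nodup} = {Q | Phys N M Q} from
    Set.ext fun Q => and_iff_left_of_imp (hsq Q)]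
  split_ifs at h1 ⊢ <;> omega

end Pool.Agent.MP_c0c29f_mp.H97
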