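import Mathlib

/-!
Stability of Hermite interpolation on a disc.
-/

namespace Pool.Agent.MP_c0c29f_mp.H97

open Polynomial Metric

theorem mp_le {α : Type} (s : Multiset α) (f g : α → ℝ) (h0 : ∀ a ∈ s, 0 ≤ f a)
    (h : ∀ a ∈ s, f a ≤ g a) : (s.map f).prod ≤ (s.map g).prod :=
  Multiset.prod_map_le_prod_map₀ f g h0 h

theorem mp_nonneg {α : Type} (s : Multiset α) (f : α → ℝ) (h0 : ∀ a ∈ s, 0 ≤ f a) :
    0 ≤ (s.map f).prod :=
  Multiset.prod_nonneg fun x hx => by
    obtain ⟨a, ha, rfl⟩ := Multiset.mem_map.mp hx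
    exact h0 a ha

theorem mp_pos {α : Type} (s : Multiset α) (f : α → ℝ) (h0 : ∀ a ∈ s, 0 < f a) :
    0 < (s.map f).prod :=
  Multiset.prod_pos fun x hx => by
    obtain ⟨a, ha, rfl⟩ := Multiset.mem_map.mp hx
    exact h0 a ha

theorem mp_one_le {α : Type} (s : Multiset α) (f : α → ℝ) (h0 : ∀ a ∈ s, 1 ≤ f a) :
    1 ≤ (s.map f).prod := by
  simpa using mp_le s (fun _ => 1) f (fun _ _ => zero_le_one) h0

theorem mp_const_mul {α : Type} (s : Multiset α) (c : ℝ) (f : α → ℝ) :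
    (s.map fun a => c * f a).prod = c ^ s.card * (s.map f).prod := by
  rw [Multiset.prod_map_mul]
  simp

/-- polynomial with given roots -/
noncomputable def pr {K : Type} [CommRing K] (s : Multiset K) : K[X] :=
  (s.map fun a => X - C a).prod

section

variable {K : Type} [Field K]

theorem pr_monic (s : Multiset K) : (pr s).Monic :=
  monic_multiset_prod_of_monic _ _ fun a _ => monic_X_sub_C a

theorem pr_deg (s : Multiset K) : (pr s).natDegree = s.card :=
  natDegree_multiset_prod_X_sub_C_eq_card s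

theorem pr_eval (s : Multiset K) (x : K) : (pr s).eval x = (s.map fun a => x - a).prod := by
  simp [pr, eval_multiset_prod]

theorem pr_cons (a : K) (s : Multiset K) : pr (a ::ₘ s) = (X - C a) * pr s := by simp [pr]

theorem pr_add (s t : Multiset K) : pr (s + t) = pr s * pr t := by simp [pr]

theorem pr_zero {s : Multiset K} {x : K} : (pr s).eval x = 0 ↔ x ∈ s := by
  simp [pr_eval, sub_eq_zero]

theorem pr_taylor (s : Multiset K) (t : K) : taylor t (pr s) = pr (s.map (· - t)) := by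
  induction s using Multiset.induction_on with
  | empty => simp [pr]
  | cons a s ih =>
    rw [Multiset.map_cons, pr_cons, pr_cons, taylor_mul, ih, map_sub, taylor_X, taylor_C, C_sub]
    ring

theorem pr_map {L : Type} [Field L] (f : K →+* L) (s : Multiset K) :
    (pr s).map f = pr (s.map f) := by
  simp [pr, Polynomial.map_multiset_prod]

theorem pr_deriv (s : Multiset K) {x : K} (hx : x ∉ s) :
    (derivative (pr s)).eval x = (pr s).eval x * (s.map fun a => (x - a)⁻¹).sum := by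
  induction s using Multiset.induction_on with
  | empty => simp [pr]
  | cons a s ih =>
    rw [Multiset.mem_cons, not_or] at hx
    have := sub_ne_zero.mpr hx.1
    simp only [pr_cons, derivative_mul, eval_add, eval_mul, ih hx.2, Multiset.map_cons,
      Multiset.sum_cons, derivative_sub, derivative_X, derivative_C, sub_zero, eval_one, eval_sub,
      eval_X, eval_C]
    field_simp

theorem pr_abv (v : AbsoluteValue K ℝ) (s : Multiset K) (x : K) :
    v ((pr s).eval x) = (s.map fun a => v (x - a)).prod := by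
  induction s using Multiset.induction_on with
  | empty => simp [pr]
  | cons a s ih => simp [pr_cons, ih]

end

theorem pr_norm (s : Multiset ℂ) (x : ℂ) : ‖(pr s).eval x‖ = (s.map fun a => ‖x - a‖).prod := by
  induction s using Multiset.induction_on with
  | empty => simp [pr]
  | cons a s ih => simp [pr_cons, ih]

theorem cheb (a : Multiset ℝ) : ∃ r ∈ Set.Icc (1 / 20 : ℝ) (1 / 10),
    (1 / 81 : ℝ) ^ a.card ≤ (a.map fun x => |r - x|).prod := by
  rcases eq_or_ne a 0 with rfl | ha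
  · exact ⟨1 / 20, by norm_num, by simp⟩
  by_contra h
  push Not at h
  let b := a.map fun x => 40 * x - 3
  have hb : b.card = a.card := Multiset.card_map _ _
  have h1 := Chebyshev.coeff_le_of_forall_abs_le_one (n := a.card)
    (P := C ((81 / 40 : ℝ) ^ a.card) * pr b) (by
      refine degree_le_natDegree.trans ?_
      exact_mod_cast (natDegree_C_mul_le _ _).trans (by rw [pr_deg, hb])) (by
      intro t ht
      have h2 := h ((t + 3) / 40) ⟨by linarith [ht.1], by linarith [ht.2]⟩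
      have h3 : |(pr b).eval t| = 40 ^ a.card * (a.map fun x => |(t + 3) / 40 - x|).prod := by
        rw [← mp_const_mul, ← AbsoluteValue.abs_apply, pr_abv, Multiset.map_map]
        refine congrArg _ (Multiset.map_congr rfl fun x _ => ?_)
        rw [Function.comp, AbsoluteValue.abs_apply,
          show t - (40 * x - 3) = 40 * ((t + 3) / 40 - x) by ring, abs_mul, Nat.abs_ofNat]
      rw [eval_mul, eval_C, abs_mul, h3, abs_of_pos (by positivity), ← mul_assoc, ← mul_pow]
      calc _ ≤ (81 / 40 * 40) ^ a.card * (1 / 81 : ℝ) ^ a.card := by gcongr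
        _ = 1 := by rw [← mul_pow]; norm_num)
  have h2 : (pr b).coeff a.card = 1 := by rw [← hb, ← pr_deg, (pr_monic b).coeff_natDegree]
  rw [coeff_C_mul, h2, mul_one] at h1
  have h3 : (2 : ℝ) ^ (a.card - 1) ≤ 2 ^ a.card := pow_le_pow_right₀ one_le_two (Nat.sub_le _ _)
  have h4 : (2 : ℝ) ^ a.card < (81 / 40) ^ a.card :=
    pow_lt_pow_left₀ (by norm_num) (by norm_num) (by simpa using ha)
  linarith

theorem maxp {r δ : ℝ} (hr : 0 < r) {E V : ℂ[X]} (hV : ∀ z, ‖z‖ ≤ r → V.eval z ≠ 0)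
    (h : ∀ z, ‖z‖ = r → ‖E.eval z‖ ≤ δ * ‖V.eval z‖) {x : ℂ} (hx : ‖x‖ ≤ r) :
    ‖E.eval x‖ ≤ δ * ‖V.eval x‖ := by
  have hd : DiffContOnCl ℂ (fun z => E.eval z / V.eval z) (ball 0 r) := by
    apply DifferentiableOn.diffContOnCl
    rw [closure_ball _ hr.ne']
    exact E.differentiableOn.div V.differentiableOn fun z hz => hV z (by simpa using hz)
  have := Complex.norm_le_of_forall_mem_frontier_norm_le isBounded_ball hd (C := δ) (z := x)
    (fun z hz => by
      rw [frontier_ball _ hr.ne', mem_sphere_zero_iff_norm] at hz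
      rw [norm_div, div_le_iff₀ (norm_pos_iff.mpr (hV z hz.le))]
      exact h z hz) (by rw [closure_ball _ hr.ne']; simpa using hx)
  rwa [norm_div, div_le_iff₀ (norm_pos_iff.mpr (hV x hx))] at this

theorem cauchy {r δ : ℝ} (hr : 0 < r) {E : ℂ[X]} (h : ∀ z, ‖z‖ ≤ r → ‖E.eval z‖ ≤ δ) :
    ‖(derivative E).eval 0‖ ≤ δ / r := by
  rw [← E.deriv]
  exact Complex.norm_deriv_le_of_forall_mem_sphere_norm_le hr E.differentiable.diffContOnCl
    fun z hz => h z (mem_sphere_zero_iff_norm.mp hz).le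

theorem herm0 {r : ℝ} (hr : 0 < r) {V : ℂ[X]} (hV : ∀ z, ‖z‖ ≤ r → V.eval z ≠ 0)
    (s : Multiset ℂ) (hs : ∀ β ∈ s, ‖β‖ < r) {δ : ℝ} (hδ : 0 ≤ δ) {R F E : ℂ[X]}
    (h : V * R = pr s * F + E) (hR : R.degree < s.card)
    (hE : ∀ z, ‖z‖ = r → ‖E.eval z‖ ≤ δ * ‖V.eval z‖) {x : ℂ} (hx : ‖x‖ ≤ r) :
    ‖R.eval x‖ ≤ δ * (s.map fun β => 1 + 4 * r / (r - ‖β‖)).prod := by
  induction s using Multiset.induction_on generalizing δ R E with
  | empty =>
    have : R = 0 := by simpa using hR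
    simpa [this] using hδ
  | cons β s ih =>
    have hβ := hs β (Multiset.mem_cons_self _ _)
    have hβ' : 0 < r - ‖β‖ := sub_pos.mpr hβ
    have h1 : V.eval β * R.eval β = E.eval β := by
      simpa [pr_cons] using congrArg (eval β) h
    have h2 : ‖R.eval β‖ ≤ δ := by
      have := maxp hr hV hE hβ.le
      rwa [← h1, norm_mul, mul_comm, mul_le_mul_iff_left₀ (norm_pos_iff.mpr (hV β hβ.le))] at this
    obtain ⟨R1, hR1⟩ : X - C β ∣ R - C (R.eval β) := X_sub_C_dvd_sub_C_eval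
    obtain ⟨E1, hE1⟩ : X - C β ∣ E - C (R.eval β) * V := dvd_iff_isRoot.mpr (by
      simp [← h1, mul_comm])
    have h3 : V * R1 = pr s * F + E1 := by
      apply mul_left_cancel₀ (X_sub_C_ne_zero β)
      rw [pr_cons] at h
      linear_combination h - V * hR1 + hE1
    have h4 : R1.degree < s.card := by
      by_cases h0 : R1 = 0
      · simp [h0]
      have h5 : (R - C (R.eval β)).natDegree = 1 + R1.natDegree := by
        rw [hR1, natDegree_mul (X_sub_C_ne_zero β) h0, natDegree_X_sub_C]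
      have h6 : R ≠ 0 := by
        rintro rfl
        simp at h5
        omega
      rw [natDegree_sub_C] at h5
      rw [degree_eq_natDegree h6, h5, Multiset.card_cons] at hR
      rw [degree_eq_natDegree h0]
      have : 1 + R1.natDegree < s.card + 1 := by exact_mod_cast hR
      exact_mod_cast (by omega : R1.natDegree < s.card)
    have h5 := ih (fun b hb => hs b (Multiset.mem_cons_of_mem hb))
      (δ := 2 * δ / (r - ‖β‖)) (by positivity) h3 h4 fun z hz => by
        have h5 : (z - β) * E1.eval z = E.eval z - R.eval β * V.eval z := by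
          simpa using (congrArg (eval z) hE1).symm
        have h6 : r - ‖β‖ ≤ ‖z - β‖ := hz ▸ norm_sub_norm_le z β
        rw [div_mul_eq_mul_div, le_div_iff₀' hβ']
        calc _ ≤ ‖z - β‖ * ‖E1.eval z‖ := by gcongr
          _ = ‖E.eval z - R.eval β * V.eval z‖ := by rw [← norm_mul, h5]
          _ ≤ δ * ‖V.eval z‖ + δ * ‖V.eval z‖ := by
            refine (norm_sub_le _ _).trans (add_le_add (hE z hz) ?_)
            rw [norm_mul]
            gcongr
          _ = _ := by ring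
    have h6 : R.eval x = R.eval β + (x - β) * R1.eval x := by
      have := congrArg (eval x) hR1
      simp only [eval_sub, eval_C, eval_mul, eval_X] at this
      linear_combination this
    have h7 := mp_one_le s (fun β => 1 + 4 * r / (r - ‖β‖)) fun b hb => by
      have := sub_pos.mpr (hs b (Multiset.mem_cons_of_mem hb))
      exact le_add_of_nonneg_right (by positivity)
    rw [Multiset.map_cons, Multiset.prod_cons, h6]
    generalize (s.map fun β => 1 + 4 * r / (r - ‖β‖)).prod = K at *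
    calc _ ≤ δ + (2 * r) * (2 * δ / (r - ‖β‖) * K) := by
          refine (norm_add_le _ _).trans (add_le_add h2 ?_)
          rw [norm_mul]
          gcongr
          exact (norm_sub_le _ _).trans (by linarith)
      _ ≤ δ * K + (2 * r) * (2 * δ / (r - ‖β‖) * K) := by
          gcongr
          exact le_mul_of_one_le_right hδ h7
      _ = _ := by ring

/-- size of a multiset of roots -/
noncomputable def Zm (s : Multiset ℂ) : ℝ := (s.map fun β => 1 + ‖β‖).prod

/-- lower bound on the circle -/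
noncomputable def Lm (r : ℝ) (s : Multiset ℂ) : ℝ := (s.map fun β => |r - ‖β‖|).prod

theorem Zm_one_le (s : Multiset ℂ) : 1 ≤ Zm s :=
  mp_one_le _ _ fun _ _ => le_add_of_nonneg_right (norm_nonneg _)

theorem Zm_add (s t : Multiset ℂ) : Zm (s + t) = Zm s * Zm t := by simp [Zm]

theorem Lm_add (r : ℝ) (s t : Multiset ℂ) : Lm r (s + t) = Lm r s * Lm r t := by simp [Lm]

theorem Lm_nonneg (r : ℝ) (s : Multiset ℂ) : 0 ≤ Lm r s := mp_nonneg _ _ fun _ _ => abs_nonneg _

theorem Lm_le {r : ℝ} (s : Multiset ℂ) {z : ℂ} (hz : ‖z‖ = r) : Lm r s ≤ ‖(pr s).eval z‖ := by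
  rw [pr_norm]
  exact mp_le _ _ _ (fun _ _ => abs_nonneg _) fun β _ => hz ▸ abs_norm_sub_norm_le z β

theorem le_Zm (s : Multiset ℂ) {z : ℂ} (hz : ‖z‖ ≤ 1) : ‖(pr s).eval z‖ ≤ Zm s := by
  rw [pr_norm]
  exact mp_le _ _ _ (fun _ _ => norm_nonneg _) fun β _ => (norm_sub_le _ _).trans (by linarith)

theorem Lm_le_Zm {r : ℝ} (h0 : 0 ≤ r) (h1 : r ≤ 1) (s : Multiset ℂ) : Lm r s ≤ Zm s :=
  mp_le _ _ _ (fun _ _ => abs_nonneg _) fun β _ =>
    abs_le.mpr ⟨by linarith [norm_nonneg β], by linarith [norm_nonneg β]⟩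

theorem low_sub {r η : ℝ} (h0 : 0 ≤ r) (h1 : r ≤ 1) {s t : Multiset ℂ}
    (h : η * Zm (s + t) ≤ Lm r (s + t)) : η * Zm s ≤ Lm r s := by
  rw [Zm_add, Lm_add, ← mul_assoc] at h
  exact le_of_mul_le_mul_right (h.trans (mul_le_mul_of_nonneg_left (Lm_le_Zm h0 h1 t)
    (Lm_nonneg r s))) (zero_lt_one.trans_le (Zm_one_le t))

theorem sum_inv_le {r : ℝ} (hr : 0 < r) (s : Multiset ℂ) (hs : ∀ β ∈ s, r ≤ ‖β‖) :
    ‖(s.map fun β => (0 - β)⁻¹).sum‖ ≤ s.card / r := by
  induction s using Multiset.induction_on with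
  | empty => simp
  | cons a s ih =>
    rw [Multiset.map_cons, Multiset.sum_cons, Multiset.card_cons, Nat.cast_succ, add_div,
      add_comm (_ / r)]
    refine (norm_add_le _ _).trans (add_le_add ?_ (ih fun b hb => hs b (Multiset.mem_cons_of_mem hb)))
    rw [zero_sub, norm_inv, norm_neg, one_div]
    exact inv_anti₀ hr (hs a (Multiset.mem_cons_self _ _))

theorem herm1 {r η ε : ℝ} (hr : 0 < r) (hr' : r ≤ 1 / 5) (hη : 0 < η) (hε : 0 ≤ ε)
    {u u' : Multiset ℂ} (hu : ∀ β ∈ u, ‖β‖ < r) (hL : η ≤ Lm r u) (hc : u'.card ≤ u.card)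
    {V F E : ℂ[X]} (hV : ∀ z, ‖z‖ ≤ r → V.eval z ≠ 0) (h : V * pr u' = pr u * F + E)
    (hE : ∀ z, ‖z‖ = r → ‖E.eval z‖ ≤ ε * ‖V.eval z‖ * ‖(pr u').eval z‖)
    (h0 : (0 : ℂ) ∉ u) (h0' : (0 : ℂ) ∉ u')
    (hκ : 1 ≤ ‖(u.map fun β => (0 - β)⁻¹).sum - (u'.map fun β => (0 - β)⁻¹).sum‖) :
    ‖(pr u).eval 0‖ * ‖(pr u').eval 0‖ ≤ 2 / r * (ε / η) * (Zm u * Zm u') := by
  have hZ := Zm_one_le u
  have hZ' := Zm_one_le u'
  have hK : (u.map fun β => 1 + 4 * r / (r - ‖β‖)).prod ≤ η⁻¹ := by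
    refine le_trans ?_ (inv_anti₀ hη hL)
    rw [Lm, ← Multiset.prod_map_inv]
    refine mp_le _ _ _ (fun β hβ => ?_) fun β hβ => ?_
    · have := sub_pos.mpr (hu β hβ)
      positivity
    · have := sub_pos.mpr (hu β hβ)
      rw [abs_of_pos this, one_add_div this.ne', inv_eq_one_div]
      gcongr
      linarith [norm_nonneg β]
  have hB : ∀ z, ‖z‖ ≤ r → ‖(pr u).eval z‖ ≤ Zm u := fun z hz => le_Zm u (by linarith)
  have hr2 : 1 ≤ 1 / r := by
    rw [le_div_iff₀ hr]
    linarith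
  rcases hc.eq_or_lt with hc | hc
  · have h1 : ∀ x, ‖x‖ ≤ r → ‖(pr u' - pr u).eval x‖ ≤ ε / η * Zm u' := fun x hx => by
      refine (herm0 hr hV u hu (δ := ε * Zm u') (by positivity) (F := F - V) (E := E)
        (by linear_combination h) ?_ (fun z hz => (hE z hz).trans ?_) hx).trans ?_
      · have := degree_sub_lt (p := pr u') (q := pr u) (by
          rw [degree_eq_natDegree (pr_monic _).ne_zero, degree_eq_natDegree (pr_monic _).ne_zero,
            pr_deg, pr_deg, hc]) (pr_monic _).ne_zero (by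
          rw [(pr_monic _).leadingCoeff, (pr_monic _).leadingCoeff])
        rwa [degree_eq_natDegree (pr_monic _).ne_zero, pr_deg, hc] at this
      · rw [mul_right_comm]
        gcongr
        exact le_Zm u' (by linarith)
      · calc _ ≤ ε * Zm u' * η⁻¹ := by gcongr
          _ = _ := by ring
    have h2 := cauchy hr h1
    have h3 := cauchy hr hB
    have h4 := h1 0 (by simpa using hr.le)
    have h5 := hB 0 (by simpa using hr.le)
    have h6 : (pr u).eval 0 * (pr u').eval 0 *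
        ((u.map fun β => (0 - β)⁻¹).sum - (u'.map fun β => (0 - β)⁻¹).sum) =
        (pr u' - pr u).eval 0 * (derivative (pr u)).eval 0 -
          (derivative (pr u' - pr u)).eval 0 * (pr u).eval 0 := by
      rw [derivative_sub, eval_sub, eval_sub, pr_deriv u h0, pr_deriv u' h0']
      ring
    calc _ ≤ ‖(pr u).eval 0‖ * ‖(pr u').eval 0‖ *
          ‖(u.map fun β => (0 - β)⁻¹).sum - (u'.map fun β => (0 - β)⁻¹).sum‖ :=
          le_mul_of_one_le_right (by positivity) hκ
      _ ≤ ε / η * Zm u' * (Zm u / r) + ε / η * Zm u' / r * Zm u := by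
          rw [← norm_mul, ← norm_mul, h6]
          refine (norm_sub_le _ _).trans ?_
          rw [norm_mul, norm_mul]
          gcongr
      _ = _ := by ring
  · obtain ⟨z, hz, hz'⟩ := (isCompact_closedBall (0 : ℂ) r).exists_isMaxOn
      (nonempty_closedBall.mpr hr.le) (f := fun z => ‖(pr u').eval z‖)
      (pr u').continuous.norm.continuousOn
    have h1 := herm0 hr hV u hu (δ := ε * ‖(pr u').eval z‖) (by positivity) h (by
      rw [degree_eq_natDegree (pr_monic _).ne_zero, pr_deg]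
      exact_mod_cast hc) (fun w hw => (hE w hw).trans (by
        rw [mul_right_comm]
        gcongr
        exact hz' (by simpa using hw.le))) (mem_closedBall_zero_iff.mp hz)
    have h2 : 0 < ‖(pr u').eval z‖ :=
      (norm_pos_iff.mpr (pr_zero.not.mpr h0')).trans_le (hz' (mem_closedBall_self hr.le))
    have h3 : 1 ≤ ε / η := by
      refine le_of_mul_le_mul_right (a := ‖(pr u').eval z‖) ?_ h2
      calc _ = _ := one_mul _
        _ ≤ _ := h1
        _ ≤ ε * ‖(pr u').eval z‖ * η⁻¹ := by gcongr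
        _ = _ := by ring
    have h4 : (1 : ℝ) ≤ 2 / r := hr2.trans (by gcongr; norm_num)
    calc _ ≤ Zm u * Zm u' := mul_le_mul (le_Zm u (by simp)) (le_Zm u' (by simp)) (norm_nonneg _)
          (by positivity)
      _ ≤ _ := le_mul_of_one_le_left (by positivity) (one_le_mul_of_one_le_of_one_le h4 h3)

theorem herm2 {r η ε : ℝ} (hr : 0 < r) (hr' : r ≤ 1 / 5) (hη : 0 < η) (hε : 0 ≤ ε)
    {u u' : Multiset ℂ} (hL : η * Zm u ≤ Lm r u) (hL' : η * Zm u' ≤ Lm r u')
    {V F E V' F' E' : ℂ[X]} (hV : ∀ z, ‖z‖ ≤ r → V.eval z ≠ 0) (hV' : ∀ z, ‖z‖ ≤ r → V'.eval z ≠ 0)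
    (h : V * pr u' = pr u * F + E) (h' : V' * pr u = pr u' * F' + E')
    (hE : ∀ z, ‖z‖ = r → ‖E.eval z‖ ≤ ε * ‖V.eval z‖ * ‖(pr u').eval z‖)
    (hE' : ∀ z, ‖z‖ = r → ‖E'.eval z‖ ≤ ε * ‖V'.eval z‖ * ‖(pr u).eval z‖)
    (h0 : (0 : ℂ) ∉ u) (h0' : (0 : ℂ) ∉ u')
    (hκ : 1 + (u.card + u'.card) / r ≤
      ‖(u.map fun β => (0 - β)⁻¹).sum - (u'.map fun β => (0 - β)⁻¹).sum‖) :
    ‖(pr u).eval 0‖ * ‖(pr u').eval 0‖ ≤ 2 / r * (ε / η) * (Zm u * Zm u') := by
  have split : ∀ u : Multiset ℂ, η * Zm u ≤ Lm r u → ∃ a b : Multiset ℂ, u = a + b ∧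
      (∀ β ∈ a, ‖β‖ < r) ∧ (∀ β ∈ b, r < ‖β‖) ∧ η ≤ Lm r a := by
    intro u hL
    have e := (Multiset.filter_add_not (fun β : ℂ => ‖β‖ < r) u).symm
    refine ⟨_, _, e, fun β hβ => (Multiset.mem_filter.mp hβ).2, fun β hβ => ?_, ?_⟩
    · obtain ⟨h1, h2⟩ := Multiset.mem_filter.mp hβ
      refine lt_of_le_of_ne (not_lt.mp h2) fun h3 => ?_
      have h4 : Lm r u = 0 := Multiset.prod_eq_zero (Multiset.mem_map.mpr ⟨β, h1, by simp [h3]⟩)
      have := Zm_one_le u
      nlinarith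
    · rw [e] at hL
      exact (le_mul_of_one_le_right hη.le (Zm_one_le _)).trans (low_sub hr.le (by linarith) hL)
  obtain ⟨a, b, rfl, ha, hb, hLa⟩ := split u hL
  obtain ⟨a', b', rfl, ha', hb', hLa'⟩ := split u' hL'
  have nz : ∀ b : Multiset ℂ, (∀ β ∈ b, r < ‖β‖) → ∀ z, ‖z‖ ≤ r → (pr b).eval z ≠ 0 :=
    fun b hb z hz h => (hb z (pr_zero.mp h)).not_ge hz
  rw [Multiset.mem_add, not_or] at h0 h0'
  have hκ' : 1 ≤ ‖(a.map fun β => (0 - β)⁻¹).sum - (a'.map fun β => (0 - β)⁻¹).sum‖ := by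
    have h1 := sum_inv_le hr b fun β hβ => (hb β hβ).le
    have h2 := sum_inv_le hr b' fun β hβ => (hb' β hβ).le
    simp only [Multiset.map_add, Multiset.sum_add, Multiset.card_add, Nat.cast_add] at hκ
    rw [add_sub_add_comm] at hκ
    have h3 := hκ.trans ((norm_add_le _ _).trans (add_le_add le_rfl
      ((norm_sub_le _ _).trans (add_le_add h1 h2))))
    have h4 : ((b.card : ℝ) + b'.card) / r ≤ (a.card + b.card + (a'.card + b'.card)) / r := by
      gcongr <;> simp
    rw [add_div] at h4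
    linarith
  have key : ‖(pr a).eval 0‖ * ‖(pr a').eval 0‖ ≤ 2 / r * (ε / η) * (Zm a * Zm a') := by
    rw [pr_add, pr_add] at h h'
    rw [pr_add] at hE hE'
    rcases le_total a'.card a.card with hc | hc
    · exact herm1 hr hr' hη hε ha hLa hc (V := V * pr b') (F := pr b * F) (E := E)
        (fun z hz => by rw [eval_mul]; exact mul_ne_zero (hV z hz) (nz b' hb' z hz))
        (by linear_combination h) (fun z hz => (hE z hz).trans_eq (by
          simp only [eval_mul, norm_mul]; ring)) h0.1 h0'.1 hκ'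
    · rw [mul_comm, mul_comm (Zm a)]
      exact herm1 hr hr' hη hε ha' hLa' hc (V := V' * pr b) (F := pr b' * F') (E := E')
        (fun z hz => by rw [eval_mul]; exact mul_ne_zero (hV' z hz) (nz b hb z hz))
        (by linear_combination h') (fun z hz => (hE' z hz).trans_eq (by
          simp only [eval_mul, norm_mul]; ring)) h0'.1 h0.1 (by rwa [norm_sub_rev])
  have h1 := le_Zm b (z := 0) (by simp)
  have h2 := le_Zm b' (z := 0) (by simp)
  have h3 := Zm_one_le a
  have h4 := Zm_one_le a'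
  have h5 := Zm_one_le b
  simp only [pr_add, eval_mul, norm_mul, Zm_add]
  calc _ = ‖(pr a).eval 0‖ * ‖(pr a').eval 0‖ * (‖(pr b).eval 0‖ * ‖(pr b').eval 0‖) := by ring
    _ ≤ 2 / r * (ε / η) * (Zm a * Zm a') * (Zm b * Zm b') := by gcongr
    _ = _ := by ring

theorem exists_radius (s : Multiset ℂ) (T : Finset ℂ)
    (hT : ∀ t ∈ T, ∀ t' ∈ T, t ≠ t' → 1 ≤ ‖t - t'‖) : ∃ r ∈ Set.Icc (1 / 20 : ℝ) (1 / 10),
      ∀ t ∈ T, (1 / 122 : ℝ) ^ s.card * Zm (s.map (· - t)) ≤ Lm r (s.map (· - t)) := by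
  classical
  have h1 : ∀ y : ℂ, ∃ a : ℝ, ∀ r ∈ Set.Icc (1 / 20 : ℝ) (1 / 10), ∀ t ∈ T,
      81 / 122 * |r - a| * (1 + ‖y - t‖) ≤ |r - ‖y - t‖| := by
    intro y
    have far : ∀ r ∈ Set.Icc (1 / 20 : ℝ) (1 / 10), ∀ a ∈ Set.Icc (0 : ℝ) (3 / 20), ∀ x : ℝ,
        1 / 2 ≤ x → 81 / 122 * |r - a| * (1 + x) ≤ |r - x| := by
      intro r hr a ha x hx
      have h2 : |r - a| ≤ 1 / 10 := abs_le.mpr ⟨by linarith [hr.1, ha.2], by linarith [hr.2, ha.1]⟩
      rw [abs_sub_comm r x, abs_of_nonneg (by linarith [hr.2] : 0 ≤ x - r)]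
      nlinarith [hr.2, abs_nonneg (r - a)]
    by_cases h : ∃ t ∈ T, ‖y - t‖ < 3 / 20
    · obtain ⟨t0, ht0, h⟩ := h
      refine ⟨‖y - t0‖, fun r hr t ht => ?_⟩
      by_cases h2 : t = t0
      · rw [h2]
        nlinarith [abs_nonneg (r - ‖y - t0‖)]
      · refine far r hr _ ⟨norm_nonneg _, h.le⟩ _ ?_
        have h3 := hT t ht t0 ht0 h2
        have h4 : ‖t - t0‖ ≤ ‖y - t0‖ + ‖y - t‖ := by
          rw [show t - t0 = (y - t0) - (y - t) by ring]
          exact norm_sub_le _ _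
        linarith
    · push Not at h
      refine ⟨3 / 20, fun r hr t ht => ?_⟩
      have h2 := h t ht
      rw [abs_sub_comm r, abs_sub_comm r, abs_of_nonneg (by linarith [hr.2]),
        abs_of_nonneg (by linarith [hr.2])]
      nlinarith [hr.1, hr.2]
  choose a ha using h1
  obtain ⟨r, hr, h2⟩ := cheb (s.map a)
  refine ⟨r, hr, fun t ht => ?_⟩
  rw [Multiset.card_map, Multiset.map_map] at h2
  rw [Zm, Lm, Multiset.map_map, Multiset.map_map]
  refine le_trans ?_ (mp_le s _ _ (fun y _ => by positivity) fun y _ => ha y r hr t ht)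
  rw [Multiset.prod_map_mul, mp_const_mul, show (1 / 122 : ℝ) = 81 / 122 * (1 / 81) by norm_num,
    mul_pow]
  refine mul_le_mul_of_nonneg_right (by gcongr; exact h2) (mp_nonneg _ _ fun _ _ => ?_)
  simp only [Function.comp]
  positivity

theorem ratio {r η : ℝ} (hr : r ≤ 1) (hη : 0 < η) (s : Multiset ℂ) {t t' z : ℂ}
    (hL : η * Zm (s.map (· - t)) ≤ Lm r (s.map (· - t))) (ht : ‖t - t'‖ ≤ 4) (hz : ‖z‖ = r) :
    ‖(pr s).eval (z + t')‖ ≤ 5 ^ s.card / η * ‖(pr s).eval (z + t)‖ := by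
  have h1 := Lm_le (s.map (· - t)) hz
  rw [← pr_taylor, taylor_eval] at h1
  have h2 : ‖(pr s).eval (z + t')‖ ≤ 5 ^ s.card * Zm (s.map (· - t)) := by
    rw [pr_norm, Zm, Multiset.map_map, ← mp_const_mul]
    refine mp_le _ _ _ (fun _ _ => norm_nonneg _) fun y _ => ?_
    have : ‖z + t' - y‖ ≤ ‖z‖ + ‖t - t'‖ + ‖y - t‖ := by
      rw [show z + t' - y = z - (t - t') - (y - t) by ring]
      exact (norm_sub_le _ _).trans (add_le_add_left (norm_sub_le _ _) _)
    simp only [Function.comp]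
    linarith [norm_nonneg (y - t)]
  refine h2.trans ?_
  rw [div_mul_eq_mul_div, le_div_iff₀ hη, mul_assoc, mul_comm _ η]
  gcongr
  exact hL.trans h1

end Pool.Agent.MP_c0c29f_mp.H97
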