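import Mathlib
import Pool.Agent.MP_c0c29f_mp.H97.Herm
import Pool.Agent.MP_c0c29f_mp.H97.Basic

/-!
Archimedean estimates at a multiple root.
-/

namespace Pool.Agent.MP_c0c29f_mp.H97

open Polynomial

section

variable {K : Type} [Field K]

theorem wr_at {N : ℕ} {P Q : K[X]} (h : Wr P Q = X ^ N) {t t' : K} (ht : t' = t + 1) :
    taylor t' P * taylor t Q - taylor t P * taylor t' Q = (X + C t) ^ N := by
  have := congrArg (taylor t) h
  simpa [Wr, taylor_mul, taylor_taylor, ht] using this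

theorem wr_ev {N : ℕ} {P Q : K[X]} (h : Wr P Q = X ^ N) {t t' : K} (ht : t' = t + 1) :
    P.eval t' * Q.eval t - P.eval t * Q.eval t' = t ^ N := by
  have := congrArg (eval t) h
  simpa [Wr, taylor_eval, ht] using this

theorem pr_replicate (n : ℕ) (t : K) : pr (Multiset.replicate n (-t)) = (X + C t) ^ n := by
  simp [pr]

theorem pr_rep0 (n : ℕ) : pr (Multiset.replicate n (0 : K)) = X ^ n := by
  simp [pr]

theorem dbl {A B : Multiset K} (h : X ^ 2 ∣ pr A + pr B) (hA : (0 : K) ∉ A) (hB : (0 : K) ∉ B) :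
    (A.map fun β => (0 - β)⁻¹).sum = (B.map fun β => (0 - β)⁻¹).sum := by
  obtain ⟨G, hG⟩ := h
  have h1 := congrArg (eval 0) hG
  have h2 := congrArg (fun p => eval 0 (derivative p)) hG
  simp only [derivative_add, eval_add, pr_deriv A hA, pr_deriv B hB, derivative_mul,
    derivative_X_pow, eval_mul, eval_pow, eval_X, eval_C] at h1 h2
  apply mul_left_cancel₀ (pr_zero.not.mpr hA)
  linear_combination h2 - (B.map fun β => (0 - β)⁻¹).sum * h1

theorem sing_decomp [CharZero K] {N : ℕ} {T : K[X]} {s : Multiset K} (h : TQ N T (pr s))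
    (hN : s.card ≤ N) : ∃ (a : ℕ) (s1 s2 : Multiset K), s = Multiset.replicate a 0 + s1 ∧
      s.map (· - 1) = Multiset.replicate a 0 + s2 ∧ 0 ∉ s1 ∧ 0 ∉ s2 := by
  obtain ⟨a, Q1, Q2, h1, h2, h3, h4, -⟩ := h.decomp (pr_monic s).ne_zero (by rwa [pr_deg])
  rw [pr_taylor] at h2
  have key : ∀ (s : Multiset K) (Q : K[X]), pr s = X ^ a * Q →
      s = Multiset.replicate a 0 + Q.roots := by
    intro s Q h
    have h5 := roots_mul (h ▸ (pr_monic s).ne_zero)
    rwa [← h, pr, roots_multiset_prod_X_sub_C, roots_X_pow, Multiset.nsmul_singleton] at h5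
  exact ⟨a, _, _, key _ _ h1, key _ _ h2, fun h => h3 (isRoot_of_mem_roots h),
    fun h => h4 (isRoot_of_mem_roots h)⟩

end

theorem pairG {N a : ℕ} {P : ℂ[X]} {s u u' : Multiset ℂ} (h : Wr P (pr s) = X ^ N) {p q : ℂ}
    {r η ε : ℝ} (hr : 0 < r) (hr' : r ≤ 1 / 5) (hη : 0 < η) (hε : 0 ≤ ε)
    (hp : s.map (· - p) = Multiset.replicate a 0 + u')
    (hq : s.map (· - q) = Multiset.replicate a 0 + u)
    (Lp : η * Zm (s.map (· - p)) ≤ Lm r (s.map (· - p)))
    (Lq : η * Zm (s.map (· - q)) ≤ Lm r (s.map (· - q))) (h1 : r < ‖q‖) (h2 : r < ‖p - 1‖)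
    (hE : ∀ z, ‖z‖ = r → ‖P.eval (z + q) * (pr s).eval (z + p) - P.eval (z + p) *
      (pr s).eval (z + q)‖ * ‖(pr s).eval (z + (q + 1))‖ ≤
        ε * ‖z + q‖ ^ N * ‖(pr s).eval (z + p)‖)
    (hE' : ∀ z, ‖z‖ = r → ‖P.eval (z + q) * (pr s).eval (z + p) - P.eval (z + p) *
      (pr s).eval (z + q)‖ * ‖(pr s).eval (z + (p - 1))‖ ≤
        ε * ‖z + (p - 1)‖ ^ N * ‖(pr s).eval (z + q)‖)
    (h0 : (0 : ℂ) ∉ u) (h0' : (0 : ℂ) ∉ u')
    (hκ : 1 + 2 * s.card / r ≤
      ‖(u.map fun β => (0 - β)⁻¹).sum - (u'.map fun β => (0 - β)⁻¹).sum‖) :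
    ‖(pr u).eval 0‖ * ‖(pr u').eval 0‖ ≤ 2 / r * (ε / η) * (Zm u * Zm u') := by
  have ep : taylor p (pr s) = X ^ a * pr u' := by rw [pr_taylor, hp, pr_add, pr_rep0]
  have eq : taylor q (pr s) = X ^ a * pr u := by rw [pr_taylor, hq, pr_add, pr_rep0]
  have vp : ∀ z, (pr s).eval (z + p) = z ^ a * (pr u').eval z := fun z => by
    rw [← taylor_eval, ep, eval_mul, eval_pow, eval_X]
  have vq : ∀ z, (pr s).eval (z + q) = z ^ a * (pr u).eval z := fun z => by
    rw [← taylor_eval, eq, eval_mul, eval_pow, eval_X]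
  have nz : ∀ t : ℂ, r < ‖t‖ → ∀ z, ‖z‖ ≤ r → ((X + C t) ^ N).eval z ≠ 0 := by
    intro t ht z hz h
    rw [eval_pow, eval_add, eval_X, eval_C] at h
    rw [eq_neg_of_add_eq_zero_left (pow_eq_zero_iff'.mp h).1, norm_neg] at hz
    linarith
  have w1 := wr_at h (t := q) rfl
  have w2 := wr_at h (t := p - 1) (t' := p) (by ring)
  rw [eq] at w1
  rw [ep] at w2
  rw [hp, add_comm] at Lp
  rw [hq, add_comm] at Lq
  have cu : (u.card : ℝ) ≤ s.card := by
    have := congrArg Multiset.card hq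
    simp only [Multiset.card_map, Multiset.card_add] at this
    exact_mod_cast (by omega : u.card ≤ s.card)
  have cu' : (u'.card : ℝ) ≤ s.card := by
    have := congrArg Multiset.card hp
    simp only [Multiset.card_map, Multiset.card_add] at this
    exact_mod_cast (by omega : u'.card ≤ s.card)
  refine herm2 hr hr' hη hε (low_sub hr.le (by linarith) Lq) (low_sub hr.le (by linarith) Lp)
    (nz q h1) (nz _ h2) (F := X ^ a * taylor (q + 1) P * pr u' - taylor p P * taylor (q + 1) (pr s))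
    (E := -((taylor q P * pr u' - taylor p P * pr u) * taylor (q + 1) (pr s)))
    (F' := taylor q P * taylor (p - 1) (pr s) - X ^ a * taylor (p - 1) P * pr u)
    (E' := -((taylor q P * pr u' - taylor p P * pr u) * taylor (p - 1) (pr s)))
    (by linear_combination (-pr u') * w1) (by linear_combination (-pr u) * w2)
    (fun z hz => ?_) (fun z hz => ?_) h0 h0' (le_trans (by gcongr; linarith) hκ)
  · have h3 := hE z hz
    have h4 : 0 < ‖z‖ ^ a := pow_pos (hz ▸ hr) a
    rw [vp, vq, mul_left_comm, mul_left_comm _ (z ^ a), ← mul_sub, norm_mul, norm_mul,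
      norm_pow] at h3
    simp only [eval_neg, eval_mul, eval_sub, taylor_eval, norm_neg, norm_mul, eval_pow, eval_add,
      eval_X, eval_C, norm_pow]
    refine le_of_mul_le_mul_left ?_ h4
    linarith
  · have h3 := hE' z hz
    have h4 : 0 < ‖z‖ ^ a := pow_pos (hz ▸ hr) a
    rw [vp, vq, mul_left_comm, mul_left_comm _ (z ^ a), ← mul_sub, norm_mul, norm_mul,
      norm_pow] at h3
    simp only [eval_neg, eval_mul, eval_sub, taylor_eval, norm_neg, norm_mul, eval_pow, eval_add,
      eval_X, eval_C, norm_pow]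
    refine le_of_mul_le_mul_left ?_ h4
    linarith

/-- local height -/
def mx {K : Type} [Field K] (v : K → ℝ) (y : K) : ℝ := max (v y) (v (y - 1))

theorem mx_half (y : ℂ) : 1 / 2 ≤ mx norm y := by
  have h : ‖(1 : ℂ)‖ ≤ ‖y‖ + ‖y - 1‖ := by
    conv_lhs => rw [show (1 : ℂ) = y - (y - 1) by ring]
    exact norm_sub_le _ _
  rw [norm_one] at h
  linarith [le_max_left ‖y‖ ‖y - 1‖, le_max_right ‖y‖ ‖y - 1‖, show mx norm y = max _ _ from rfl]

theorem mx_comb (y x : ℂ) : ‖y + 1 - x‖ ≤ 4 * (mx norm y * mx norm x) ∧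
    ‖y - 1 - x‖ ≤ 4 * (mx norm y * mx norm x) := by
  have h1 : ‖y‖ ≤ mx norm y := le_max_left _ _
  have h2 : ‖y - 1‖ ≤ mx norm y := le_max_right _ _
  have h3 : ‖x‖ ≤ mx norm x := le_max_left _ _
  have h4 : ‖x - 1‖ ≤ mx norm x := le_max_right _ _
  have h0 : 0 ≤ mx norm y := (norm_nonneg _).trans h1
  have key : ∀ a b c : ℂ, ‖a‖ ≤ mx norm y * mx norm x → ‖b‖ ≤ mx norm y * mx norm x →
      ‖c‖ ≤ mx norm y * mx norm x → ‖a - 2 * b + c‖ ≤ 4 * (mx norm y * mx norm x) := by
    intro a b c ha hb hc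
    have := (norm_add_le (a - 2 * b) c).trans (add_le_add_left (norm_sub_le _ _) _)
    rw [norm_mul, Complex.norm_ofNat] at this
    linarith
  constructor
  · rw [show y + 1 - x = y * x - 2 * (y * (x - 1)) + (y - 1) * (x - 1) by ring]
    refine key _ _ _ ?_ ?_ ?_ <;> rw [norm_mul] <;> gcongr
  · rw [← norm_neg, show -(y - 1 - x) = y * x - 2 * ((y - 1) * x) + (y - 1) * (x - 1) by ring]
    refine key _ _ _ ?_ ?_ ?_ <;> rw [norm_mul] <;> gcongr

theorem mx_le_of_sq {y : ℂ} {c : ℝ} (hc : 0 ≤ c) (h1 : y.re ^ 2 + y.im ^ 2 ≤ c ^ 2)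
    (h2 : (y.re - 1) ^ 2 + y.im ^ 2 ≤ c ^ 2) : mx norm y ≤ c :=
  max_le (abs_le_of_sq_le_sq' (by rwa [Complex.sq_norm, Complex.normSq_apply, ← sq, ← sq]) hc).2
    (abs_le_of_sq_le_sq' (by
      rw [Complex.sq_norm, Complex.normSq_apply, ← sq, ← sq]
      simpa using h2) hc).2

theorem geom {y : ℂ} (h1 : mx norm y ≤ 21 / 10) (h2 : |2 * y.re - 1| ≤ 7 / 10) :
    mx norm y ≤ 17 / 18 * ‖y + 1‖ ∧ mx norm y ≤ 17 / 18 * ‖y - 2‖ := by
  have h3 : ‖y‖ ^ 2 ≤ (21 / 10) ^ 2 := by
    gcongr
    exact (le_max_left _ _).trans h1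
  have h4 : ‖y - 1‖ ^ 2 ≤ (21 / 10) ^ 2 := by
    gcongr
    exact (le_max_right _ _).trans h1
  obtain ⟨h5, h6⟩ := abs_le.mp h2
  simp only [Complex.sq_norm, Complex.normSq_apply, Complex.sub_re, Complex.sub_im,
    Complex.one_re, Complex.one_im, sub_zero] at h3 h4
  constructor <;> refine mx_le_of_sq (by positivity) ?_ ?_ <;>
    simp only [mul_pow, Complex.sq_norm, Complex.normSq_apply, Complex.sub_re, Complex.sub_im,
      Complex.add_re, Complex.add_im, Complex.one_re, Complex.one_im, sub_zero, add_zero,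
      Complex.re_ofNat, Complex.im_ofNat] <;> nlinarith

theorem const_bd {M : ℕ} (hM : 2 ≤ M) {r θ : ℝ} (hr : 1 / 20 ≤ r) (hθ : 0 ≤ θ) :
    2 / r * (3 * θ * (5 ^ M / (1 / 122) ^ M) ^ 2 / (1 / 122) ^ M) ≤ θ * 499358200 ^ M := by
  have h1 : 2 / r ≤ 40 := by
    rw [div_le_iff₀ (by linarith)]
    linarith
  have h2 : (120 : ℝ) ≤ 11 ^ M := le_trans (by norm_num) (pow_le_pow_right₀ (by norm_num) hM)
  have h3 : (499358200 : ℝ) ^ M = 11 ^ M * ((5 ^ M / (1 / 122) ^ M) ^ 2 / (1 / 122) ^ M) := by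
    rw [← div_pow, ← pow_mul, mul_comm M, pow_mul, ← div_pow, ← mul_pow]
    norm_num
  rw [h3]
  calc _ ≤ 40 * (3 * θ * (5 ^ M / (1 / 122) ^ M) ^ 2 / (1 / 122) ^ M) := by gcongr
    _ = θ * (120 * ((5 ^ M / (1 / 122) ^ M) ^ 2 / (1 / 122) ^ M)) := by ring
    _ ≤ _ := by gcongr

theorem one_le_E (M : ℕ) : (1 : ℝ) ≤ 5 ^ M / (1 / 122) ^ M := by
  rw [← div_pow]
  exact one_le_pow₀ (by norm_num)

theorem localA {N : ℕ} {P : ℂ[X]} {s s' : Multiset ℂ} (h : Wr P (pr s) = X ^ N) {y : ℂ}
    (hs : s = y ::ₘ y ::ₘ s') (hN : 1000 * s.card ≤ N) (h0 : y ≠ 0) (h1 : y ≠ 1)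
    (hy : mx norm y ≤ 2) (hre : |2 * y.re - 1| ≤ 1 / 2) :
    ‖(pr s).eval (y + 1)‖ * ‖(pr s).eval (y - 1)‖ ≤ (17 / 18) ^ N * 499358200 ^ s.card *
      (Zm (s.map (· - (y + 1))) * Zm (s.map (· - (y - 1)))) := by
  have hM : 2 ≤ s.card := by simp [hs]
  obtain ⟨r, hr, hL⟩ := exists_radius s {y - 1, y, y + 1} (by
    simp only [Finset.mem_insert, Finset.mem_singleton]
    rintro _ (rfl | rfl | rfl) _ (rfl | rfl | rfl) h <;> first | exact absurd rfl h | skip
    all_goals ring_nf
    all_goals simp)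
  have hη : (0 : ℝ) < (1 / 122) ^ s.card := by positivity
  have hE := one_le_E s.card
  have rat : ∀ z, ‖z‖ = r → ∀ t ∈ ({y - 1, y, y + 1} : Finset ℂ), ∀ t', ‖t - t'‖ ≤ 4 →
      ‖(pr s).eval (z + t')‖ ≤ 5 ^ s.card / (1 / 122) ^ s.card * ‖(pr s).eval (z + t)‖ :=
    fun z hz t ht t' h => ratio (by linarith [hr.2]) hη s (hL t ht) h hz
  have hT := TQ_of_wr h
  have hy0 : (pr s).eval y = 0 := pr_zero.mpr (by simp [hs])
  have n1 : (0 : ℂ) ∉ s.map (· - (y + 1)) := fun h => by
    obtain ⟨x, hx, h2⟩ := Multiset.mem_map.mp h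
    exact h0 (hT.adj (pr_monic s).ne_zero hy0 (pr_zero.mpr (sub_eq_zero.mp h2 ▸ hx)))
  have n2 : (0 : ℂ) ∉ s.map (· - (y - 1)) := fun h => by
    obtain ⟨x, hx, h2⟩ := Multiset.mem_map.mp h
    exact h1 (sub_eq_zero.mp (hT.adj (pr_monic s).ne_zero (z := y - 1)
      (pr_zero.mpr (sub_eq_zero.mp h2 ▸ hx)) (by rwa [sub_add_cancel])))
  have hre' := abs_le.mp hre
  have g : ∀ z : ℂ, ‖z‖ ≤ r → mx norm (z + y) ≤ 17 / 18 * ‖z + (y + 1)‖ ∧
      mx norm (z + y) ≤ 17 / 18 * ‖z + (y - 1 - 1)‖ := by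
    intro z hz
    have h2 := abs_le.mp ((Complex.abs_re_le_norm z).trans hz)
    have := geom (y := z + y) (max_le ((norm_add_le _ _).trans (by
        linarith [hr.2, (le_max_left _ _).trans hy])) (by
        rw [add_sub_assoc]
        exact (norm_add_le _ _).trans (by linarith [hr.2, (le_max_right _ _).trans hy])))
      (abs_le.mpr ⟨by rw [Complex.add_re]; linarith [hr.2], by rw [Complex.add_re]; linarith [hr.2]⟩)
    rwa [add_assoc, show z + y - 2 = z + (y - 1 - 1) by ring] at this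
  have bW : ∀ z : ℂ, ‖P.eval (z + (y + 1)) * (pr s).eval (z + (y - 1)) - P.eval (z + (y - 1)) *
      (pr s).eval (z + (y + 1))‖ * ‖(pr s).eval (z + y)‖ ≤ mx norm (z + y) ^ N *
        (‖(pr s).eval (z + (y - 1))‖ + ‖(pr s).eval (z + (y + 1))‖) := by
    intro z
    have w1 := wr_ev h (t := z + y) (t' := z + (y + 1)) (by ring)
    have w2 := wr_ev h (t := z + (y - 1)) (t' := z + y) (by ring)
    rw [← norm_mul, show (P.eval (z + (y + 1)) * (pr s).eval (z + (y - 1)) - P.eval (z + (y - 1)) *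
      (pr s).eval (z + (y + 1))) * (pr s).eval (z + y) = (z + y) ^ N * (pr s).eval (z + (y - 1)) +
        (z + y - 1) ^ N * (pr s).eval (z + (y + 1)) by
          rw [add_sub_assoc, ← w1, ← w2]; ring, mul_add]
    refine (norm_add_le _ _).trans ?_
    rw [norm_mul, norm_mul, norm_pow, norm_pow]
    gcongr
    exacts [le_max_left _ _, le_max_right _ _]
  have key := pairG (a := 0) h (p := y - 1) (q := y + 1) (r := r)
    (ε := 3 * (17 / 18) ^ N * (5 ^ s.card / (1 / 122) ^ s.card) ^ 2) (by linarith [hr.1])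
    (by linarith [hr.2]) hη (by positivity) (zero_add _).symm (zero_add _).symm (hL _ (by simp))
    (hL _ (by simp)) (by
      have := (g 0 (by simp; linarith [hr.1])).1
      simp only [zero_add] at this
      linarith [mx_half y, hr.2]) (by
      have := (g 0 (by simp; linarith [hr.1])).2
      simp only [zero_add] at this
      linarith [mx_half y, hr.2]) (fun z hz => by
      have h2 := bW z
      have h3 := rat z hz y (by simp) (y + 1 + 1) (by ring_nf; simp; norm_num)
      have h4 := rat z hz (y - 1) (by simp) (y + 1) (by ring_nf; simp; norm_num)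
      have h5 : mx norm (z + y) ^ N ≤ (17 / 18) ^ N * ‖z + (y + 1)‖ ^ N := by
        rw [← mul_pow]
        exact pow_le_pow_left₀ (by linarith [mx_half (z + y)]) (g z hz.le).1 N
      generalize (5 : ℝ) ^ s.card / (1 / 122) ^ s.card = E at *
      calc _ ≤ _ * (E * ‖(pr s).eval (z + y)‖) := by gcongr
        _ = E * (_ * ‖(pr s).eval (z + y)‖) := by ring
        _ ≤ E * ((17 / 18) ^ N * ‖z + (y + 1)‖ ^ N *
          (E * ‖(pr s).eval (z + (y - 1))‖ + 2 * (E * ‖(pr s).eval (z + (y - 1))‖))) := by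
            refine mul_le_mul_of_nonneg_left (h2.trans ?_) (by linarith)
            gcongr
            · exact le_mul_of_one_le_left (norm_nonneg _) hE
            · linarith [norm_nonneg ((pr s).eval (z + (y + 1)))]
        _ = _ := by ring) (fun z hz => by
      have h2 := bW z
      have h3 := rat z hz y (by simp) (y - 1 - 1) (by ring_nf; simp; norm_num)
      have h4 := rat z hz (y + 1) (by simp) (y - 1) (by ring_nf; simp; norm_num)
      have h5 : mx norm (z + y) ^ N ≤ (17 / 18) ^ N * ‖z + (y - 1 - 1)‖ ^ N := by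
        rw [← mul_pow]
        exact pow_le_pow_left₀ (by linarith [mx_half (z + y)]) (g z hz.le).2 N
      generalize (5 : ℝ) ^ s.card / (1 / 122) ^ s.card = E at *
      calc _ ≤ _ * (E * ‖(pr s).eval (z + y)‖) := by gcongr
        _ = E * (_ * ‖(pr s).eval (z + y)‖) := by ring
        _ ≤ E * ((17 / 18) ^ N * ‖z + (y - 1 - 1)‖ ^ N *
          (2 * (E * ‖(pr s).eval (z + (y + 1))‖) + E * ‖(pr s).eval (z + (y + 1))‖)) := by
            refine mul_le_mul_of_nonneg_left (h2.trans ?_) (by linarith)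
            gcongr
            · linarith [norm_nonneg ((pr s).eval (z + (y - 1)))]
            · exact le_mul_of_one_le_left (norm_nonneg _) hE
        _ = _ := by ring) n1 n2 (by
      have w1 := wr_at h (t := y) rfl
      have w2 := wr_at h (t := y - 1) (t' := y) (by ring)
      have e0 : taylor y (pr s) = X ^ 2 * taylor y (pr s') := by
        simp [hs, pr_cons, taylor_mul, pow_two, mul_assoc]
      have h2 := dbl (A := Multiset.replicate N (-y) + s.map (· - (y - 1)))
        (B := Multiset.replicate N (-(y - 1)) + s.map (· - (y + 1))) (by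
          rw [pr_add, pr_add, pr_replicate, pr_replicate, ← pr_taylor, ← pr_taylor, ← w1, ← w2, e0]
          exact ⟨taylor y (pr s') * (taylor (y + 1) P * taylor (y - 1) (pr s) -
            taylor (y - 1) P * taylor (y + 1) (pr s)), by ring⟩)
        (by simpa [Multiset.mem_replicate, h0] using n2)
        (by simpa [Multiset.mem_replicate, (sub_ne_zero.mpr h1.symm).symm] using n1)
      simp only [Multiset.map_add, Multiset.sum_add, Multiset.map_replicate,
        Multiset.sum_replicate, nsmul_eq_mul, sub_neg_eq_add, zero_add] at h2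
      have h3 := sub_ne_zero.mpr h1
      rw [show _ - _ = -(N / (y * (y - 1)) : ℂ) by
        rw [sub_eq_iff_eq_add.mpr ((sub_eq_iff_eq_add'.mpr h2).symm.trans (add_sub_right_comm _ _ _))]
        field_simp
        ring, norm_neg, norm_div, norm_mul, Complex.norm_natCast,
        le_div_iff₀ (by positivity)]
      have h4 : ‖y‖ * ‖y - 1‖ ≤ 2 * 2 := by
        gcongr
        exacts [(le_max_left _ _).trans hy, (le_max_right _ _).trans hy]
      have h5 : 2 * (s.card : ℝ) / r ≤ 40 * s.card := by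
        rw [div_le_iff₀ (by linarith [hr.1])]
        nlinarith [hr.1, (Nat.cast_nonneg s.card : (0 : ℝ) ≤ _)]
      have h6 : (1000 : ℝ) * s.card ≤ N := by exact_mod_cast hN
      have h7 : (2 : ℝ) ≤ s.card := by exact_mod_cast hM
      calc _ ≤ (1 + 40 * s.card : ℝ) * (2 * 2) := by gcongr
        _ ≤ _ := by linarith)
  rw [← pr_taylor, ← pr_taylor, taylor_eval, taylor_eval, zero_add, zero_add] at key
  refine key.trans (mul_le_mul_of_nonneg_right (const_bd hM hr.1 (by positivity)) ?_)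
  have := Zm_one_le (s.map (· - (y + 1)))
  have := Zm_one_le (s.map (· - (y - 1)))
  positivity

theorem localB {N a : ℕ} {P : ℂ[X]} {s s1 s2 : Multiset ℂ} (h : Wr P (pr s) = X ^ N) (ha : 2 ≤ a)
    (h1 : s = Multiset.replicate a 0 + s1) (h2 : s.map (· - 1) = Multiset.replicate a 0 + s2)
    (n1 : 0 ∉ s1) (n2 : 0 ∉ s2) (hN : 1000 * s.card ≤ N) :
    ‖(pr s2).eval 0‖ * ‖(pr s1).eval 0‖ * (‖(pr s).eval 2‖ * ‖(pr s).eval (-1)‖) ≤
      (17 / 18) ^ N * 499358200 ^ s.card * (Zm (s.map (· - 1)) * Zm s *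
        (Zm (s.map (· - 2)) * Zm (s.map (· - -1)))) := by
  have hM : a ≤ s.card := by simp [h1]
  have h1' : s.map (· - 0) = Multiset.replicate a 0 + s1 := by simpa using h1
  obtain ⟨r, hr, hL⟩ := exists_radius s {-1, 0, 1, 2} (by
    simp only [Finset.mem_insert, Finset.mem_singleton]
    rintro _ (rfl | rfl | rfl | rfl) _ (rfl | rfl | rfl | rfl) h <;>
      first | exact absurd rfl h | norm_num)
  have hη : (0 : ℝ) < (1 / 122) ^ s.card := by positivity
  have hE := one_le_E s.card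
  have rat : ∀ z, ‖z‖ = r → ∀ t ∈ ({-1, 0, 1, 2} : Finset ℂ), ∀ t', ‖t - t'‖ ≤ 4 →
      ‖(pr s).eval (z + t')‖ ≤ 5 ^ s.card / (1 / 122) ^ s.card * ‖(pr s).eval (z + t)‖ :=
    fun z hz t ht t' h => ratio (by linarith [hr.2]) hη s (hL t ht) h hz
  have pos : ∀ z, ‖z‖ = r → ∀ t ∈ ({-1, 0, 1, 2} : Finset ℂ), 0 < ‖(pr s).eval (z + t)‖ := by
    intro z hz t ht
    have h3 := Lm_le (s.map (· - t)) hz
    rw [← pr_taylor, taylor_eval] at h3
    have := Zm_one_le (s.map (· - t))
    exact lt_of_lt_of_le (by positivity) ((hL t ht).trans h3)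
  have hT := TQ_of_wr h
  have m0 : (0 : ℂ) ∈ s := by
    rw [h1]
    exact Multiset.mem_add.mpr (Or.inl (Multiset.mem_replicate.mpr ⟨by omega, rfl⟩))
  have m1 : (1 : ℂ) ∈ s := by
    have : (0 : ℂ) ∈ s.map (· - 1) := by
      rw [h2]
      exact Multiset.mem_add.mpr (Or.inl (Multiset.mem_replicate.mpr ⟨by omega, rfl⟩))
    obtain ⟨x, hx, h3⟩ := Multiset.mem_map.mp this
    exact sub_eq_zero.mp h3 ▸ hx
  have n3 : (0 : ℂ) ∉ s.map (· - 2) := fun h => by
    obtain ⟨x, hx, h2⟩ := Multiset.mem_map.mp h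
    exact one_ne_zero (hT.adj (pr_monic s).ne_zero (pr_zero.mpr m1)
      (pr_zero.mpr (by rwa [one_add_one_eq_two, ← sub_eq_zero.mp h2])))
  have n4 : (0 : ℂ) ∉ s.map (· - -1) := fun h => by
    obtain ⟨x, hx, h2⟩ := Multiset.mem_map.mp h
    exact one_ne_zero (neg_eq_zero.mp (hT.adj (pr_monic s).ne_zero (z := -1)
      (pr_zero.mpr (sub_eq_zero.mp h2 ▸ hx)) (pr_zero.mpr (by rwa [neg_add_cancel]))))
  have z1 : Zm (s.map (· - 1)) = Zm s2 := by simp [h2, Zm]
  have z0 : Zm s = Zm s1 := by simp [h1, Zm]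
  have z2 := Zm_one_le s1
  have z3 := Zm_one_le s2
  have z4 := Zm_one_le (s.map (· - 2))
  have z5 := Zm_one_le (s.map (· - -1))
  have hc := const_bd (ha.trans hM) hr.1 (θ := (17 / 18) ^ N) (by positivity)
  have ev : ∀ t, (pr s).eval t = (pr (s.map (· - t))).eval 0 := fun t => by
    rw [← pr_taylor, taylor_eval, zero_add]
  have hκ : (N : ℝ) ≤ ‖(s2.map fun β => (0 - β)⁻¹).sum - (s1.map fun β => (0 - β)⁻¹).sum‖ ∨
      (N : ℝ) ≤ ‖((s.map (· - 2)).map fun β => (0 - β)⁻¹).sum -
        ((s.map (· - -1)).map fun β => (0 - β)⁻¹).sum‖ := by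
    obtain ⟨b, rfl⟩ := Nat.exists_eq_add_of_le ha
    obtain ⟨c, rfl⟩ : ∃ c, N = 2 + b + 2 + c := ⟨N - (2 + b + 2), by omega⟩
    have w1 := wr_at h (t := 1) (t' := 2) (by ring)
    have w2 := wr_at h (t := 0) (t' := 1) (by ring)
    have w3 := wr_at h (t := -1) (t' := 0) (by ring)
    have e0 : taylor 0 (pr s) = X ^ (2 + b) * pr s1 := by rw [pr_taylor, h1', pr_add, pr_rep0]
    have e1 : taylor 1 (pr s) = X ^ (2 + b) * pr s2 := by rw [pr_taylor, h2, pr_add, pr_rep0]
    rw [e0] at w2 w3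
    rw [e1] at w1 w2
    rw [C_0, add_zero] at w2
    have h3 := dbl (A := Multiset.replicate (2 + b + 2 + c) (-1) + s.map (· - -1) + s1)
      (B := Multiset.replicate (2 + b + 2 + c) (- -1) + s2 + s.map (· - 2)) (by
        simp only [pr_add, pr_replicate, ← pr_taylor]
        refine ⟨X ^ b * pr s1 * pr s2 * (taylor 2 P * taylor (-1) (pr s) -
          taylor (-1) P * taylor 2 (pr s)) - X ^ c * (taylor (-1) (pr s) * taylor 2 (pr s)), ?_⟩
        apply mul_left_cancel₀ (pow_ne_zero (2 + b) X_ne_zero)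
        linear_combination (-(X ^ (2 + b) * taylor (-1) (pr s) * pr s1)) * w1 -
          (taylor (-1) (pr s) * taylor 2 (pr s)) * w2 - (X ^ (2 + b) * pr s2 * taylor 2 (pr s)) * w3)
      (by simpa [Multiset.mem_replicate, n1] using n4)
      (by simpa [Multiset.mem_replicate, n2] using n3)
    simp only [Multiset.map_add, Multiset.sum_add, Multiset.map_replicate,
      Multiset.sum_replicate, nsmul_eq_mul] at h3
    generalize 2 + b + 2 + c = N at *
    by_contra hcon
    push Not at hcon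
    have h4 := (norm_add_le _ _).trans_lt (add_lt_add hcon.1 hcon.2)
    rw [show _ + _ = (2 * N : ℂ) by linear_combination -h3] at h4
    simp only [norm_mul, Complex.norm_ofNat, Complex.norm_natCast] at h4
    linarith
  have h5 : 1 + 2 * (s.card : ℝ) / r ≤ N := by
    have h5 : 2 * (s.card : ℝ) / r ≤ 40 * s.card := by
      rw [div_le_iff₀ (by linarith [hr.1])]
      nlinarith [hr.1, (Nat.cast_nonneg s.card : (0 : ℝ) ≤ _)]
    have h6 : (1000 : ℝ) * s.card ≤ N := by exact_mod_cast hN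
    have h7 : (2 : ℝ) ≤ s.card := by exact_mod_cast ha.trans hM
    linarith
  have th : ∀ {x y : ℝ}, 0 ≤ x → x ≤ 17 / 18 * y → x ^ N ≤ (17 / 18) ^ N * y ^ N := fun h h' => by
    rw [← mul_pow]
    exact pow_le_pow_left₀ h h' N
  have lo : ∀ z t : ℂ, ‖z‖ = r → ‖t‖ - 1 / 10 ≤ ‖z + t‖ := fun z t hz => by
    have := norm_sub_le (z + t) z
    rw [add_sub_cancel_left] at this
    linarith [hr.2]
  rw [z1, z0, ev 2, ev (-1)]
  rcases hκ with hκ | hκ
  · have key := pairG h (p := 0) (q := 1) (r := r)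
      (ε := 3 * (17 / 18) ^ N * (5 ^ s.card / (1 / 122) ^ s.card) ^ 2) (by linarith [hr.1])
      (by linarith [hr.2]) hη (by positivity) h1' h2 (hL _ (by simp)) (hL _ (by simp))
      (by simp; linarith [hr.2]) (by simp; linarith [hr.2]) (fun z hz => by
        have h3 := rat z hz 0 (by simp) (1 + 1) (by norm_num)
        have h4 := th (norm_nonneg (z + 0)) (y := ‖z + 1‖) (by
          have := lo z 1 hz
          rw [add_zero, hz, norm_one] at *
          linarith [hr.2])
        rw [wr_ev h (by ring), norm_pow]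
        generalize (5 : ℝ) ^ s.card / (1 / 122) ^ s.card = E at *
        calc _ ≤ (17 / 18) ^ N * ‖z + 1‖ ^ N * (3 * E ^ 2 * ‖(pr s).eval (z + 0)‖) := by
              gcongr
              exact h3.trans (by gcongr; nlinarith)
          _ = _ := by ring) (fun z hz => by
        have h3 := rat z hz 1 (by simp) (0 - 1) (by norm_num)
        have h4 := th (norm_nonneg (z + 0)) (y := ‖z + (0 - 1)‖) (by
          have := lo z (0 - 1) hz
          rw [add_zero, hz]
          rw [zero_sub, norm_neg, norm_one] at this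
          rw [zero_sub]
          linarith [hr.2])
        rw [wr_ev h (by ring), norm_pow]
        generalize (5 : ℝ) ^ s.card / (1 / 122) ^ s.card = E at *
        calc _ ≤ (17 / 18) ^ N * ‖z + (0 - 1)‖ ^ N * (3 * E ^ 2 * ‖(pr s).eval (z + 1)‖) := by
              gcongr
              exact h3.trans (by gcongr; nlinarith)
          _ = _ := by ring) n2 n1 (h5.trans hκ)
    calc _ ≤ (17 / 18) ^ N * 499358200 ^ s.card * (Zm s2 * Zm s1) *
          (Zm (s.map (· - 2)) * Zm (s.map (· - -1))) := by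
          gcongr ?_ * (?_ * ?_)
          · exact key.trans (by gcongr)
          · exact le_Zm _ (by simp)
          · exact le_Zm _ (by simp)
      _ = _ := by ring
  · have bW : ∀ z : ℂ, ‖z‖ = r → ‖P.eval (z + 2) * (pr s).eval (z + -1) - P.eval (z + -1) *
        (pr s).eval (z + 2)‖ * (‖(pr s).eval (z + 0)‖ * ‖(pr s).eval (z + 1)‖) ≤ (11 / 10) ^ N *
          (‖(pr s).eval (z + -1)‖ * ‖(pr s).eval (z + 0)‖ +
            ‖(pr s).eval (z + -1)‖ * ‖(pr s).eval (z + 2)‖ +
              ‖(pr s).eval (z + 1)‖ * ‖(pr s).eval (z + 2)‖) := by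
      intro z hz
      have w1 := wr_ev h (t := z + 1) (t' := z + 2) (by ring)
      have w2 := wr_ev h (t := z + 0) (t' := z + 1) (by ring)
      have w3 := wr_ev h (t := z + -1) (t' := z + 0) (by ring)
      have up : ∀ t : ℂ, ‖t‖ ≤ 1 → ‖z + t‖ ≤ 11 / 10 := fun t ht =>
        (norm_add_le _ _).trans (by linarith [hr.2])
      rw [← norm_mul, ← norm_mul, show (P.eval (z + 2) * (pr s).eval (z + -1) - P.eval (z + -1) *
        (pr s).eval (z + 2)) * ((pr s).eval (z + 0) * (pr s).eval (z + 1)) =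
          (z + 1) ^ N * ((pr s).eval (z + -1) * (pr s).eval (z + 0)) +
          (z + 0) ^ N * ((pr s).eval (z + -1) * (pr s).eval (z + 2)) +
          (z + -1) ^ N * ((pr s).eval (z + 1) * (pr s).eval (z + 2)) by
            rw [← w1, ← w2, ← w3]; ring, mul_add, mul_add]
      refine norm_add₃_le.trans ?_
      simp only [norm_mul, norm_pow]
      gcongr <;> exact up _ (by simp)
    have key := pairG (a := 0) h (p := -1) (q := 2) (r := r)
      (ε := 3 * (17 / 18) ^ N * (5 ^ s.card / (1 / 122) ^ s.card) ^ 2) (by linarith [hr.1])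
      (by linarith [hr.2]) hη (by positivity) (zero_add _).symm (zero_add _).symm
      (hL _ (by simp)) (hL _ (by simp))
      (by simp; linarith [hr.2]) (by norm_num; linarith [hr.2]) (fun z hz => by
        have h3 := bW z hz
        have h4 := th (x := 11 / 10) (by norm_num) (y := ‖z + 2‖) (by
          have := lo z 2 hz
          rw [Complex.norm_ofNat] at this
          linarith)
        have r1 := rat z hz 1 (by simp) (2 + 1) (by norm_num)
        have r2 := rat z hz 0 (by simp) 2 (by norm_num)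
        have r3 := rat z hz (-1) (by simp) (2 + 1) (by norm_num)
        have p0 := pos z hz 0 (by simp)
        have p1 := pos z hz 1 (by simp)
        refine le_of_mul_le_mul_right ?_ (mul_pos p0 p1)
        rw [mul_right_comm]
        generalize (5 : ℝ) ^ s.card / (1 / 122) ^ s.card = E at *
        have q1 := norm_nonneg ((pr s).eval (z + -1))
        have q2 := norm_nonneg ((pr s).eval (z + 2))
        have q3 := norm_nonneg ((pr s).eval (z + (2 + 1)))
        refine (mul_le_mul_of_nonneg_right h3 q3).trans ?_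
        generalize ‖(pr s).eval (z + -1)‖ = a at *
        generalize ‖(pr s).eval (z + 0)‖ = b at *
        generalize ‖(pr s).eval (z + 1)‖ = c at *
        generalize ‖(pr s).eval (z + 2)‖ = d at *
        generalize ‖(pr s).eval (z + (2 + 1))‖ = e at *
        calc _ = (11 / 10) ^ N * (a * (1 * b) * e + a * d * e + c * d * e) := by ring
          _ ≤ (17 / 18) ^ N * ‖z + 2‖ ^ N *
            (a * (E * b) * (E * c) + a * (E * b) * (E * c) + c * (E * b) * (E * a)) := by gcongr
          _ = _ := by ring) (fun z hz => by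
        have h3 := bW z hz
        have h4 := th (x := 11 / 10) (by norm_num) (y := ‖z + (-1 - 1)‖) (by
          have := lo z (-1 - 1) hz
          rw [show ‖(-1 - 1 : ℂ)‖ = 2 by norm_num] at this
          linarith)
        have r1 := rat z hz 2 (by simp) (-1 - 1) (by norm_num)
        have r2 := rat z hz 0 (by simp) (-1 - 1) (by norm_num)
        have r3 := rat z hz 1 (by simp) (-1) (by norm_num)
        have p0 := pos z hz 0 (by simp)
        have p1 := pos z hz 1 (by simp)
        refine le_of_mul_le_mul_right ?_ (mul_pos p0 p1)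
        rw [mul_right_comm]
        generalize (5 : ℝ) ^ s.card / (1 / 122) ^ s.card = E at *
        have q1 := norm_nonneg ((pr s).eval (z + -1))
        have q2 := norm_nonneg ((pr s).eval (z + 2))
        have q3 := norm_nonneg ((pr s).eval (z + (-1 - 1)))
        refine (mul_le_mul_of_nonneg_right h3 q3).trans ?_
        generalize ‖(pr s).eval (z + -1)‖ = a at *
        generalize ‖(pr s).eval (z + 0)‖ = b at *
        generalize ‖(pr s).eval (z + 1)‖ = c at *
        generalize ‖(pr s).eval (z + 2)‖ = d at *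
        generalize ‖(pr s).eval (z + (-1 - 1))‖ = e at *
        calc _ = (11 / 10) ^ N * (a * b * e + a * d * e + (1 * c) * d * e) := by ring
          _ ≤ (17 / 18) ^ N * ‖z + (-1 - 1)‖ ^ N *
            ((E * c) * b * (E * d) + (E * c) * d * (E * b) + (E * c) * d * (E * b)) := by gcongr
          _ = _ := by ring) n3 n4 (h5.trans hκ)
    calc _ ≤ (Zm s2 * Zm s1) * ((17 / 18) ^ N * 499358200 ^ s.card *
          (Zm (s.map (· - 2)) * Zm (s.map (· - -1)))) := by
          gcongr (?_ * ?_) * ?_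
          · exact le_Zm _ (by simp)
          · exact le_Zm _ (by simp)
          · exact key.trans (by gcongr)
      _ = _ := by ring

end Pool.Agent.MP_c0c29f_mp.H97
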