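import Mathlib
import Pool.Agent.MP_c0c29f_mp.H97.Local

/-!
Heights of Bethe roots and the product formula.
-/

namespace Pool.Agent.MP_c0c29f_mp.H97

open Polynomial NumberField

theorem log_le_sum {α : Type} {x A : ℝ} (hx : 0 < x) (s : Multiset α) (f : α → ℝ)
    (hf : ∀ a, 0 < f a) (hA : 0 < A) (h : x ≤ A * (s.map f).prod) :
    Real.log x ≤ Real.log A + (s.map fun a => Real.log (f a)).sum := by
  refine (Real.log_le_log hx h).trans_eq ?_
  rw [Real.log_mul hA.ne' (mp_pos s f fun a _ => hf a).ne', Real.log_multiset_prod, Multiset.map_map]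
  · rfl
  · intro y hy
    obtain ⟨a, -, rfl⟩ := Multiset.mem_map.mp hy
    exact (hf a).ne'

theorem log_two_lt : Real.log 2 < 0.6932 := Real.log_two_lt_d9.trans (by norm_num)

theorem log_two_gt : 0.693 < Real.log 2 := lt_trans (by norm_num) Real.log_two_gt_d9

theorem log_th (N : ℕ) : Real.log ((17 / 18) ^ N) ≤ -(N / 18) := by
  rw [Real.log_pow]
  have := Real.log_le_sub_one_of_pos (show (0 : ℝ) < 17 / 18 by norm_num)
  nlinarith [(Nat.cast_nonneg N : (0 : ℝ) ≤ N)]

theorem log_pow_le {A : ℝ} (hA : 0 < A) (k : ℕ) (h : A ≤ 2 ^ k) (M : ℕ) :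
    Real.log (A ^ M) ≤ 0.6932 * k * M := by
  have h1 := Real.log_le_log hA h
  rw [Real.log_pow] at h1
  rw [Real.log_pow, mul_comm]
  have := log_two_lt
  gcongr
  nlinarith [(Nat.cast_nonneg k : (0 : ℝ) ≤ k)]

theorem mx_pos (y : ℂ) : 0 < mx norm y := lt_of_lt_of_le (by norm_num) (mx_half y)

theorem mx_log (y : ℂ) : -0.6932 ≤ Real.log (mx norm y) := by
  have := Real.log_le_log (by norm_num) (mx_half y)
  rw [one_div, Real.log_inv] at this
  linarith [log_two_lt]

theorem triv_bd (s : Multiset ℂ) (y : ℂ) :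
    ‖(pr s).eval (y + 1)‖ ≤ 4 ^ s.card * (s.map fun x => mx norm y * mx norm x).prod ∧
      ‖(pr s).eval (y - 1)‖ ≤ 4 ^ s.card * (s.map fun x => mx norm y * mx norm x).prod := by
  rw [pr_norm, pr_norm, ← mp_const_mul]
  exact ⟨mp_le _ _ _ (fun _ _ => norm_nonneg _) fun x _ => (mx_comb y x).1,
    mp_le _ _ _ (fun _ _ => norm_nonneg _) fun x _ => (mx_comb y x).2⟩

theorem archA {N : ℕ} {P : ℂ[X]} {s s' : Multiset ℂ} (h : Wr P (pr s) = X ^ N) {y : ℂ}
    (hs : s = y ::ₘ y ::ₘ s') (hN : 1000 * s.card ≤ N) (h0 : y ≠ 0) (h1 : y ≠ 1)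
    (hp : (pr s).eval (y + 1) * (pr s).eval (y - 1) ≠ 0) :
    Real.log ‖(pr s).eval (y + 1) * (pr s).eval (y - 1)‖ ≤
      (2 * s.card + 0.04 * N) * Real.log (mx norm y) +
        2 * (s.map fun x => Real.log (mx norm x)).sum + (25 * s.card - 0.49 / 18 * N) := by
  set B := (s.map fun x => mx norm y * mx norm x).prod with hB
  have hB0 : 0 < B := mp_pos _ _ fun x _ => mul_pos (mx_pos y) (mx_pos x)
  obtain ⟨t1, t2⟩ := triv_bd s y
  have t3 : (4 : ℝ) ^ s.card * 4 ^ s.card ≤ (499358200 * 64) ^ s.card := by
    rw [← mul_pow]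
    exact pow_le_pow_left₀ (by norm_num) (by norm_num) _
  have key : ∀ θ : ℝ, 0 < θ → ‖(pr s).eval (y + 1)‖ * ‖(pr s).eval (y - 1)‖ ≤
      θ * (499358200 * 64) ^ s.card * (B * B) →
      Real.log ‖(pr s).eval (y + 1) * (pr s).eval (y - 1)‖ ≤ Real.log θ + 25 * s.card +
        2 * (s.card * Real.log (mx norm y) + (s.map fun x => Real.log (mx norm x)).sum) := by
    intro θ hθ h
    rw [← norm_mul] at h
    have h2 := Real.log_le_log (norm_pos_iff.mpr hp) h
    have h3 := log_le_sum hB0 s _ (fun x => mul_pos (mx_pos y) (mx_pos x)) one_pos (one_mul _).ge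
    simp only [Real.log_mul (mx_pos _).ne' (mx_pos _).ne', Multiset.sum_map_add,
      Multiset.map_const', Multiset.sum_replicate, nsmul_eq_mul, Real.log_one, zero_add] at h3
    rw [Real.log_mul (by positivity) (by positivity), Real.log_mul hθ.ne' (by positivity),
      Real.log_mul hB0.ne' hB0.ne'] at h2
    have h4 := log_pow_le (A := 499358200 * 64) (by norm_num) 35 (by norm_num) s.card
    have h5 : (0 : ℝ) ≤ s.card := Nat.cast_nonneg _
    push_cast at h4
    generalize Real.log ((499358200 * 64) ^ s.card) = L at h2 h4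
    have h6 : L ≤ 25 * s.card := h4.trans (by gcongr; norm_num)
    refine h2.trans ?_
    gcongr ?_ + ?_
    · gcongr
    · rw [two_mul]
      exact add_le_add h3 h3
  have hN0 : (0 : ℝ) ≤ N := Nat.cast_nonneg N
  by_cases hy : mx norm y ≤ 2
  · have h2 := key ((17 / 18) ^ N) (by positivity) (by
      by_cases hre : |2 * y.re - 1| ≤ 1 / 2
      · refine (localA h hs hN h0 h1 hy hre).trans ?_
        have hZ : ∀ t, (∀ x, ‖t - x‖ ≤ 4 * (mx norm y * mx norm x)) →
            Zm (s.map (· - t)) ≤ 8 ^ s.card * B := by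
          intro t ht
          rw [Zm, Multiset.map_map, hB, ← mp_const_mul]
          refine mp_le _ _ _ (fun _ _ => by simp only [Function.comp]; positivity) fun x _ => ?_
          have := ht x
          rw [norm_sub_rev] at this
          simp only [Function.comp]
          nlinarith [mx_half x, mx_half y]
        have := Zm_one_le (s.map (· - (y - 1)))
        calc _ ≤ (17 / 18) ^ N * 499358200 ^ s.card * ((8 ^ s.card * B) * (8 ^ s.card * B)) := by
              gcongr
              exacts [hZ _ fun x => (mx_comb y x).1, hZ _ fun x => (mx_comb y x).2]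
          _ = _ := by rw [show (499358200 * 64 : ℝ) = 499358200 * 8 * 8 by norm_num, mul_pow, mul_pow]; ring
      · have e := (TQ_of_wr h).eval y
        rw [pr_zero.mpr (by simp [hs]), mul_zero] at e
        have e1 := congrArg norm (eq_neg_of_add_eq_zero_left e.symm)
        simp only [norm_mul, norm_pow, norm_neg] at e1
        have q1 : ‖y‖ ^ 2 ≤ 2 ^ 2 := by
          gcongr
          exact (le_max_left _ _).trans hy
        have q2 : ‖y - 1‖ ^ 2 ≤ 2 ^ 2 := by
          gcongr
          exact (le_max_right _ _).trans hy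
        have q3 : ‖y‖ ^ 2 = ‖y - 1‖ ^ 2 + (2 * y.re - 1) := by
          simp only [Complex.sq_norm, Complex.normSq_apply, Complex.sub_re, Complex.sub_im,
            Complex.one_re, Complex.one_im]
          ring
        have aux : ∀ a b u v : ℝ, 0 ≤ a → 0 < b → 0 ≤ u → 0 ≤ v → b ^ 2 ≤ 2 ^ 2 →
            a ^ 2 + 1 / 2 ≤ b ^ 2 → b ^ N * u = a ^ N * v → v ≤ 4 ^ s.card * B →
            u * v ≤ (17 / 18) ^ N * (499358200 * 64) ^ s.card * (B * B) := by
          intro a b u v ha hb hu hv h1 h2 h3 h4
          have h5 : a ≤ 17 / 18 * b := (abs_le_of_sq_le_sq' (by nlinarith) (by positivity)).2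
          have h6 : u ≤ (17 / 18) ^ N * v := by
            refine le_of_mul_le_mul_left ?_ (pow_pos hb N)
            rw [h3, ← mul_assoc, ← mul_pow, mul_comm b]
            gcongr
          calc _ ≤ (17 / 18) ^ N * (4 ^ s.card * B) * (4 ^ s.card * B) := by
                gcongr
                exact h6.trans (by gcongr)
            _ = (17 / 18) ^ N * (4 ^ s.card * 4 ^ s.card) * (B * B) := by ring
            _ ≤ _ := by gcongr
        rcases lt_abs.mp (not_le.mp hre) with h3 | h3
        · rw [mul_comm]
          exact aux ‖y - 1‖ ‖y‖ _ _ (norm_nonneg _) (norm_pos_iff.mpr h0) (norm_nonneg _)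
            (norm_nonneg _) q1 (by linarith) e1 t1
        · exact aux ‖y‖ ‖y - 1‖ _ _ (norm_nonneg _) (norm_pos_iff.mpr (sub_ne_zero.mpr h1))
            (norm_nonneg _) (norm_nonneg _) q2 (by linarith) e1.symm t2)
    nlinarith [log_th N, mx_log y]
  · have h2 := key 1 one_pos (by
      calc _ ≤ (4 ^ s.card * B) * (4 ^ s.card * B) := by gcongr
        _ = 1 * (4 ^ s.card * 4 ^ s.card) * (B * B) := by ring
        _ ≤ _ := by gcongr)
    have h3 := Real.log_le_log two_pos (not_le.mp hy).le
    rw [Real.log_one] at h2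
    nlinarith [log_two_gt]

theorem archB {N a : ℕ} {P : ℂ[X]} {s s1 s2 : Multiset ℂ} (h : Wr P (pr s) = X ^ N) (ha : 2 ≤ a)
    (h1 : s = Multiset.replicate a 0 + s1) (h2 : s.map (· - 1) = Multiset.replicate a 0 + s2)
    (n1 : 0 ∉ s1) (n2 : 0 ∉ s2) (hN : 1000 * s.card ≤ N)
    (hp : (pr s2).eval 0 * (pr s1).eval 0 * ((pr s).eval 2 * (pr s).eval (-1)) ≠ 0) :
    Real.log ‖(pr s2).eval 0 * (pr s1).eval 0 * ((pr s).eval 2 * (pr s).eval (-1))‖ ≤
      4 * (s.map fun x => Real.log (mx norm x)).sum + (28 * s.card - N / 18) := by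
  set B := (s.map fun x => mx norm x).prod with hB
  have hB0 : 0 < B := mp_pos _ _ fun x _ => mx_pos x
  have hZ : ∀ t, (∀ x, ‖x - t‖ ≤ 3 * mx norm x) → Zm (s.map (· - t)) ≤ 5 ^ s.card * B := by
    intro t ht
    rw [Zm, Multiset.map_map, hB, ← mp_const_mul]
    refine mp_le _ _ _ (fun _ _ => by simp only [Function.comp]; positivity) fun x _ => ?_
    simp only [Function.comp]
    linarith [mx_half x, ht x]
  have l1 : ∀ x : ℂ, ‖x‖ ≤ mx norm x := fun x => le_max_left _ _
  have l2 : ∀ x : ℂ, ‖x - 1‖ ≤ mx norm x := fun x => le_max_right _ _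
  have z0 := hZ 0 fun x => by rw [sub_zero]; linarith [l1 x, mx_pos x]
  have z1 := hZ 1 fun x => by linarith [l2 x, mx_pos x]
  have z2 := hZ 2 fun x => by
    have := norm_sub_le (2 * (x - 1)) x
    rw [show 2 * (x - 1) - x = x - 2 by ring, norm_mul, Complex.norm_ofNat] at this
    linarith [l1 x, l2 x]
  have z3 := hZ (-1) fun x => by
    have := norm_sub_le (2 * x) (x - 1)
    rw [show 2 * x - (x - 1) = x - -1 by ring, norm_mul, Complex.norm_ofNat] at this
    linarith [l1 x, l2 x]
  simp only [sub_zero, Multiset.map_id'] at z0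
  have h3 : ‖(pr s2).eval 0 * (pr s1).eval 0 * ((pr s).eval 2 * (pr s).eval (-1))‖ ≤
      (17 / 18) ^ N * (499358200 * 625) ^ s.card * B ^ 4 := by
    simp only [norm_mul]
    refine (localB h ha h1 h2 n1 n2 hN).trans ?_
    have := Zm_one_le s
    have := Zm_one_le (s.map (· - 2))
    have := Zm_one_le (s.map (· - -1))
    calc _ ≤ (17 / 18) ^ N * 499358200 ^ s.card * ((5 ^ s.card * B) * (5 ^ s.card * B) *
          ((5 ^ s.card * B) * (5 ^ s.card * B))) := by gcongr
      _ = _ := by
        rw [show (499358200 * 625 : ℝ) = 499358200 * 5 * 5 * 5 * 5 by norm_num]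
        simp only [mul_pow]
        ring
  have h4 := Real.log_le_log (norm_pos_iff.mpr hp) h3
  have h5 := log_le_sum hB0 s _ mx_pos one_pos (one_mul _).ge
  rw [Real.log_mul (by positivity) (by positivity), Real.log_mul (by positivity) (by positivity),
    Real.log_pow B] at h4
  have h6 := log_pow_le (A := 499358200 * 625) (by norm_num) 39 (by norm_num) s.card
  rw [Real.log_one] at h5
  push_cast at h4 h6
  nlinarith [(Nat.cast_nonneg s.card : (0 : ℝ) ≤ _), log_th N]

variable {K : Type} [Field K] [NumberField K]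

/-- sum over places -/
noncomputable def tot (S : Finset (FinitePlace K)) (f : (K → ℝ) → ℝ) : ℝ :=
  ∑ w : InfinitePlace K, w.mult * f w + ∑ v ∈ S, f v

/-- the degree -/
noncomputable def dg (K : Type) [Field K] [NumberField K] : ℝ := ∑ w : InfinitePlace K, w.mult

theorem dg_pos : 0 < dg K :=
  Finset.sum_pos (fun _ _ => zero_lt_one.trans_le InfinitePlace.one_le_mult) Finset.univ_nonempty

theorem tot_le (S : Finset (FinitePlace K)) {f g : (K → ℝ) → ℝ} {c : ℝ}
    (h1 : ∀ σ : K →+* ℂ, f (fun x => ‖σ x‖) ≤ g (fun x => ‖σ x‖) + c)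
    (h2 : ∀ v : FinitePlace K, f v ≤ g v) : tot S f ≤ tot S g + c * dg K := by
  rw [tot, tot, dg, Finset.mul_sum, add_right_comm, ← Finset.sum_add_distrib]
  refine add_le_add (Finset.sum_le_sum fun w _ => ?_) (Finset.sum_le_sum fun v _ => h2 v)
  have := h1 w.embedding
  simp only [InfinitePlace.norm_embedding_eq] at this
  nlinarith [(Nat.cast_nonneg w.mult : (0 : ℝ) ≤ _)]

theorem tot_add (S : Finset (FinitePlace K)) (f g : (K → ℝ) → ℝ) :
    tot S (fun v => f v + g v) = tot S f + tot S g := by
  simp only [tot, mul_add, Finset.sum_add_distrib]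
  ring

theorem tot_mul (S : Finset (FinitePlace K)) (c : ℝ) (f : (K → ℝ) → ℝ) :
    tot S (fun v => c * f v) = c * tot S f := by
  simp only [tot, mul_add, Finset.mul_sum, mul_left_comm c]

theorem tot_sum (S : Finset (FinitePlace K)) (s : Multiset K) (f : (K → ℝ) → K → ℝ) :
    tot S (fun v => (s.map (f v)).sum) = (s.map fun x => tot S fun v => f v x).sum := by
  induction s using Multiset.induction_on with
  | empty => simp [tot]
  | cons a s ih => simp only [Multiset.map_cons, Multiset.sum_cons, tot_add, ih]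

theorem exists_places (F : Multiset K) : ∃ S : Finset (FinitePlace K), ∀ x ∈ F, x ≠ 0 →
    tot S (fun v => Real.log (v x)) = 0 := by
  classical
  have h1 : ∀ x : K, ∃ S : Finset (FinitePlace K), x ≠ 0 →
      (Function.mulSupport fun v : FinitePlace K => v x) ⊆ S := by
    intro x
    by_cases hx : x = 0
    · exact ⟨∅, fun h => absurd hx h⟩
    · exact ⟨(FinitePlace.hasFiniteMulSupport hx).toFinset, fun _ => by simp⟩
  choose S hS using h1
  refine ⟨F.toFinset.biUnion S, fun x hx h0 => ?_⟩
  have h2 := congrArg Real.log (prod_abs_eq_one h0)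
  rw [finprod_eq_prod_of_mulSupport_subset _ (s := F.toFinset.biUnion S) ((hS x h0).trans
    (Finset.coe_subset.mpr (Finset.subset_biUnion_of_mem S (Multiset.mem_toFinset.mpr hx)))),
    Real.log_mul, Real.log_prod, Real.log_prod, Real.log_one] at h2
  · simpa [tot] using h2
  · exact fun v _ => (FinitePlace.pos_iff.mpr h0).ne'
  · exact fun w _ => pow_ne_zero _ (InfinitePlace.pos_iff.mpr h0).ne'
  · exact Finset.prod_ne_zero_iff.mpr fun w _ => pow_ne_zero _ (InfinitePlace.pos_iff.mpr h0).ne'
  · exact Finset.prod_ne_zero_iff.mpr fun v _ => (FinitePlace.pos_iff.mpr h0).ne'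

theorem mx_emb (σ : K →+* ℂ) (y : K) : mx (fun x => ‖σ x‖) y = mx norm (σ y) := by
  simp [mx]

theorem fin_sub (v : FinitePlace K) {a b : K} {t : ℝ} (ha : v a ≤ t) (hb : v b ≤ t) :
    v (a - b) ≤ t := by
  rw [sub_eq_add_neg]
  exact (v.add_le _ _).trans (max_le ha (by rwa [map_neg_eq_map]))

theorem fin_one_le (v : FinitePlace K) (y : K) : 1 ≤ mx v y := by
  have := fin_sub v (a := y) (b := y - 1) (le_max_left _ _) (le_max_right _ _)
  rwa [sub_sub_cancel, map_one] at this

theorem fin_pos (v : FinitePlace K) (y : K) : 0 < mx v y := zero_lt_one.trans_le (fin_one_le v y)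

theorem fin_bd (v : FinitePlace K) (s : Multiset K) (y : K) :
    v ((pr s).eval (y + 1)) ≤ (s.map fun x => mx v y * mx v x).prod ∧
      v ((pr s).eval (y - 1)) ≤ (s.map fun x => mx v y * mx v x).prod := by
  have e := pr_abv v.1 s
  simp only [← FinitePlace.coe_apply] at e
  have l1 : ∀ x, v x ≤ mx v x := fun x => le_max_left _ _
  have l2 : ∀ x, v (x - 1) ≤ mx v x := fun x => le_max_right _ _
  have l3 : ∀ x y, mx v y ≤ mx v y * mx v x := fun x y =>
    le_mul_of_one_le_right (fin_pos v y).le (fin_one_le v x)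
  rw [e, e]
  constructor <;> refine mp_le _ _ _ (fun _ _ => apply_nonneg _ _) fun x _ => ?_
  · rw [show y + 1 - x = y - (x - 1) by ring]
    exact fin_sub v ((l1 y).trans (l3 x y)) ((l2 x).trans (mul_comm (mx v x) _ ▸ l3 y x))
  · exact fin_sub v ((l2 y).trans (l3 x y)) ((l1 x).trans (mul_comm (mx v x) _ ▸ l3 y x))

theorem stepA_aux {N : ℕ} {a b p q B : ℝ} (ha : 0 < a) (hb : 0 ≤ b) (hp : 0 < p)
    (h : a ^ N * q = b ^ N * p) (h1 : p ≤ B) (h2 : q ≤ B) :
    N * Real.log (max a b) + Real.log p ≤ N * Real.log a + Real.log B := by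
  have h3 : 0 < max a b := lt_max_of_lt_left ha
  rw [← Real.log_pow, ← Real.log_pow, ← Real.log_mul (by positivity) hp.ne',
    ← Real.log_mul (by positivity) (hp.trans_le h1).ne']
  refine Real.log_le_log (by positivity) ?_
  rcases le_total a b with h4 | h4
  · rw [max_eq_right h4, ← h]
    gcongr
  · rw [max_eq_left h4]
    gcongr

theorem heights {N : ℕ} {T : K[X]} {s : Multiset K} (h : TQ N T (pr s)) (S : Finset (FinitePlace K))
    (hS : ∀ x ∈ s + s.map fun x => (pr s).eval (x + 1), x ≠ 0 →
      tot S (fun v => Real.log (v x)) = 0) (hN : 1000 * s.card ≤ N) :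
    (s.map fun x => tot S fun v => Real.log (mx v x)).sum ≤ s.card * dg K / 500 ∧
      ∀ y ∈ s, ((N : ℝ) - s.card) * tot S (fun v => Real.log (mx v y)) ≤
        1.41 * s.card * dg K := by
  set H := (s.map fun x => tot S fun v => Real.log (mx v x)).sum with hH
  have hD := dg_pos (K := K)
  have hM : (0 : ℝ) ≤ s.card := Nat.cast_nonneg _
  have h1 : ∀ y ∈ s, ((N : ℝ) - s.card) * tot S (fun v => Real.log (mx v y)) ≤
      H + 1.4 * s.card * dg K := by
    intro y hy
    by_cases h0 : y = 0 ∨ y = 1
    · have h2 : tot S (fun v => Real.log (mx v y)) = 0 := by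
        have : ∀ w : InfinitePlace K, w (-1) = 1 := fun w => w.1.map_neg 1 |>.trans w.1.map_one
        rcases h0 with rfl | rfl <;> simp [tot, mx, this]
      have h3 := tot_le S (f := fun _ => 0) (g := fun v => (s.map fun x => Real.log (mx v x)).sum)
        (c := 1.4 * s.card) (fun σ => by
          have := Multiset.card_nsmul_le_sum (s := s.map fun x => Real.log (mx (fun x => ‖σ x‖) x))
            (a := -0.6932) fun x hx => by
              obtain ⟨x, -, rfl⟩ := Multiset.mem_map.mp hx
              rw [mx_emb]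
              exact mx_log _
          rw [Multiset.card_map, nsmul_eq_mul] at this
          linarith) fun v => Multiset.sum_nonneg fun x hx => by
            obtain ⟨x, -, rfl⟩ := Multiset.mem_map.mp hx
            exact Real.log_nonneg (fin_one_le v x)
      rw [tot_sum, show tot S (fun _ => 0) = 0 by simp [tot]] at h3
      rw [h2, mul_zero]
      exact h3
    push Not at h0
    have hy0 := pr_zero.mpr hy
    have n1 : (pr s).eval (y + 1) ≠ 0 := fun h' => h0.1 (h.adj (pr_monic s).ne_zero hy0 h')
    have e := h.eval y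
    rw [hy0, mul_zero] at e
    have e := eq_neg_of_add_eq_zero_left e.symm
    have h2 := tot_le S
      (f := fun v => N * Real.log (mx v y) + Real.log (v ((pr s).eval (y + 1))))
      (g := fun v => N * Real.log (v y) + (s.card * Real.log (mx v y) +
        (s.map fun x => Real.log (mx v x)).sum)) (c := 1.4 * s.card) (fun σ => by
        have e1 := congrArg (fun x => ‖σ x‖) e
        simp only [map_mul, map_pow, map_neg, norm_mul, norm_pow, norm_neg] at e1
        obtain ⟨t1, t2⟩ := triv_bd (s.map σ) (σ y)
        rw [← pr_map, ← map_one σ, ← map_add, eval_map_apply] at t1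
        rw [← pr_map, ← map_one σ, ← map_sub, eval_map_apply] at t2
        have h3 := stepA_aux (by simpa using h0.1) (norm_nonneg _) (by simpa using n1) e1 t1 t2
        have h4 := log_le_sum (lt_of_lt_of_le (by simpa using n1) t1) _ _
          (fun x => mul_pos (mx_pos (σ y)) (mx_pos x)) (by positivity) le_rfl
        have h5 := log_pow_le (A := 4) (by norm_num) 2 (by norm_num) s.card
        simp only [Real.log_mul (mx_pos _).ne' (mx_pos _).ne', Multiset.sum_map_add,
          Multiset.map_const', Multiset.sum_replicate, nsmul_eq_mul, Multiset.card_map,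
          Multiset.map_map, Function.comp] at h3 h4
        simp only [mx_emb]
        have h6 : max ‖σ y‖ ‖σ (y - 1)‖ = mx norm (σ y) := by simp [mx]
        rw [h6] at h3
        push_cast at h5
        linarith) fun v => by
        have e1 := congrArg v e
        simp only [map_mul, map_pow, map_neg_eq_map] at e1
        obtain ⟨t1, t2⟩ := fin_bd v s y
        have h3 := stepA_aux (FinitePlace.pos_iff.mpr h0.1) (apply_nonneg _ _)
          (FinitePlace.pos_iff.mpr n1) e1 t1 t2
        have h4 := log_le_sum ((FinitePlace.pos_iff.mpr n1).trans_le t1) _ _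
          (fun x => mul_pos (fin_pos v y) (fin_pos v x)) one_pos (one_mul _).ge
        simp only [Real.log_mul (fin_pos _ _).ne' (fin_pos _ _).ne', Multiset.sum_map_add,
          Multiset.map_const', Multiset.sum_replicate, nsmul_eq_mul, Real.log_one] at h4
        have h6 : max (v y) (v (y - 1)) = mx v y := rfl
        rw [h6] at h3
        linarith
    rw [tot_add, tot_add, tot_add, tot_mul, tot_mul, tot_mul, tot_sum,
      hS y (Multiset.mem_add.mpr (Or.inl hy)) h0.1,
      hS _ (Multiset.mem_add.mpr (Or.inr (Multiset.mem_map_of_mem _ hy))) n1] at h2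
    linarith
  have hN' : (1000 : ℝ) * s.card ≤ N := by exact_mod_cast hN
  have h2 : H ≤ s.card * dg K / 500 := by
    have h2 := Multiset.sum_map_le_sum_map _ _ h1
    rw [Multiset.sum_map_mul_left, Multiset.map_const', Multiset.sum_replicate, nsmul_eq_mul,
      ← hH] at h2
    rcases hM.eq_or_lt with h3 | h3
    · have : s = 0 := Multiset.card_eq_zero.mp (by exact_mod_cast h3.symm)
      simp [hH, this]
    by_contra h4
    push Not at h4
    have h5 : 0 < H := lt_trans (by positivity) h4
    have h6 : 998 * s.card * H ≤ s.card * (1.4 * s.card * dg K) := by nlinarith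
    nlinarith [mul_pos h3 (mul_pos h3 hD)]
  exact ⟨h2, fun y hy => (h1 y hy).trans (by nlinarith [mul_nonneg hM hD.le])⟩

theorem nodupK {N : ℕ} {P : K[X]} {s : Multiset K} (h : Wr P (pr s) = X ^ N)
    (hN : 1000 * s.card ≤ N) : s.Nodup := by
  classical
  by_contra hd
  rw [Multiset.nodup_iff_count_le_one] at hd
  push Not at hd
  obtain ⟨y, hy⟩ := hd
  have hT := TQ_of_wr h
  have hD := dg_pos (K := K)
  have hN' : (1000 : ℝ) * s.card ≤ N := by exact_mod_cast hN
  have hM : (2 : ℝ) ≤ s.card := by exact_mod_cast (Nat.succ_le_of_lt hy).trans (Multiset.count_le_card y s)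
  have hmap : ∀ σ : K →+* ℂ, Wr (P.map σ) (pr (s.map σ)) = X ^ N := fun σ => by
    have := congrArg (Polynomial.map σ) h
    simpa [Wr, map_taylor, pr_map] using this
  have ev : ∀ (σ : K →+* ℂ) (s : Multiset K) (x : K),
      σ ((pr s).eval x) = (pr (s.map σ)).eval (σ x) := fun σ s x => by
    rw [← pr_map, eval_map_apply]
  by_cases h0 : y = 0 ∨ y = 1
  · obtain ⟨a, s1, s2, h1, h2, n1, n2⟩ := sing_decomp hT (by omega)
    have ha : 2 ≤ a := by
      rcases h0 with rfl | rfl
      · rwa [h1, Multiset.count_add, Multiset.count_replicate_self,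
          Multiset.count_eq_zero_of_notMem n1] at hy
      · rwa [← Multiset.count_map_eq_count' (· - 1) s sub_left_injective, h2, sub_self,
          Multiset.count_add, Multiset.count_replicate_self,
          Multiset.count_eq_zero_of_notMem n2] at hy
    have m0 : (0 : K) ∈ s := by
      rw [h1]
      exact Multiset.mem_add.mpr (Or.inl (Multiset.mem_replicate.mpr ⟨by omega, rfl⟩))
    have m1 : (1 : K) ∈ s := by
      have : (0 : K) ∈ s.map (· - 1) := by
        rw [h2]
        exact Multiset.mem_add.mpr (Or.inl (Multiset.mem_replicate.mpr ⟨by omega, rfl⟩))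
      obtain ⟨x, hx, h3⟩ := Multiset.mem_map.mp this
      exact sub_eq_zero.mp h3 ▸ hx
    have hp : (pr s2).eval 0 * (pr s1).eval 0 * ((pr s).eval 2 * (pr s).eval (-1)) ≠ 0 :=
      mul_ne_zero (mul_ne_zero (pr_zero.not.mpr n2) (pr_zero.not.mpr n1)) (mul_ne_zero
        (fun h => one_ne_zero (hT.adj (pr_monic s).ne_zero (pr_zero.mpr m1)
          (by rwa [one_add_one_eq_two])))
        fun h => one_ne_zero (neg_eq_zero.mp (hT.adj (pr_monic s).ne_zero h
          (pr_zero.mpr (by rwa [neg_add_cancel])))))
    obtain ⟨S, hS⟩ := exists_places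
      (((pr s2).eval 0 * (pr s1).eval 0 * ((pr s).eval 2 * (pr s).eval (-1))) ::ₘ
        (s + s.map fun x => (pr s).eval (x + 1)))
    obtain ⟨h3, -⟩ := heights hT S (fun x hx => hS x (Multiset.mem_cons_of_mem hx)) hN
    have h4 := tot_le S (f := fun v => Real.log (v
      ((pr s2).eval 0 * (pr s1).eval 0 * ((pr s).eval 2 * (pr s).eval (-1)))))
      (g := fun v => 4 * (s.map fun x => Real.log (mx v x)).sum) (c := 28 * s.card - N / 18)
      (fun σ => by
        have e : σ ((pr s2).eval 0 * (pr s1).eval 0 * ((pr s).eval 2 * (pr s).eval (-1))) =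
            (pr (s2.map σ)).eval 0 * (pr (s1.map σ)).eval 0 * ((pr (s.map σ)).eval 2 *
              (pr (s.map σ)).eval (-1)) := by
          simp only [map_mul, ev, map_zero, map_ofNat, map_neg, map_one]
        have h4 := archB (s1 := s1.map σ) (s2 := s2.map σ) (hmap σ) ha (by simp [h1]) (by
          have := congrArg (Multiset.map σ) h2
          simpa using this) (by simpa using n1) (by simpa using n2) (by simpa using hN)
          (by rw [← e]; simpa using hp)
        simp only [Multiset.map_map, Multiset.card_map, Function.comp] at h4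
        simp only [mx_emb, e]
        exact h4) fun v => by
        have e := pr_abv v.1
        simp only [← FinitePlace.coe_apply] at e
        have l1 : ∀ x, v x ≤ mx v x := fun x => le_max_left _ _
        have l2 : ∀ x, v (x - 1) ≤ mx v x := fun x => le_max_right _ _
        set B := (s.map fun x => mx v x).prod with hB
        have b1 : v ((pr s1).eval 0) ≤ B := by
          rw [e, hB, h1, Multiset.map_add, Multiset.prod_add]
          refine (mp_le _ _ _ (fun _ _ => apply_nonneg _ _) fun x _ => ?_).trans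
            (le_mul_of_one_le_left (mp_nonneg _ _ fun _ _ => (fin_pos v _).le)
              (mp_one_le _ _ fun x _ => fin_one_le v x))
          rw [zero_sub, map_neg_eq_map]
          exact l1 x
        have b2 : v ((pr s2).eval 0) ≤ B := by
          have : B = ((s.map (· - 1)).map fun x => mx v (x + 1)).prod := by simp [hB]
          rw [e, this, h2, Multiset.map_add, Multiset.prod_add]
          refine (mp_le _ _ _ (fun _ _ => apply_nonneg _ _) fun x _ => ?_).trans
            (le_mul_of_one_le_left (mp_nonneg _ _ fun _ _ => (fin_pos v _).le)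
              (mp_one_le _ _ fun x _ => fin_one_le v _))
          rw [zero_sub, map_neg_eq_map]
          simpa using l2 (x + 1)
        have b3 : v ((pr s).eval 2) ≤ B := by
          have := (fin_bd v s 1).1
          simpa [one_add_one_eq_two, mx, hB] using this
        have b4 : v ((pr s).eval (-1)) ≤ B := by
          have := (fin_bd v s 0).2
          simpa [mx, hB] using this
        have hB0 : 0 < B := mp_pos _ _ fun x _ => fin_pos v x
        have h4 := Real.log_le_log (FinitePlace.pos_iff.mpr hp) (show v _ ≤ B ^ 4 by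
          simp only [map_mul]
          calc _ ≤ B * B * (B * B) := by gcongr
            _ = _ := by ring)
        have h5 := log_le_sum hB0 s _ (fin_pos v) one_pos (one_mul _).ge
        rw [Real.log_pow] at h4
        rw [Real.log_one] at h5
        push_cast at h4
        linarith
    rw [hS _ (Multiset.mem_cons_self _ _) hp, tot_mul, tot_sum] at h4
    nlinarith
  · push Not at h0
    obtain ⟨s', hs⟩ : ∃ s', s = y ::ₘ y ::ₘ s' := by
      obtain ⟨t, ht⟩ := Multiset.le_iff_exists_add.mp (Multiset.le_count_iff_replicate_le.mp hy)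
      exact ⟨t, by simpa using ht⟩
    have hy' : y ∈ s := by simp [hs]
    have hy0 := pr_zero.mpr hy'
    have hp : (pr s).eval (y + 1) * (pr s).eval (y - 1) ≠ 0 := mul_ne_zero
      (fun h => h0.1 (hT.adj (pr_monic s).ne_zero hy0 h))
      fun h => h0.2 (sub_eq_zero.mp (hT.adj (pr_monic s).ne_zero h (by rwa [sub_add_cancel])))
    obtain ⟨S, hS⟩ := exists_places (((pr s).eval (y + 1) * (pr s).eval (y - 1)) ::ₘ
      (s + s.map fun x => (pr s).eval (x + 1)))
    obtain ⟨h3, h3'⟩ := heights hT S (fun x hx => hS x (Multiset.mem_cons_of_mem hx)) hN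
    have h4 := tot_le S (f := fun v => Real.log (v ((pr s).eval (y + 1) * (pr s).eval (y - 1))))
      (g := fun v => (2 * s.card + 0.04 * N) * Real.log (mx v y) +
        2 * (s.map fun x => Real.log (mx v x)).sum) (c := 25 * s.card - 0.49 / 18 * N)
      (fun σ => by
        have e : σ ((pr s).eval (y + 1) * (pr s).eval (y - 1)) =
            (pr (s.map σ)).eval (σ y + 1) * (pr (s.map σ)).eval (σ y - 1) := by
          simp only [map_mul, ev, map_add, map_sub, map_one]
        have h4 := archA (y := σ y) (s' := s'.map σ) (hmap σ) (by simp [hs]) (by simpa using hN)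
          (by simpa using h0.1) (fun h => h0.2 (σ.injective (by simpa using h)))
          (by rw [← e]; simpa using hp)
        simp only [Multiset.map_map, Multiset.card_map, Function.comp] at h4
        simp only [mx_emb, e]
        exact h4) fun v => by
        obtain ⟨t1, t2⟩ := fin_bd v s y
        set B := (s.map fun x => mx v y * mx v x).prod with hB
        have hB0 : 0 < B := mp_pos _ _ fun x _ => mul_pos (fin_pos v y) (fin_pos v x)
        have h4 := Real.log_le_log (FinitePlace.pos_iff.mpr hp) (show v _ ≤ B * B by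
          simp only [map_mul]
          gcongr)
        have h5 := log_le_sum hB0 s _ (fun x => mul_pos (fin_pos v y) (fin_pos v x)) one_pos
          (one_mul _).ge
        simp only [Real.log_mul (fin_pos _ _).ne' (fin_pos _ _).ne', Multiset.sum_map_add,
          Multiset.map_const', Multiset.sum_replicate, nsmul_eq_mul, Real.log_one] at h5
        rw [Real.log_mul hB0.ne' hB0.ne'] at h4
        have := Real.log_nonneg (fin_one_le v y)
        nlinarith
    rw [hS _ (Multiset.mem_cons_self _ _) hp, tot_add, tot_mul, tot_mul, tot_sum] at h4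
    have h5 := h3' y hy'
    generalize tot S (fun v => Real.log (mx v y)) = h0 at *
    have h6 : (2 * s.card + 0.04 * N) * h0 ≤ 0.07 * s.card * dg K := by
      rcases le_total h0 0 with h7 | h7
      · exact (mul_nonpos_of_nonneg_of_nonpos (by positivity) h7).trans (by positivity)
      · nlinarith
    nlinarith

end Pool.Agent.MP_c0c29f_mp.H97
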