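import Mathlib
import Pool.Agent.MP_c0c29f_mp.H97.Height
import Pool.Agent.MP_c0c29f_mp.H97.Book

/-!
Physical solutions are defined over number fields.
-/

namespace Pool.Agent.MP_c0c29f_mp.H97

open Polynomial

theorem Phys.toK {N M : ℕ} (hN : 2 * M ≤ N) {Q : ℂ[X]} (h : Phys N M Q) :
    ∃ K : IntermediateField ℚ ℂ, FiniteDimensional ℚ K ∧ ∃ (P : K[X]) (s : Multiset K),
      Wr P (pr s) = X ^ N ∧ s.map (algebraMap K ℂ) = Q.roots := by
  classical
  obtain ⟨P, mP, dP, cP, hW⟩ := h.norm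
  obtain ⟨mQ, dQ, -⟩ := h
  have h1 : ∀ r ∈ (P * Q).roots.toFinset, IsIntegral ℚ r := by
    intro r hr
    refine integral_of_val' fun V hV => wr_val V (fun n => by simpa using hV (n : ℚ)⁻¹) (N := N)
      mP mQ (by omega) (by omega) (by rw [dQ, cP]; exact V.zero_mem) (fun j => ?_)
      (isRoot_of_mem_roots (Multiset.mem_toFinset.mp hr))
    rw [hW, coeff_C_mul, coeff_X_pow]
    split_ifs
    · simpa using hV ((P.natDegree : ℚ) - M)
    · simp
  let K := IntermediateField.adjoin ℚ (((P * Q).roots.toFinset : Finset ℂ) : Set ℂ)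
  have h2 : ∀ t : Multiset ℂ, t ≤ (P * Q).roots → ∃ s : Multiset K, s.map (algebraMap K ℂ) = t := by
    intro t ht
    refine ⟨t.attach.map fun x => ⟨x.1, IntermediateField.subset_adjoin _ _
      (Multiset.mem_toFinset.mpr (Multiset.mem_of_le ht x.2))⟩, ?_⟩
    rw [Multiset.map_map]
    exact Multiset.attach_map_val t
  have h3 := roots_mul (mP.mul mQ).ne_zero
  obtain ⟨s, hs⟩ := h2 Q.roots (by rw [h3]; exact Multiset.le_add_left _ _)
  obtain ⟨t, ht⟩ := h2 P.roots (by rw [h3]; exact Multiset.le_add_right _ _)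
  refine ⟨K, IntermediateField.finiteDimensional_adjoin h1,
    C ((P.natDegree : K) - M)⁻¹ * pr t, s, ?_, hs⟩
  apply map_injective (algebraMap K ℂ) (algebraMap K ℂ).injective
  have e1 : pr Q.roots = Q := ((IsAlgClosed.splits Q).eq_prod_roots_of_monic mQ).symm
  have e2 : pr P.roots = P := ((IsAlgClosed.splits P).eq_prod_roots_of_monic mP).symm
  have e3 : (P.natDegree : ℂ) - M ≠ 0 :=
    sub_ne_zero.mpr (by exact_mod_cast (by omega : P.natDegree ≠ M))
  rw [wr_map, Polynomial.map_mul, pr_map, pr_map, hs, ht, e1, e2, map_C, map_inv₀, map_sub,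
    map_natCast, map_natCast, Polynomial.map_pow, map_X]
  apply mul_left_cancel₀ (C_ne_zero.mpr e3)
  rw [← hW]
  simp only [Wr, taylor_mul, taylor_C]
  have e4 : C ((P.natDegree : ℂ) - M) * C ((P.natDegree : ℂ) - M)⁻¹ = 1 := by
    rw [← C_mul, mul_inv_cancel₀ e3, C_1]
  linear_combination (taylor 1 P * Q - P * taylor 1 Q) * e4

theorem Phys.nodup_lin {N M : ℕ} (hN : 1000 * M ≤ N) {Q : ℂ[X]} (h : Phys N M Q) :
    Q.roots.Nodup := by
  obtain ⟨K, hK, P, s, h1, h2⟩ := h.toK (by omega)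
  haveI : NumberField K := NumberField.mk
  have h3 : s.card = M := by
    rw [← Multiset.card_map (algebraMap K ℂ), h2, ← h.2.1]
    exact (IsAlgClosed.splits Q).natDegree_eq_card_roots.symm
  rw [← h2]
  exact (nodupK h1 (by rwa [h3])).map (algebraMap K ℂ).injective

end Pool.Agent.MP_c0c29f_mp.H97
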